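import Pool.Agent.H92.Frog.Dat.C0
import Pool.Agent.H92.Frog.Dat.C1
import Pool.Agent.H92.Frog.Dat.C2
import Pool.Agent.H92.Frog.Dat.C3
import Pool.Agent.H92.Frog.Dat.C4
import Pool.Agent.H92.Frog.Dat.C5
import Pool.Agent.H92.Frog.Dat.C6
import Pool.Agent.H92.Frog.Dat.C7

/-! Table of coefficients (generated). -/

set_option autoImplicit false
set_option maxRecDepth 100000

namespace Pool.Agent.H92.Frog.K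

/-- coefficients, by context -/
def CT : Tr :=
 (Tr.nd (nat_lit 406255) (Tr.nd (nat_lit 16875) (Tr.nd (nat_lit 1875) (Tr.nd (nat_lit 251) (Tr.nd (nat_lit 51) (Tr.nd (nat_lit 15) (Tr.nd (nat_lit 7) (Tr.nd (nat_lit 3) (Tr.lf c3)
 (Tr.lf c7))
 (Tr.nd (nat_lit 11) (Tr.lf c11)
 (Tr.lf c15)))
 (Tr.nd (nat_lit 31) (Tr.nd (nat_lit 27) (Tr.lf c27)
 (Tr.lf c31))
 (Tr.nd (nat_lit 35) (Tr.lf c35)
 (Tr.lf c51))))
 (Tr.nd (nat_lit 131) (Tr.nd (nat_lit 75) (Tr.nd (nat_lit 55) (Tr.lf c55)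
 (Tr.lf c75))
 (Tr.nd (nat_lit 127) (Tr.lf c127)
 (Tr.lf c131)))
 (Tr.nd (nat_lit 151) (Tr.nd (nat_lit 135) (Tr.lf c135)
 (Tr.lf c151))
 (Tr.nd (nat_lit 155) (Tr.lf c155)
 (Tr.nd (nat_lit 175) (Tr.lf c175)
 (Tr.lf c251))))))
 (Tr.nd (nat_lit 675) (Tr.nd (nat_lit 627) (Tr.nd (nat_lit 275) (Tr.nd (nat_lit 255) (Tr.lf c255)
 (Tr.lf c275))
 (Tr.nd (nat_lit 375) (Tr.lf c375)
 (Tr.lf c627)))
 (Tr.nd (nat_lit 635) (Tr.nd (nat_lit 631) (Tr.lf c631)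
 (Tr.lf c635))
 (Tr.nd (nat_lit 651) (Tr.lf c651)
 (Tr.nd (nat_lit 655) (Tr.lf c655)
 (Tr.lf c675)))))
 (Tr.nd (nat_lit 875) (Tr.nd (nat_lit 755) (Tr.nd (nat_lit 751) (Tr.lf c751)
 (Tr.lf c755))
 (Tr.nd (nat_lit 775) (Tr.lf c775)
 (Tr.lf c875)))
 (Tr.nd (nat_lit 1255) (Tr.nd (nat_lit 1251) (Tr.lf c1251)
 (Tr.lf c1255))
 (Tr.nd (nat_lit 1275) (Tr.lf c1275)
 (Tr.nd (nat_lit 1375) (Tr.lf c1375)
 (Tr.lf c1875)))))))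
 (Tr.nd (nat_lit 6275) (Tr.nd (nat_lit 3275) (Tr.nd (nat_lit 3151) (Tr.nd (nat_lit 3131) (Tr.nd (nat_lit 3127) (Tr.lf c3127)
 (Tr.lf c3131))
 (Tr.nd (nat_lit 3135) (Tr.lf c3135)
 (Tr.lf c3151)))
 (Tr.nd (nat_lit 3175) (Tr.nd (nat_lit 3155) (Tr.lf c3155)
 (Tr.lf c3175))
 (Tr.nd (nat_lit 3251) (Tr.lf c3251)
 (Tr.nd (nat_lit 3255) (Tr.lf c3255)
 (Tr.lf c3275)))))
 (Tr.nd (nat_lit 3775) (Tr.nd (nat_lit 3751) (Tr.nd (nat_lit 3375) (Tr.lf c3375)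
 (Tr.lf c3751))
 (Tr.nd (nat_lit 3755) (Tr.lf c3755)
 (Tr.lf c3775)))
 (Tr.nd (nat_lit 4375) (Tr.nd (nat_lit 3875) (Tr.lf c3875)
 (Tr.lf c4375))
 (Tr.nd (nat_lit 6251) (Tr.lf c6251)
 (Tr.nd (nat_lit 6255) (Tr.lf c6255)
 (Tr.lf c6275))))))
 (Tr.nd (nat_lit 15675) (Tr.nd (nat_lit 15627) (Tr.nd (nat_lit 6875) (Tr.nd (nat_lit 6375) (Tr.lf c6375)
 (Tr.lf c6875))
 (Tr.nd (nat_lit 9375) (Tr.lf c9375)
 (Tr.lf c15627)))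
 (Tr.nd (nat_lit 15635) (Tr.nd (nat_lit 15631) (Tr.lf c15631)
 (Tr.lf c15635))
 (Tr.nd (nat_lit 15651) (Tr.lf c15651)
 (Tr.nd (nat_lit 15655) (Tr.lf c15655)
 (Tr.lf c15675)))))
 (Tr.nd (nat_lit 15875) (Tr.nd (nat_lit 15755) (Tr.nd (nat_lit 15751) (Tr.lf c15751)
 (Tr.lf c15755))
 (Tr.nd (nat_lit 15775) (Tr.lf c15775)
 (Tr.lf c15875)))
 (Tr.nd (nat_lit 16255) (Tr.nd (nat_lit 16251) (Tr.lf c16251)
 (Tr.lf c16255))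
 (Tr.nd (nat_lit 16275) (Tr.lf c16275)
 (Tr.nd (nat_lit 16375) (Tr.lf c16375)
 (Tr.lf c16875))))))))
 (Tr.nd (nat_lit 93755) (Tr.nd (nat_lit 78155) (Tr.nd (nat_lit 31275) (Tr.nd (nat_lit 18875) (Tr.nd (nat_lit 18755) (Tr.nd (nat_lit 18751) (Tr.lf c18751)
 (Tr.lf c18755))
 (Tr.nd (nat_lit 18775) (Tr.lf c18775)
 (Tr.lf c18875)))
 (Tr.nd (nat_lit 21875) (Tr.nd (nat_lit 19375) (Tr.lf c19375)
 (Tr.lf c21875))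
 (Tr.nd (nat_lit 31251) (Tr.lf c31251)
 (Tr.nd (nat_lit 31255) (Tr.lf c31255)
 (Tr.lf c31275)))))
 (Tr.nd (nat_lit 46875) (Tr.nd (nat_lit 31875) (Tr.nd (nat_lit 31375) (Tr.lf c31375)
 (Tr.lf c31875))
 (Tr.nd (nat_lit 34375) (Tr.lf c34375)
 (Tr.lf c46875)))
 (Tr.nd (nat_lit 78131) (Tr.nd (nat_lit 78127) (Tr.lf c78127)
 (Tr.lf c78131))
 (Tr.nd (nat_lit 78135) (Tr.lf c78135)
 (Tr.nd (nat_lit 78151) (Tr.lf c78151)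
 (Tr.lf c78155))))))
 (Tr.nd (nat_lit 78875) (Tr.nd (nat_lit 78275) (Tr.nd (nat_lit 78251) (Tr.nd (nat_lit 78175) (Tr.lf c78175)
 (Tr.lf c78251))
 (Tr.nd (nat_lit 78255) (Tr.lf c78255)
 (Tr.lf c78275)))
 (Tr.nd (nat_lit 78751) (Tr.nd (nat_lit 78375) (Tr.lf c78375)
 (Tr.lf c78751))
 (Tr.nd (nat_lit 78755) (Tr.lf c78755)
 (Tr.nd (nat_lit 78775) (Tr.lf c78775)
 (Tr.lf c78875)))))
 (Tr.nd (nat_lit 81275) (Tr.nd (nat_lit 81251) (Tr.nd (nat_lit 79375) (Tr.lf c79375)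
 (Tr.lf c81251))
 (Tr.nd (nat_lit 81255) (Tr.lf c81255)
 (Tr.lf c81275)))
 (Tr.nd (nat_lit 81875) (Tr.nd (nat_lit 81375) (Tr.lf c81375)
 (Tr.lf c81875))
 (Tr.nd (nat_lit 84375) (Tr.lf c84375)
 (Tr.nd (nat_lit 93751) (Tr.lf c93751)
 (Tr.lf c93755)))))))
 (Tr.nd (nat_lit 390655) (Tr.nd (nat_lit 156375) (Tr.nd (nat_lit 96875) (Tr.nd (nat_lit 93875) (Tr.nd (nat_lit 93775) (Tr.lf c93775)
 (Tr.lf c93875))
 (Tr.nd (nat_lit 94375) (Tr.lf c94375)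
 (Tr.lf c96875)))
 (Tr.nd (nat_lit 156251) (Tr.nd (nat_lit 109375) (Tr.lf c109375)
 (Tr.lf c156251))
 (Tr.nd (nat_lit 156255) (Tr.lf c156255)
 (Tr.nd (nat_lit 156275) (Tr.lf c156275)
 (Tr.lf c156375)))))
 (Tr.nd (nat_lit 234375) (Tr.nd (nat_lit 159375) (Tr.nd (nat_lit 156875) (Tr.lf c156875)
 (Tr.lf c159375))
 (Tr.nd (nat_lit 171875) (Tr.lf c171875)
 (Tr.lf c234375)))
 (Tr.nd (nat_lit 390631) (Tr.nd (nat_lit 390627) (Tr.lf c390627)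
 (Tr.lf c390631))
 (Tr.nd (nat_lit 390635) (Tr.lf c390635)
 (Tr.nd (nat_lit 390651) (Tr.lf c390651)
 (Tr.lf c390655))))))
 (Tr.nd (nat_lit 391375) (Tr.nd (nat_lit 390775) (Tr.nd (nat_lit 390751) (Tr.nd (nat_lit 390675) (Tr.lf c390675)
 (Tr.lf c390751))
 (Tr.nd (nat_lit 390755) (Tr.lf c390755)
 (Tr.lf c390775)))
 (Tr.nd (nat_lit 391251) (Tr.nd (nat_lit 390875) (Tr.lf c390875)
 (Tr.lf c391251))
 (Tr.nd (nat_lit 391255) (Tr.lf c391255)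
 (Tr.nd (nat_lit 391275) (Tr.lf c391275)
 (Tr.lf c391375)))))
 (Tr.nd (nat_lit 393775) (Tr.nd (nat_lit 393751) (Tr.nd (nat_lit 391875) (Tr.lf c391875)
 (Tr.lf c393751))
 (Tr.nd (nat_lit 393755) (Tr.lf c393755)
 (Tr.lf c393775)))
 (Tr.nd (nat_lit 394375) (Tr.nd (nat_lit 393875) (Tr.lf c393875)
 (Tr.lf c394375))
 (Tr.nd (nat_lit 396875) (Tr.lf c396875)
 (Tr.nd (nat_lit 406251) (Tr.lf c406251)
 (Tr.lf c406255)))))))))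
 (Tr.nd (nat_lit 3906375) (Tr.nd (nat_lit 1953775) (Tr.nd (nat_lit 781375) (Tr.nd (nat_lit 468775) (Tr.nd (nat_lit 409375) (Tr.nd (nat_lit 406375) (Tr.nd (nat_lit 406275) (Tr.lf c406275)
 (Tr.lf c406375))
 (Tr.nd (nat_lit 406875) (Tr.lf c406875)
 (Tr.lf c409375)))
 (Tr.nd (nat_lit 468751) (Tr.nd (nat_lit 421875) (Tr.lf c421875)
 (Tr.lf c468751))
 (Tr.nd (nat_lit 468755) (Tr.lf c468755)
 (Tr.lf c468775))))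
 (Tr.nd (nat_lit 484375) (Tr.nd (nat_lit 469375) (Tr.nd (nat_lit 468875) (Tr.lf c468875)
 (Tr.lf c469375))
 (Tr.nd (nat_lit 471875) (Tr.lf c471875)
 (Tr.lf c484375)))
 (Tr.nd (nat_lit 781251) (Tr.nd (nat_lit 546875) (Tr.lf c546875)
 (Tr.lf c781251))
 (Tr.nd (nat_lit 781255) (Tr.lf c781255)
 (Tr.nd (nat_lit 781275) (Tr.lf c781275)
 (Tr.lf c781375))))))
 (Tr.nd (nat_lit 1953151) (Tr.nd (nat_lit 859375) (Tr.nd (nat_lit 784375) (Tr.nd (nat_lit 781875) (Tr.lf c781875)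
 (Tr.lf c784375))
 (Tr.nd (nat_lit 796875) (Tr.lf c796875)
 (Tr.lf c859375)))
 (Tr.nd (nat_lit 1953127) (Tr.nd (nat_lit 1171875) (Tr.lf c1171875)
 (Tr.lf c1953127))
 (Tr.nd (nat_lit 1953131) (Tr.lf c1953131)
 (Tr.nd (nat_lit 1953135) (Tr.lf c1953135)
 (Tr.lf c1953151)))))
 (Tr.nd (nat_lit 1953255) (Tr.nd (nat_lit 1953175) (Tr.nd (nat_lit 1953155) (Tr.lf c1953155)
 (Tr.lf c1953175))
 (Tr.nd (nat_lit 1953251) (Tr.lf c1953251)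
 (Tr.lf c1953255)))
 (Tr.nd (nat_lit 1953375) (Tr.nd (nat_lit 1953275) (Tr.lf c1953275)
 (Tr.lf c1953375))
 (Tr.nd (nat_lit 1953751) (Tr.lf c1953751)
 (Tr.nd (nat_lit 1953755) (Tr.lf c1953755)
 (Tr.lf c1953775)))))))
 (Tr.nd (nat_lit 2031275) (Tr.nd (nat_lit 1968751) (Tr.nd (nat_lit 1956255) (Tr.nd (nat_lit 1954375) (Tr.nd (nat_lit 1953875) (Tr.lf c1953875)
 (Tr.lf c1954375))
 (Tr.nd (nat_lit 1956251) (Tr.lf c1956251)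
 (Tr.lf c1956255)))
 (Tr.nd (nat_lit 1956375) (Tr.nd (nat_lit 1956275) (Tr.lf c1956275)
 (Tr.lf c1956375))
 (Tr.nd (nat_lit 1956875) (Tr.lf c1956875)
 (Tr.nd (nat_lit 1959375) (Tr.lf c1959375)
 (Tr.lf c1968751)))))
 (Tr.nd (nat_lit 1969375) (Tr.nd (nat_lit 1968775) (Tr.nd (nat_lit 1968755) (Tr.lf c1968755)
 (Tr.lf c1968775))
 (Tr.nd (nat_lit 1968875) (Tr.lf c1968875)
 (Tr.lf c1969375)))
 (Tr.nd (nat_lit 1984375) (Tr.nd (nat_lit 1971875) (Tr.lf c1971875)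
 (Tr.lf c1984375))
 (Tr.nd (nat_lit 2031251) (Tr.lf c2031251)
 (Tr.nd (nat_lit 2031255) (Tr.lf c2031255)
 (Tr.lf c2031275))))))
 (Tr.nd (nat_lit 2343875) (Tr.nd (nat_lit 2046875) (Tr.nd (nat_lit 2031875) (Tr.nd (nat_lit 2031375) (Tr.lf c2031375)
 (Tr.lf c2031875))
 (Tr.nd (nat_lit 2034375) (Tr.lf c2034375)
 (Tr.lf c2046875)))
 (Tr.nd (nat_lit 2343751) (Tr.nd (nat_lit 2109375) (Tr.lf c2109375)
 (Tr.lf c2343751))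
 (Tr.nd (nat_lit 2343755) (Tr.lf c2343755)
 (Tr.nd (nat_lit 2343775) (Tr.lf c2343775)
 (Tr.lf c2343875)))))
 (Tr.nd (nat_lit 2421875) (Tr.nd (nat_lit 2346875) (Tr.nd (nat_lit 2344375) (Tr.lf c2344375)
 (Tr.lf c2346875))
 (Tr.nd (nat_lit 2359375) (Tr.lf c2359375)
 (Tr.lf c2421875)))
 (Tr.nd (nat_lit 3906251) (Tr.nd (nat_lit 2734375) (Tr.lf c2734375)
 (Tr.lf c3906251))
 (Tr.nd (nat_lit 3906255) (Tr.lf c3906255)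
 (Tr.nd (nat_lit 3906275) (Tr.lf c3906275)
 (Tr.lf c3906375))))))))
 (Tr.nd (nat_lit 9843755) (Tr.nd (nat_lit 9766255) (Tr.nd (nat_lit 9765635) (Tr.nd (nat_lit 3984375) (Tr.nd (nat_lit 3909375) (Tr.nd (nat_lit 3906875) (Tr.lf c3906875)
 (Tr.lf c3909375))
 (Tr.nd (nat_lit 3921875) (Tr.lf c3921875)
 (Tr.lf c3984375)))
 (Tr.nd (nat_lit 5859375) (Tr.nd (nat_lit 4296875) (Tr.lf c4296875)
 (Tr.lf c5859375))
 (Tr.nd (nat_lit 9765627) (Tr.lf c9765627)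
 (Tr.nd (nat_lit 9765631) (Tr.lf c9765631)
 (Tr.lf c9765635)))))
 (Tr.nd (nat_lit 9765751) (Tr.nd (nat_lit 9765655) (Tr.nd (nat_lit 9765651) (Tr.lf c9765651)
 (Tr.lf c9765655))
 (Tr.nd (nat_lit 9765675) (Tr.lf c9765675)
 (Tr.lf c9765751)))
 (Tr.nd (nat_lit 9765775) (Tr.nd (nat_lit 9765755) (Tr.lf c9765755)
 (Tr.lf c9765775))
 (Tr.nd (nat_lit 9765875) (Tr.lf c9765875)
 (Tr.nd (nat_lit 9766251) (Tr.lf c9766251)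
 (Tr.lf c9766255))))))
 (Tr.nd (nat_lit 9771875) (Tr.nd (nat_lit 9768751) (Tr.nd (nat_lit 9766375) (Tr.nd (nat_lit 9766275) (Tr.lf c9766275)
 (Tr.lf c9766375))
 (Tr.nd (nat_lit 9766875) (Tr.lf c9766875)
 (Tr.lf c9768751)))
 (Tr.nd (nat_lit 9768775) (Tr.nd (nat_lit 9768755) (Tr.lf c9768755)
 (Tr.lf c9768775))
 (Tr.nd (nat_lit 9768875) (Tr.lf c9768875)
 (Tr.nd (nat_lit 9769375) (Tr.lf c9769375)
 (Tr.lf c9771875)))))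
 (Tr.nd (nat_lit 9781375) (Tr.nd (nat_lit 9781255) (Tr.nd (nat_lit 9781251) (Tr.lf c9781251)
 (Tr.lf c9781255))
 (Tr.nd (nat_lit 9781275) (Tr.lf c9781275)
 (Tr.lf c9781375)))
 (Tr.nd (nat_lit 9784375) (Tr.nd (nat_lit 9781875) (Tr.lf c9781875)
 (Tr.lf c9784375))
 (Tr.nd (nat_lit 9796875) (Tr.lf c9796875)
 (Tr.nd (nat_lit 9843751) (Tr.lf c9843751)
 (Tr.lf c9843755)))))))
 (Tr.nd (nat_lit 11718775) (Tr.nd (nat_lit 10156275) (Tr.nd (nat_lit 9846875) (Tr.nd (nat_lit 9843875) (Tr.nd (nat_lit 9843775) (Tr.lf c9843775)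
 (Tr.lf c9843875))
 (Tr.nd (nat_lit 9844375) (Tr.lf c9844375)
 (Tr.lf c9846875)))
 (Tr.nd (nat_lit 9921875) (Tr.nd (nat_lit 9859375) (Tr.lf c9859375)
 (Tr.lf c9921875))
 (Tr.nd (nat_lit 10156251) (Tr.lf c10156251)
 (Tr.nd (nat_lit 10156255) (Tr.lf c10156255)
 (Tr.lf c10156275)))))
 (Tr.nd (nat_lit 10171875) (Tr.nd (nat_lit 10156875) (Tr.nd (nat_lit 10156375) (Tr.lf c10156375)
 (Tr.lf c10156875))
 (Tr.nd (nat_lit 10159375) (Tr.lf c10159375)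
 (Tr.lf c10171875)))
 (Tr.nd (nat_lit 10546875) (Tr.nd (nat_lit 10234375) (Tr.lf c10234375)
 (Tr.lf c10546875))
 (Tr.nd (nat_lit 11718751) (Tr.lf c11718751)
 (Tr.nd (nat_lit 11718755) (Tr.lf c11718755)
 (Tr.lf c11718775))))))
 (Tr.nd (nat_lit 19531255) (Tr.nd (nat_lit 11734375) (Tr.nd (nat_lit 11719375) (Tr.nd (nat_lit 11718875) (Tr.lf c11718875)
 (Tr.lf c11719375))
 (Tr.nd (nat_lit 11721875) (Tr.lf c11721875)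
 (Tr.lf c11734375)))
 (Tr.nd (nat_lit 12109375) (Tr.nd (nat_lit 11796875) (Tr.lf c11796875)
 (Tr.lf c12109375))
 (Tr.nd (nat_lit 13671875) (Tr.lf c13671875)
 (Tr.nd (nat_lit 19531251) (Tr.lf c19531251)
 (Tr.lf c19531255)))))
 (Tr.nd (nat_lit 19534375) (Tr.nd (nat_lit 19531375) (Tr.nd (nat_lit 19531275) (Tr.lf c19531275)
 (Tr.lf c19531375))
 (Tr.nd (nat_lit 19531875) (Tr.lf c19531875)
 (Tr.lf c19534375)))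
 (Tr.nd (nat_lit 19609375) (Tr.nd (nat_lit 19546875) (Tr.lf c19546875)
 (Tr.lf c19609375))
 (Tr.nd (nat_lit 19921875) (Tr.lf c19921875)
 (Tr.nd (nat_lit 21484375) (Tr.lf c21484375)
 (Tr.lf c29296875))))))))))

end Pool.Agent.H92.Frog.K
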