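import Pool.Agent.H92.Frog.Dat.U0
import Pool.Agent.H92.Frog.Dat.U1
import Pool.Agent.H92.Frog.Dat.U2
import Pool.Agent.H92.Frog.Dat.U3

/-! Table of values (generated). -/

set_option autoImplicit false
set_option maxRecDepth 100000

namespace Pool.Agent.H92.Frog.K

/-- values of the test functions, by frame -/
def UT : Tr :=
 (Tr.nd (nat_lit 1953152) (Tr.nd (nat_lit 81280) (Tr.nd (nat_lit 10000) (Tr.nd (nat_lit 1376) (Tr.nd (nat_lit 300) (Tr.nd (nat_lit 100) (Tr.nd (nat_lit 32) (Tr.nd (nat_lit 12) (Tr.nd (nat_lit 4) (Tr.lf u4)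
 (Tr.nd (nat_lit 8) (Tr.lf u8)
 (Tr.lf u12)))
 (Tr.nd (nat_lit 20) (Tr.nd (nat_lit 16) (Tr.lf u16)
 (Tr.lf u20))
 (Tr.nd (nat_lit 28) (Tr.lf u28)
 (Tr.lf u32))))
 (Tr.nd (nat_lit 56) (Tr.nd (nat_lit 40) (Tr.nd (nat_lit 36) (Tr.lf u36)
 (Tr.lf u40))
 (Tr.nd (nat_lit 52) (Tr.lf u52)
 (Tr.lf u56)))
 (Tr.nd (nat_lit 76) (Tr.nd (nat_lit 60) (Tr.lf u60)
 (Tr.lf u76))
 (Tr.nd (nat_lit 80) (Tr.lf u80)
 (Tr.lf u100)))))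
 (Tr.nd (nat_lit 176) (Tr.nd (nat_lit 140) (Tr.nd (nat_lit 132) (Tr.nd (nat_lit 128) (Tr.lf u128)
 (Tr.lf u132))
 (Tr.nd (nat_lit 136) (Tr.lf u136)
 (Tr.lf u140)))
 (Tr.nd (nat_lit 156) (Tr.nd (nat_lit 152) (Tr.lf u152)
 (Tr.lf u156))
 (Tr.nd (nat_lit 160) (Tr.lf u160)
 (Tr.lf u176))))
 (Tr.nd (nat_lit 256) (Tr.nd (nat_lit 200) (Tr.nd (nat_lit 180) (Tr.lf u180)
 (Tr.lf u200))
 (Tr.nd (nat_lit 252) (Tr.lf u252)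
 (Tr.lf u256)))
 (Tr.nd (nat_lit 276) (Tr.nd (nat_lit 260) (Tr.lf u260)
 (Tr.lf u276))
 (Tr.nd (nat_lit 280) (Tr.lf u280)
 (Tr.lf u300))))))
 (Tr.nd (nat_lit 752) (Tr.nd (nat_lit 636) (Tr.nd (nat_lit 400) (Tr.nd (nat_lit 376) (Tr.lf u376)
 (Tr.nd (nat_lit 380) (Tr.lf u380)
 (Tr.lf u400)))
 (Tr.nd (nat_lit 628) (Tr.nd (nat_lit 500) (Tr.lf u500)
 (Tr.lf u628))
 (Tr.nd (nat_lit 632) (Tr.lf u632)
 (Tr.lf u636))))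
 (Tr.nd (nat_lit 660) (Tr.nd (nat_lit 652) (Tr.nd (nat_lit 640) (Tr.lf u640)
 (Tr.lf u652))
 (Tr.nd (nat_lit 656) (Tr.lf u656)
 (Tr.lf u660)))
 (Tr.nd (nat_lit 680) (Tr.nd (nat_lit 676) (Tr.lf u676)
 (Tr.lf u680))
 (Tr.nd (nat_lit 700) (Tr.lf u700)
 (Tr.lf u752)))))
 (Tr.nd (nat_lit 900) (Tr.nd (nat_lit 780) (Tr.nd (nat_lit 760) (Tr.nd (nat_lit 756) (Tr.lf u756)
 (Tr.lf u760))
 (Tr.nd (nat_lit 776) (Tr.lf u776)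
 (Tr.lf u780)))
 (Tr.nd (nat_lit 876) (Tr.nd (nat_lit 800) (Tr.lf u800)
 (Tr.lf u876))
 (Tr.nd (nat_lit 880) (Tr.lf u880)
 (Tr.lf u900))))
 (Tr.nd (nat_lit 1260) (Tr.nd (nat_lit 1252) (Tr.nd (nat_lit 1000) (Tr.lf u1000)
 (Tr.lf u1252))
 (Tr.nd (nat_lit 1256) (Tr.lf u1256)
 (Tr.lf u1260)))
 (Tr.nd (nat_lit 1280) (Tr.nd (nat_lit 1276) (Tr.lf u1276)
 (Tr.lf u1280))
 (Tr.nd (nat_lit 1300) (Tr.lf u1300)
 (Tr.lf u1376)))))))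
 (Tr.nd (nat_lit 3760) (Tr.nd (nat_lit 3160) (Tr.nd (nat_lit 2000) (Tr.nd (nat_lit 1500) (Tr.nd (nat_lit 1380) (Tr.lf u1380)
 (Tr.nd (nat_lit 1400) (Tr.lf u1400)
 (Tr.lf u1500)))
 (Tr.nd (nat_lit 1880) (Tr.nd (nat_lit 1876) (Tr.lf u1876)
 (Tr.lf u1880))
 (Tr.nd (nat_lit 1900) (Tr.lf u1900)
 (Tr.lf u2000))))
 (Tr.nd (nat_lit 3136) (Tr.nd (nat_lit 3128) (Tr.nd (nat_lit 2500) (Tr.lf u2500)
 (Tr.lf u3128))
 (Tr.nd (nat_lit 3132) (Tr.lf u3132)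
 (Tr.lf u3136)))
 (Tr.nd (nat_lit 3152) (Tr.nd (nat_lit 3140) (Tr.lf u3140)
 (Tr.lf u3152))
 (Tr.nd (nat_lit 3156) (Tr.lf u3156)
 (Tr.lf u3160)))))
 (Tr.nd (nat_lit 3280) (Tr.nd (nat_lit 3252) (Tr.nd (nat_lit 3180) (Tr.nd (nat_lit 3176) (Tr.lf u3176)
 (Tr.lf u3180))
 (Tr.nd (nat_lit 3200) (Tr.lf u3200)
 (Tr.lf u3252)))
 (Tr.nd (nat_lit 3260) (Tr.nd (nat_lit 3256) (Tr.lf u3256)
 (Tr.lf u3260))
 (Tr.nd (nat_lit 3276) (Tr.lf u3276)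
 (Tr.lf u3280))))
 (Tr.nd (nat_lit 3400) (Tr.nd (nat_lit 3376) (Tr.nd (nat_lit 3300) (Tr.lf u3300)
 (Tr.lf u3376))
 (Tr.nd (nat_lit 3380) (Tr.lf u3380)
 (Tr.lf u3400)))
 (Tr.nd (nat_lit 3752) (Tr.nd (nat_lit 3500) (Tr.lf u3500)
 (Tr.lf u3752))
 (Tr.nd (nat_lit 3756) (Tr.lf u3756)
 (Tr.lf u3760))))))
 (Tr.nd (nat_lit 6276) (Tr.nd (nat_lit 4376) (Tr.nd (nat_lit 3876) (Tr.nd (nat_lit 3780) (Tr.nd (nat_lit 3776) (Tr.lf u3776)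
 (Tr.lf u3780))
 (Tr.nd (nat_lit 3800) (Tr.lf u3800)
 (Tr.lf u3876)))
 (Tr.nd (nat_lit 3900) (Tr.nd (nat_lit 3880) (Tr.lf u3880)
 (Tr.lf u3900))
 (Tr.nd (nat_lit 4000) (Tr.lf u4000)
 (Tr.lf u4376))))
 (Tr.nd (nat_lit 5000) (Tr.nd (nat_lit 4400) (Tr.nd (nat_lit 4380) (Tr.lf u4380)
 (Tr.lf u4400))
 (Tr.nd (nat_lit 4500) (Tr.lf u4500)
 (Tr.lf u5000)))
 (Tr.nd (nat_lit 6256) (Tr.nd (nat_lit 6252) (Tr.lf u6252)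
 (Tr.lf u6256))
 (Tr.nd (nat_lit 6260) (Tr.lf u6260)
 (Tr.lf u6276)))))
 (Tr.nd (nat_lit 6880) (Tr.nd (nat_lit 6380) (Tr.nd (nat_lit 6300) (Tr.nd (nat_lit 6280) (Tr.lf u6280)
 (Tr.lf u6300))
 (Tr.nd (nat_lit 6376) (Tr.lf u6376)
 (Tr.lf u6380)))
 (Tr.nd (nat_lit 6500) (Tr.nd (nat_lit 6400) (Tr.lf u6400)
 (Tr.lf u6500))
 (Tr.nd (nat_lit 6876) (Tr.lf u6876)
 (Tr.lf u6880))))
 (Tr.nd (nat_lit 9376) (Tr.nd (nat_lit 7000) (Tr.nd (nat_lit 6900) (Tr.lf u6900)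
 (Tr.lf u7000))
 (Tr.nd (nat_lit 7500) (Tr.lf u7500)
 (Tr.lf u9376)))
 (Tr.nd (nat_lit 9400) (Tr.nd (nat_lit 9380) (Tr.lf u9380)
 (Tr.lf u9400))
 (Tr.nd (nat_lit 9500) (Tr.lf u9500)
 (Tr.lf u10000))))))))
 (Tr.nd (nat_lit 31280) (Tr.nd (nat_lit 16500) (Tr.nd (nat_lit 15776) (Tr.nd (nat_lit 15656) (Tr.nd (nat_lit 15632) (Tr.nd (nat_lit 12500) (Tr.lf u12500)
 (Tr.nd (nat_lit 15628) (Tr.lf u15628)
 (Tr.lf u15632)))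
 (Tr.nd (nat_lit 15640) (Tr.nd (nat_lit 15636) (Tr.lf u15636)
 (Tr.lf u15640))
 (Tr.nd (nat_lit 15652) (Tr.lf u15652)
 (Tr.lf u15656))))
 (Tr.nd (nat_lit 15700) (Tr.nd (nat_lit 15676) (Tr.nd (nat_lit 15660) (Tr.lf u15660)
 (Tr.lf u15676))
 (Tr.nd (nat_lit 15680) (Tr.lf u15680)
 (Tr.lf u15700)))
 (Tr.nd (nat_lit 15756) (Tr.nd (nat_lit 15752) (Tr.lf u15752)
 (Tr.lf u15756))
 (Tr.nd (nat_lit 15760) (Tr.lf u15760)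
 (Tr.lf u15776)))))
 (Tr.nd (nat_lit 16256) (Tr.nd (nat_lit 15880) (Tr.nd (nat_lit 15800) (Tr.nd (nat_lit 15780) (Tr.lf u15780)
 (Tr.lf u15800))
 (Tr.nd (nat_lit 15876) (Tr.lf u15876)
 (Tr.lf u15880)))
 (Tr.nd (nat_lit 16000) (Tr.nd (nat_lit 15900) (Tr.lf u15900)
 (Tr.lf u16000))
 (Tr.nd (nat_lit 16252) (Tr.lf u16252)
 (Tr.lf u16256))))
 (Tr.nd (nat_lit 16300) (Tr.nd (nat_lit 16276) (Tr.nd (nat_lit 16260) (Tr.lf u16260)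
 (Tr.lf u16276))
 (Tr.nd (nat_lit 16280) (Tr.lf u16280)
 (Tr.lf u16300)))
 (Tr.nd (nat_lit 16380) (Tr.nd (nat_lit 16376) (Tr.lf u16376)
 (Tr.lf u16380))
 (Tr.nd (nat_lit 16400) (Tr.lf u16400)
 (Tr.lf u16500))))))
 (Tr.nd (nat_lit 19000) (Tr.nd (nat_lit 18756) (Tr.nd (nat_lit 16900) (Tr.nd (nat_lit 16876) (Tr.lf u16876)
 (Tr.nd (nat_lit 16880) (Tr.lf u16880)
 (Tr.lf u16900)))
 (Tr.nd (nat_lit 17500) (Tr.nd (nat_lit 17000) (Tr.lf u17000)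
 (Tr.lf u17500))
 (Tr.nd (nat_lit 18752) (Tr.lf u18752)
 (Tr.lf u18756))))
 (Tr.nd (nat_lit 18800) (Tr.nd (nat_lit 18776) (Tr.nd (nat_lit 18760) (Tr.lf u18760)
 (Tr.lf u18776))
 (Tr.nd (nat_lit 18780) (Tr.lf u18780)
 (Tr.lf u18800)))
 (Tr.nd (nat_lit 18880) (Tr.nd (nat_lit 18876) (Tr.lf u18876)
 (Tr.lf u18880))
 (Tr.nd (nat_lit 18900) (Tr.lf u18900)
 (Tr.lf u19000)))))
 (Tr.nd (nat_lit 21900) (Tr.nd (nat_lit 19500) (Tr.nd (nat_lit 19380) (Tr.nd (nat_lit 19376) (Tr.lf u19376)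
 (Tr.lf u19380))
 (Tr.nd (nat_lit 19400) (Tr.lf u19400)
 (Tr.lf u19500)))
 (Tr.nd (nat_lit 21876) (Tr.nd (nat_lit 20000) (Tr.lf u20000)
 (Tr.lf u21876))
 (Tr.nd (nat_lit 21880) (Tr.lf u21880)
 (Tr.lf u21900))))
 (Tr.nd (nat_lit 31252) (Tr.nd (nat_lit 22500) (Tr.nd (nat_lit 22000) (Tr.lf u22000)
 (Tr.lf u22500))
 (Tr.nd (nat_lit 25000) (Tr.lf u25000)
 (Tr.lf u31252)))
 (Tr.nd (nat_lit 31260) (Tr.nd (nat_lit 31256) (Tr.lf u31256)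
 (Tr.lf u31260))
 (Tr.nd (nat_lit 31276) (Tr.lf u31276)
 (Tr.lf u31280)))))))
 (Tr.nd (nat_lit 78176) (Tr.nd (nat_lit 35000) (Tr.nd (nat_lit 31880) (Tr.nd (nat_lit 31380) (Tr.nd (nat_lit 31300) (Tr.lf u31300)
 (Tr.nd (nat_lit 31376) (Tr.lf u31376)
 (Tr.lf u31380)))
 (Tr.nd (nat_lit 31500) (Tr.nd (nat_lit 31400) (Tr.lf u31400)
 (Tr.lf u31500))
 (Tr.nd (nat_lit 31876) (Tr.lf u31876)
 (Tr.lf u31880))))
 (Tr.nd (nat_lit 34376) (Tr.nd (nat_lit 32000) (Tr.nd (nat_lit 31900) (Tr.lf u31900)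
 (Tr.lf u32000))
 (Tr.nd (nat_lit 32500) (Tr.lf u32500)
 (Tr.lf u34376)))
 (Tr.nd (nat_lit 34400) (Tr.nd (nat_lit 34380) (Tr.lf u34380)
 (Tr.lf u34400))
 (Tr.nd (nat_lit 34500) (Tr.lf u34500)
 (Tr.lf u35000)))))
 (Tr.nd (nat_lit 62500) (Tr.nd (nat_lit 46900) (Tr.nd (nat_lit 46876) (Tr.nd (nat_lit 37500) (Tr.lf u37500)
 (Tr.lf u46876))
 (Tr.nd (nat_lit 46880) (Tr.lf u46880)
 (Tr.lf u46900)))
 (Tr.nd (nat_lit 47500) (Tr.nd (nat_lit 47000) (Tr.lf u47000)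
 (Tr.lf u47500))
 (Tr.nd (nat_lit 50000) (Tr.lf u50000)
 (Tr.lf u62500))))
 (Tr.nd (nat_lit 78140) (Tr.nd (nat_lit 78132) (Tr.nd (nat_lit 78128) (Tr.lf u78128)
 (Tr.lf u78132))
 (Tr.nd (nat_lit 78136) (Tr.lf u78136)
 (Tr.lf u78140)))
 (Tr.nd (nat_lit 78156) (Tr.nd (nat_lit 78152) (Tr.lf u78152)
 (Tr.lf u78156))
 (Tr.nd (nat_lit 78160) (Tr.lf u78160)
 (Tr.lf u78176))))))
 (Tr.nd (nat_lit 78776) (Tr.nd (nat_lit 78300) (Tr.nd (nat_lit 78256) (Tr.nd (nat_lit 78200) (Tr.nd (nat_lit 78180) (Tr.lf u78180)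
 (Tr.lf u78200))
 (Tr.nd (nat_lit 78252) (Tr.lf u78252)
 (Tr.lf u78256)))
 (Tr.nd (nat_lit 78276) (Tr.nd (nat_lit 78260) (Tr.lf u78260)
 (Tr.lf u78276))
 (Tr.nd (nat_lit 78280) (Tr.lf u78280)
 (Tr.lf u78300))))
 (Tr.nd (nat_lit 78500) (Tr.nd (nat_lit 78380) (Tr.nd (nat_lit 78376) (Tr.lf u78376)
 (Tr.lf u78380))
 (Tr.nd (nat_lit 78400) (Tr.lf u78400)
 (Tr.lf u78500)))
 (Tr.nd (nat_lit 78756) (Tr.nd (nat_lit 78752) (Tr.lf u78752)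
 (Tr.lf u78756))
 (Tr.nd (nat_lit 78760) (Tr.lf u78760)
 (Tr.lf u78776)))))
 (Tr.nd (nat_lit 79380) (Tr.nd (nat_lit 78880) (Tr.nd (nat_lit 78800) (Tr.nd (nat_lit 78780) (Tr.lf u78780)
 (Tr.lf u78800))
 (Tr.nd (nat_lit 78876) (Tr.lf u78876)
 (Tr.lf u78880)))
 (Tr.nd (nat_lit 79000) (Tr.nd (nat_lit 78900) (Tr.lf u78900)
 (Tr.lf u79000))
 (Tr.nd (nat_lit 79376) (Tr.lf u79376)
 (Tr.lf u79380))))
 (Tr.nd (nat_lit 81252) (Tr.nd (nat_lit 79500) (Tr.nd (nat_lit 79400) (Tr.lf u79400)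
 (Tr.lf u79500))
 (Tr.nd (nat_lit 80000) (Tr.lf u80000)
 (Tr.lf u81252)))
 (Tr.nd (nat_lit 81260) (Tr.nd (nat_lit 81256) (Tr.lf u81256)
 (Tr.lf u81260))
 (Tr.nd (nat_lit 81276) (Tr.lf u81276)
 (Tr.lf u81280)))))))))
 (Tr.nd (nat_lit 394000) (Tr.nd (nat_lit 159400) (Tr.nd (nat_lit 95000) (Tr.nd (nat_lit 85000) (Tr.nd (nat_lit 81880) (Tr.nd (nat_lit 81380) (Tr.nd (nat_lit 81300) (Tr.lf u81300)
 (Tr.nd (nat_lit 81376) (Tr.lf u81376)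
 (Tr.lf u81380)))
 (Tr.nd (nat_lit 81500) (Tr.nd (nat_lit 81400) (Tr.lf u81400)
 (Tr.lf u81500))
 (Tr.nd (nat_lit 81876) (Tr.lf u81876)
 (Tr.lf u81880))))
 (Tr.nd (nat_lit 84376) (Tr.nd (nat_lit 82000) (Tr.nd (nat_lit 81900) (Tr.lf u81900)
 (Tr.lf u82000))
 (Tr.nd (nat_lit 82500) (Tr.lf u82500)
 (Tr.lf u84376)))
 (Tr.nd (nat_lit 84400) (Tr.nd (nat_lit 84380) (Tr.lf u84380)
 (Tr.lf u84400))
 (Tr.nd (nat_lit 84500) (Tr.lf u84500)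
 (Tr.lf u85000)))))
 (Tr.nd (nat_lit 93876) (Tr.nd (nat_lit 93760) (Tr.nd (nat_lit 93752) (Tr.nd (nat_lit 87500) (Tr.lf u87500)
 (Tr.lf u93752))
 (Tr.nd (nat_lit 93756) (Tr.lf u93756)
 (Tr.lf u93760)))
 (Tr.nd (nat_lit 93780) (Tr.nd (nat_lit 93776) (Tr.lf u93776)
 (Tr.lf u93780))
 (Tr.nd (nat_lit 93800) (Tr.lf u93800)
 (Tr.lf u93876))))
 (Tr.nd (nat_lit 94376) (Tr.nd (nat_lit 93900) (Tr.nd (nat_lit 93880) (Tr.lf u93880)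
 (Tr.lf u93900))
 (Tr.nd (nat_lit 94000) (Tr.lf u94000)
 (Tr.lf u94376)))
 (Tr.nd (nat_lit 94400) (Tr.nd (nat_lit 94380) (Tr.lf u94380)
 (Tr.lf u94400))
 (Tr.nd (nat_lit 94500) (Tr.lf u94500)
 (Tr.lf u95000))))))
 (Tr.nd (nat_lit 156256) (Tr.nd (nat_lit 109376) (Tr.nd (nat_lit 96900) (Tr.nd (nat_lit 96876) (Tr.lf u96876)
 (Tr.nd (nat_lit 96880) (Tr.lf u96880)
 (Tr.lf u96900)))
 (Tr.nd (nat_lit 97500) (Tr.nd (nat_lit 97000) (Tr.lf u97000)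
 (Tr.lf u97500))
 (Tr.nd (nat_lit 100000) (Tr.lf u100000)
 (Tr.lf u109376))))
 (Tr.nd (nat_lit 110000) (Tr.nd (nat_lit 109400) (Tr.nd (nat_lit 109380) (Tr.lf u109380)
 (Tr.lf u109400))
 (Tr.nd (nat_lit 109500) (Tr.lf u109500)
 (Tr.lf u110000)))
 (Tr.nd (nat_lit 125000) (Tr.nd (nat_lit 112500) (Tr.lf u112500)
 (Tr.lf u125000))
 (Tr.nd (nat_lit 156252) (Tr.lf u156252)
 (Tr.lf u156256)))))
 (Tr.nd (nat_lit 156500) (Tr.nd (nat_lit 156300) (Tr.nd (nat_lit 156276) (Tr.nd (nat_lit 156260) (Tr.lf u156260)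
 (Tr.lf u156276))
 (Tr.nd (nat_lit 156280) (Tr.lf u156280)
 (Tr.lf u156300)))
 (Tr.nd (nat_lit 156380) (Tr.nd (nat_lit 156376) (Tr.lf u156376)
 (Tr.lf u156380))
 (Tr.nd (nat_lit 156400) (Tr.lf u156400)
 (Tr.lf u156500))))
 (Tr.nd (nat_lit 157000) (Tr.nd (nat_lit 156880) (Tr.nd (nat_lit 156876) (Tr.lf u156876)
 (Tr.lf u156880))
 (Tr.nd (nat_lit 156900) (Tr.lf u156900)
 (Tr.lf u157000)))
 (Tr.nd (nat_lit 159376) (Tr.nd (nat_lit 157500) (Tr.lf u157500)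
 (Tr.lf u159376))
 (Tr.nd (nat_lit 159380) (Tr.lf u159380)
 (Tr.lf u159400)))))))
 (Tr.nd (nat_lit 390760) (Tr.nd (nat_lit 235000) (Tr.nd (nat_lit 172000) (Tr.nd (nat_lit 162500) (Tr.nd (nat_lit 159500) (Tr.lf u159500)
 (Tr.nd (nat_lit 160000) (Tr.lf u160000)
 (Tr.lf u162500)))
 (Tr.nd (nat_lit 171880) (Tr.nd (nat_lit 171876) (Tr.lf u171876)
 (Tr.lf u171880))
 (Tr.nd (nat_lit 171900) (Tr.lf u171900)
 (Tr.lf u172000))))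
 (Tr.nd (nat_lit 234376) (Tr.nd (nat_lit 175000) (Tr.nd (nat_lit 172500) (Tr.lf u172500)
 (Tr.lf u175000))
 (Tr.nd (nat_lit 187500) (Tr.lf u187500)
 (Tr.lf u234376)))
 (Tr.nd (nat_lit 234400) (Tr.nd (nat_lit 234380) (Tr.lf u234380)
 (Tr.lf u234400))
 (Tr.nd (nat_lit 234500) (Tr.lf u234500)
 (Tr.lf u235000)))))
 (Tr.nd (nat_lit 390652) (Tr.nd (nat_lit 390628) (Tr.nd (nat_lit 250000) (Tr.nd (nat_lit 237500) (Tr.lf u237500)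
 (Tr.lf u250000))
 (Tr.nd (nat_lit 312500) (Tr.lf u312500)
 (Tr.lf u390628)))
 (Tr.nd (nat_lit 390636) (Tr.nd (nat_lit 390632) (Tr.lf u390632)
 (Tr.lf u390636))
 (Tr.nd (nat_lit 390640) (Tr.lf u390640)
 (Tr.lf u390652))))
 (Tr.nd (nat_lit 390680) (Tr.nd (nat_lit 390660) (Tr.nd (nat_lit 390656) (Tr.lf u390656)
 (Tr.lf u390660))
 (Tr.nd (nat_lit 390676) (Tr.lf u390676)
 (Tr.lf u390680)))
 (Tr.nd (nat_lit 390752) (Tr.nd (nat_lit 390700) (Tr.lf u390700)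
 (Tr.lf u390752))
 (Tr.nd (nat_lit 390756) (Tr.lf u390756)
 (Tr.lf u390760))))))
 (Tr.nd (nat_lit 391400) (Tr.nd (nat_lit 391252) (Tr.nd (nat_lit 390876) (Tr.nd (nat_lit 390780) (Tr.nd (nat_lit 390776) (Tr.lf u390776)
 (Tr.lf u390780))
 (Tr.nd (nat_lit 390800) (Tr.lf u390800)
 (Tr.lf u390876)))
 (Tr.nd (nat_lit 390900) (Tr.nd (nat_lit 390880) (Tr.lf u390880)
 (Tr.lf u390900))
 (Tr.nd (nat_lit 391000) (Tr.lf u391000)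
 (Tr.lf u391252))))
 (Tr.nd (nat_lit 391280) (Tr.nd (nat_lit 391260) (Tr.nd (nat_lit 391256) (Tr.lf u391256)
 (Tr.lf u391260))
 (Tr.nd (nat_lit 391276) (Tr.lf u391276)
 (Tr.lf u391280)))
 (Tr.nd (nat_lit 391376) (Tr.nd (nat_lit 391300) (Tr.lf u391300)
 (Tr.lf u391376))
 (Tr.nd (nat_lit 391380) (Tr.lf u391380)
 (Tr.lf u391400)))))
 (Tr.nd (nat_lit 393756) (Tr.nd (nat_lit 391900) (Tr.nd (nat_lit 391876) (Tr.nd (nat_lit 391500) (Tr.lf u391500)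
 (Tr.lf u391876))
 (Tr.nd (nat_lit 391880) (Tr.lf u391880)
 (Tr.lf u391900)))
 (Tr.nd (nat_lit 392500) (Tr.nd (nat_lit 392000) (Tr.lf u392000)
 (Tr.lf u392500))
 (Tr.nd (nat_lit 393752) (Tr.lf u393752)
 (Tr.lf u393756))))
 (Tr.nd (nat_lit 393800) (Tr.nd (nat_lit 393776) (Tr.nd (nat_lit 393760) (Tr.lf u393760)
 (Tr.lf u393776))
 (Tr.nd (nat_lit 393780) (Tr.lf u393780)
 (Tr.lf u393800)))
 (Tr.nd (nat_lit 393880) (Tr.nd (nat_lit 393876) (Tr.lf u393876)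
 (Tr.lf u393880))
 (Tr.nd (nat_lit 393900) (Tr.lf u393900)
 (Tr.lf u394000))))))))
 (Tr.nd (nat_lit 484380) (Tr.nd (nat_lit 410000) (Tr.nd (nat_lit 406276) (Tr.nd (nat_lit 396880) (Tr.nd (nat_lit 394400) (Tr.nd (nat_lit 394376) (Tr.lf u394376)
 (Tr.nd (nat_lit 394380) (Tr.lf u394380)
 (Tr.lf u394400)))
 (Tr.nd (nat_lit 395000) (Tr.nd (nat_lit 394500) (Tr.lf u394500)
 (Tr.lf u395000))
 (Tr.nd (nat_lit 396876) (Tr.lf u396876)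
 (Tr.lf u396880))))
 (Tr.nd (nat_lit 400000) (Tr.nd (nat_lit 397000) (Tr.nd (nat_lit 396900) (Tr.lf u396900)
 (Tr.lf u397000))
 (Tr.nd (nat_lit 397500) (Tr.lf u397500)
 (Tr.lf u400000)))
 (Tr.nd (nat_lit 406256) (Tr.nd (nat_lit 406252) (Tr.lf u406252)
 (Tr.lf u406256))
 (Tr.nd (nat_lit 406260) (Tr.lf u406260)
 (Tr.lf u406276)))))
 (Tr.nd (nat_lit 406880) (Tr.nd (nat_lit 406380) (Tr.nd (nat_lit 406300) (Tr.nd (nat_lit 406280) (Tr.lf u406280)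
 (Tr.lf u406300))
 (Tr.nd (nat_lit 406376) (Tr.lf u406376)
 (Tr.lf u406380)))
 (Tr.nd (nat_lit 406500) (Tr.nd (nat_lit 406400) (Tr.lf u406400)
 (Tr.lf u406500))
 (Tr.nd (nat_lit 406876) (Tr.lf u406876)
 (Tr.lf u406880))))
 (Tr.nd (nat_lit 409376) (Tr.nd (nat_lit 407000) (Tr.nd (nat_lit 406900) (Tr.lf u406900)
 (Tr.lf u407000))
 (Tr.nd (nat_lit 407500) (Tr.lf u407500)
 (Tr.lf u409376)))
 (Tr.nd (nat_lit 409400) (Tr.nd (nat_lit 409380) (Tr.lf u409380)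
 (Tr.lf u409400))
 (Tr.nd (nat_lit 409500) (Tr.lf u409500)
 (Tr.lf u410000))))))
 (Tr.nd (nat_lit 468876) (Tr.nd (nat_lit 425000) (Tr.nd (nat_lit 421880) (Tr.nd (nat_lit 412500) (Tr.lf u412500)
 (Tr.nd (nat_lit 421876) (Tr.lf u421876)
 (Tr.lf u421880)))
 (Tr.nd (nat_lit 422000) (Tr.nd (nat_lit 421900) (Tr.lf u421900)
 (Tr.lf u422000))
 (Tr.nd (nat_lit 422500) (Tr.lf u422500)
 (Tr.lf u425000))))
 (Tr.nd (nat_lit 468760) (Tr.nd (nat_lit 468752) (Tr.nd (nat_lit 437500) (Tr.lf u437500)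
 (Tr.lf u468752))
 (Tr.nd (nat_lit 468756) (Tr.lf u468756)
 (Tr.lf u468760)))
 (Tr.nd (nat_lit 468780) (Tr.nd (nat_lit 468776) (Tr.lf u468776)
 (Tr.lf u468780))
 (Tr.nd (nat_lit 468800) (Tr.lf u468800)
 (Tr.lf u468876)))))
 (Tr.nd (nat_lit 470000) (Tr.nd (nat_lit 469376) (Tr.nd (nat_lit 468900) (Tr.nd (nat_lit 468880) (Tr.lf u468880)
 (Tr.lf u468900))
 (Tr.nd (nat_lit 469000) (Tr.lf u469000)
 (Tr.lf u469376)))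
 (Tr.nd (nat_lit 469400) (Tr.nd (nat_lit 469380) (Tr.lf u469380)
 (Tr.lf u469400))
 (Tr.nd (nat_lit 469500) (Tr.lf u469500)
 (Tr.lf u470000))))
 (Tr.nd (nat_lit 472000) (Tr.nd (nat_lit 471880) (Tr.nd (nat_lit 471876) (Tr.lf u471876)
 (Tr.lf u471880))
 (Tr.nd (nat_lit 471900) (Tr.lf u471900)
 (Tr.lf u472000)))
 (Tr.nd (nat_lit 475000) (Tr.nd (nat_lit 472500) (Tr.lf u472500)
 (Tr.lf u475000))
 (Tr.nd (nat_lit 484376) (Tr.lf u484376)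
 (Tr.lf u484380)))))))
 (Tr.nd (nat_lit 784400) (Tr.nd (nat_lit 781256) (Tr.nd (nat_lit 546880) (Tr.nd (nat_lit 485000) (Tr.nd (nat_lit 484400) (Tr.lf u484400)
 (Tr.nd (nat_lit 484500) (Tr.lf u484500)
 (Tr.lf u485000)))
 (Tr.nd (nat_lit 500000) (Tr.nd (nat_lit 487500) (Tr.lf u487500)
 (Tr.lf u500000))
 (Tr.nd (nat_lit 546876) (Tr.lf u546876)
 (Tr.lf u546880))))
 (Tr.nd (nat_lit 550000) (Tr.nd (nat_lit 547000) (Tr.nd (nat_lit 546900) (Tr.lf u546900)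
 (Tr.lf u547000))
 (Tr.nd (nat_lit 547500) (Tr.lf u547500)
 (Tr.lf u550000)))
 (Tr.nd (nat_lit 625000) (Tr.nd (nat_lit 562500) (Tr.lf u562500)
 (Tr.lf u625000))
 (Tr.nd (nat_lit 781252) (Tr.lf u781252)
 (Tr.lf u781256)))))
 (Tr.nd (nat_lit 781500) (Tr.nd (nat_lit 781300) (Tr.nd (nat_lit 781276) (Tr.nd (nat_lit 781260) (Tr.lf u781260)
 (Tr.lf u781276))
 (Tr.nd (nat_lit 781280) (Tr.lf u781280)
 (Tr.lf u781300)))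
 (Tr.nd (nat_lit 781380) (Tr.nd (nat_lit 781376) (Tr.lf u781376)
 (Tr.lf u781380))
 (Tr.nd (nat_lit 781400) (Tr.lf u781400)
 (Tr.lf u781500))))
 (Tr.nd (nat_lit 782000) (Tr.nd (nat_lit 781880) (Tr.nd (nat_lit 781876) (Tr.lf u781876)
 (Tr.lf u781880))
 (Tr.nd (nat_lit 781900) (Tr.lf u781900)
 (Tr.lf u782000)))
 (Tr.nd (nat_lit 784376) (Tr.nd (nat_lit 782500) (Tr.lf u782500)
 (Tr.lf u784376))
 (Tr.nd (nat_lit 784380) (Tr.lf u784380)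
 (Tr.lf u784400))))))
 (Tr.nd (nat_lit 862500) (Tr.nd (nat_lit 797500) (Tr.nd (nat_lit 796876) (Tr.nd (nat_lit 785000) (Tr.nd (nat_lit 784500) (Tr.lf u784500)
 (Tr.lf u785000))
 (Tr.nd (nat_lit 787500) (Tr.lf u787500)
 (Tr.lf u796876)))
 (Tr.nd (nat_lit 796900) (Tr.nd (nat_lit 796880) (Tr.lf u796880)
 (Tr.lf u796900))
 (Tr.nd (nat_lit 797000) (Tr.lf u797000)
 (Tr.lf u797500))))
 (Tr.nd (nat_lit 859380) (Tr.nd (nat_lit 812500) (Tr.nd (nat_lit 800000) (Tr.lf u800000)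
 (Tr.lf u812500))
 (Tr.nd (nat_lit 859376) (Tr.lf u859376)
 (Tr.lf u859380)))
 (Tr.nd (nat_lit 859500) (Tr.nd (nat_lit 859400) (Tr.lf u859400)
 (Tr.lf u859500))
 (Tr.nd (nat_lit 860000) (Tr.lf u860000)
 (Tr.lf u862500)))))
 (Tr.nd (nat_lit 1175000) (Tr.nd (nat_lit 1171880) (Tr.nd (nat_lit 937500) (Tr.nd (nat_lit 875000) (Tr.lf u875000)
 (Tr.lf u937500))
 (Tr.nd (nat_lit 1171876) (Tr.lf u1171876)
 (Tr.lf u1171880)))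
 (Tr.nd (nat_lit 1172000) (Tr.nd (nat_lit 1171900) (Tr.lf u1171900)
 (Tr.lf u1172000))
 (Tr.nd (nat_lit 1172500) (Tr.lf u1172500)
 (Tr.lf u1175000))))
 (Tr.nd (nat_lit 1953128) (Tr.nd (nat_lit 1250000) (Tr.nd (nat_lit 1187500) (Tr.lf u1187500)
 (Tr.lf u1250000))
 (Tr.nd (nat_lit 1562500) (Tr.lf u1562500)
 (Tr.lf u1953128)))
 (Tr.nd (nat_lit 1953136) (Tr.nd (nat_lit 1953132) (Tr.lf u1953132)
 (Tr.lf u1953136))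
 (Tr.nd (nat_lit 1953140) (Tr.lf u1953140)
 (Tr.lf u1953152))))))))))
 (Tr.nd (nat_lit 9767500) (Tr.nd (nat_lit 2344000) (Tr.nd (nat_lit 1969376) (Tr.nd (nat_lit 1956252) (Tr.nd (nat_lit 1953500) (Tr.nd (nat_lit 1953256) (Tr.nd (nat_lit 1953176) (Tr.nd (nat_lit 1953156) (Tr.lf u1953156)
 (Tr.nd (nat_lit 1953160) (Tr.lf u1953160)
 (Tr.lf u1953176)))
 (Tr.nd (nat_lit 1953200) (Tr.nd (nat_lit 1953180) (Tr.lf u1953180)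
 (Tr.lf u1953200))
 (Tr.nd (nat_lit 1953252) (Tr.lf u1953252)
 (Tr.lf u1953256))))
 (Tr.nd (nat_lit 1953300) (Tr.nd (nat_lit 1953276) (Tr.nd (nat_lit 1953260) (Tr.lf u1953260)
 (Tr.lf u1953276))
 (Tr.nd (nat_lit 1953280) (Tr.lf u1953280)
 (Tr.lf u1953300)))
 (Tr.nd (nat_lit 1953380) (Tr.nd (nat_lit 1953376) (Tr.lf u1953376)
 (Tr.lf u1953380))
 (Tr.nd (nat_lit 1953400) (Tr.lf u1953400)
 (Tr.lf u1953500)))))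
 (Tr.nd (nat_lit 1953880) (Tr.nd (nat_lit 1953776) (Tr.nd (nat_lit 1953756) (Tr.nd (nat_lit 1953752) (Tr.lf u1953752)
 (Tr.lf u1953756))
 (Tr.nd (nat_lit 1953760) (Tr.lf u1953760)
 (Tr.lf u1953776)))
 (Tr.nd (nat_lit 1953800) (Tr.nd (nat_lit 1953780) (Tr.lf u1953780)
 (Tr.lf u1953800))
 (Tr.nd (nat_lit 1953876) (Tr.lf u1953876)
 (Tr.lf u1953880))))
 (Tr.nd (nat_lit 1954380) (Tr.nd (nat_lit 1954000) (Tr.nd (nat_lit 1953900) (Tr.lf u1953900)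
 (Tr.lf u1954000))
 (Tr.nd (nat_lit 1954376) (Tr.lf u1954376)
 (Tr.lf u1954380)))
 (Tr.nd (nat_lit 1954500) (Tr.nd (nat_lit 1954400) (Tr.lf u1954400)
 (Tr.lf u1954500))
 (Tr.nd (nat_lit 1955000) (Tr.lf u1955000)
 (Tr.lf u1956252))))))
 (Tr.nd (nat_lit 1959376) (Tr.nd (nat_lit 1956380) (Tr.nd (nat_lit 1956276) (Tr.nd (nat_lit 1956256) (Tr.lf u1956256)
 (Tr.nd (nat_lit 1956260) (Tr.lf u1956260)
 (Tr.lf u1956276)))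
 (Tr.nd (nat_lit 1956300) (Tr.nd (nat_lit 1956280) (Tr.lf u1956280)
 (Tr.lf u1956300))
 (Tr.nd (nat_lit 1956376) (Tr.lf u1956376)
 (Tr.lf u1956380))))
 (Tr.nd (nat_lit 1956880) (Tr.nd (nat_lit 1956500) (Tr.nd (nat_lit 1956400) (Tr.lf u1956400)
 (Tr.lf u1956500))
 (Tr.nd (nat_lit 1956876) (Tr.lf u1956876)
 (Tr.lf u1956880)))
 (Tr.nd (nat_lit 1957000) (Tr.nd (nat_lit 1956900) (Tr.lf u1956900)
 (Tr.lf u1957000))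
 (Tr.nd (nat_lit 1957500) (Tr.lf u1957500)
 (Tr.lf u1959376)))))
 (Tr.nd (nat_lit 1968760) (Tr.nd (nat_lit 1960000) (Tr.nd (nat_lit 1959400) (Tr.nd (nat_lit 1959380) (Tr.lf u1959380)
 (Tr.lf u1959400))
 (Tr.nd (nat_lit 1959500) (Tr.lf u1959500)
 (Tr.lf u1960000)))
 (Tr.nd (nat_lit 1968752) (Tr.nd (nat_lit 1962500) (Tr.lf u1962500)
 (Tr.lf u1968752))
 (Tr.nd (nat_lit 1968756) (Tr.lf u1968756)
 (Tr.lf u1968760))))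
 (Tr.nd (nat_lit 1968876) (Tr.nd (nat_lit 1968780) (Tr.nd (nat_lit 1968776) (Tr.lf u1968776)
 (Tr.lf u1968780))
 (Tr.nd (nat_lit 1968800) (Tr.lf u1968800)
 (Tr.lf u1968876)))
 (Tr.nd (nat_lit 1968900) (Tr.nd (nat_lit 1968880) (Tr.lf u1968880)
 (Tr.lf u1968900))
 (Tr.nd (nat_lit 1969000) (Tr.lf u1969000)
 (Tr.lf u1969376)))))))
 (Tr.nd (nat_lit 2032000) (Tr.nd (nat_lit 1985000) (Tr.nd (nat_lit 1971900) (Tr.nd (nat_lit 1969500) (Tr.nd (nat_lit 1969380) (Tr.lf u1969380)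
 (Tr.nd (nat_lit 1969400) (Tr.lf u1969400)
 (Tr.lf u1969500)))
 (Tr.nd (nat_lit 1971876) (Tr.nd (nat_lit 1970000) (Tr.lf u1970000)
 (Tr.lf u1971876))
 (Tr.nd (nat_lit 1971880) (Tr.lf u1971880)
 (Tr.lf u1971900))))
 (Tr.nd (nat_lit 1984376) (Tr.nd (nat_lit 1972500) (Tr.nd (nat_lit 1972000) (Tr.lf u1972000)
 (Tr.lf u1972500))
 (Tr.nd (nat_lit 1975000) (Tr.lf u1975000)
 (Tr.lf u1984376)))
 (Tr.nd (nat_lit 1984400) (Tr.nd (nat_lit 1984380) (Tr.lf u1984380)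
 (Tr.lf u1984400))
 (Tr.nd (nat_lit 1984500) (Tr.lf u1984500)
 (Tr.lf u1985000)))))
 (Tr.nd (nat_lit 2031300) (Tr.nd (nat_lit 2031256) (Tr.nd (nat_lit 2000000) (Tr.nd (nat_lit 1987500) (Tr.lf u1987500)
 (Tr.lf u2000000))
 (Tr.nd (nat_lit 2031252) (Tr.lf u2031252)
 (Tr.lf u2031256)))
 (Tr.nd (nat_lit 2031276) (Tr.nd (nat_lit 2031260) (Tr.lf u2031260)
 (Tr.lf u2031276))
 (Tr.nd (nat_lit 2031280) (Tr.lf u2031280)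
 (Tr.lf u2031300))))
 (Tr.nd (nat_lit 2031500) (Tr.nd (nat_lit 2031380) (Tr.nd (nat_lit 2031376) (Tr.lf u2031376)
 (Tr.lf u2031380))
 (Tr.nd (nat_lit 2031400) (Tr.lf u2031400)
 (Tr.lf u2031500)))
 (Tr.nd (nat_lit 2031880) (Tr.nd (nat_lit 2031876) (Tr.lf u2031876)
 (Tr.lf u2031880))
 (Tr.nd (nat_lit 2031900) (Tr.lf u2031900)
 (Tr.lf u2032000))))))
 (Tr.nd (nat_lit 2109380) (Tr.nd (nat_lit 2046876) (Tr.nd (nat_lit 2034400) (Tr.nd (nat_lit 2034376) (Tr.nd (nat_lit 2032500) (Tr.lf u2032500)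
 (Tr.lf u2034376))
 (Tr.nd (nat_lit 2034380) (Tr.lf u2034380)
 (Tr.lf u2034400)))
 (Tr.nd (nat_lit 2035000) (Tr.nd (nat_lit 2034500) (Tr.lf u2034500)
 (Tr.lf u2035000))
 (Tr.nd (nat_lit 2037500) (Tr.lf u2037500)
 (Tr.lf u2046876))))
 (Tr.nd (nat_lit 2047500) (Tr.nd (nat_lit 2046900) (Tr.nd (nat_lit 2046880) (Tr.lf u2046880)
 (Tr.lf u2046900))
 (Tr.nd (nat_lit 2047000) (Tr.lf u2047000)
 (Tr.lf u2047500)))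
 (Tr.nd (nat_lit 2062500) (Tr.nd (nat_lit 2050000) (Tr.lf u2050000)
 (Tr.lf u2062500))
 (Tr.nd (nat_lit 2109376) (Tr.lf u2109376)
 (Tr.lf u2109380)))))
 (Tr.nd (nat_lit 2343756) (Tr.nd (nat_lit 2112500) (Tr.nd (nat_lit 2109500) (Tr.nd (nat_lit 2109400) (Tr.lf u2109400)
 (Tr.lf u2109500))
 (Tr.nd (nat_lit 2110000) (Tr.lf u2110000)
 (Tr.lf u2112500)))
 (Tr.nd (nat_lit 2187500) (Tr.nd (nat_lit 2125000) (Tr.lf u2125000)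
 (Tr.lf u2187500))
 (Tr.nd (nat_lit 2343752) (Tr.lf u2343752)
 (Tr.lf u2343756))))
 (Tr.nd (nat_lit 2343800) (Tr.nd (nat_lit 2343776) (Tr.nd (nat_lit 2343760) (Tr.lf u2343760)
 (Tr.lf u2343776))
 (Tr.nd (nat_lit 2343780) (Tr.lf u2343780)
 (Tr.lf u2343800)))
 (Tr.nd (nat_lit 2343880) (Tr.nd (nat_lit 2343876) (Tr.lf u2343876)
 (Tr.lf u2343880))
 (Tr.nd (nat_lit 2343900) (Tr.lf u2343900)
 (Tr.lf u2344000))))))))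
 (Tr.nd (nat_lit 3925000) (Tr.nd (nat_lit 2735000) (Tr.nd (nat_lit 2359500) (Tr.nd (nat_lit 2346880) (Tr.nd (nat_lit 2344400) (Tr.nd (nat_lit 2344376) (Tr.lf u2344376)
 (Tr.nd (nat_lit 2344380) (Tr.lf u2344380)
 (Tr.lf u2344400)))
 (Tr.nd (nat_lit 2345000) (Tr.nd (nat_lit 2344500) (Tr.lf u2344500)
 (Tr.lf u2345000))
 (Tr.nd (nat_lit 2346876) (Tr.lf u2346876)
 (Tr.lf u2346880))))
 (Tr.nd (nat_lit 2350000) (Tr.nd (nat_lit 2347000) (Tr.nd (nat_lit 2346900) (Tr.lf u2346900)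
 (Tr.lf u2347000))
 (Tr.nd (nat_lit 2347500) (Tr.lf u2347500)
 (Tr.lf u2350000)))
 (Tr.nd (nat_lit 2359380) (Tr.nd (nat_lit 2359376) (Tr.lf u2359376)
 (Tr.lf u2359380))
 (Tr.nd (nat_lit 2359400) (Tr.lf u2359400)
 (Tr.lf u2359500)))))
 (Tr.nd (nat_lit 2422500) (Tr.nd (nat_lit 2421876) (Tr.nd (nat_lit 2362500) (Tr.nd (nat_lit 2360000) (Tr.lf u2360000)
 (Tr.lf u2362500))
 (Tr.nd (nat_lit 2375000) (Tr.lf u2375000)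
 (Tr.lf u2421876)))
 (Tr.nd (nat_lit 2421900) (Tr.nd (nat_lit 2421880) (Tr.lf u2421880)
 (Tr.lf u2421900))
 (Tr.nd (nat_lit 2422000) (Tr.lf u2422000)
 (Tr.lf u2422500))))
 (Tr.nd (nat_lit 2734376) (Tr.nd (nat_lit 2437500) (Tr.nd (nat_lit 2425000) (Tr.lf u2425000)
 (Tr.lf u2437500))
 (Tr.nd (nat_lit 2500000) (Tr.lf u2500000)
 (Tr.lf u2734376)))
 (Tr.nd (nat_lit 2734400) (Tr.nd (nat_lit 2734380) (Tr.lf u2734380)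
 (Tr.lf u2734400))
 (Tr.nd (nat_lit 2734500) (Tr.lf u2734500)
 (Tr.lf u2735000))))))
 (Tr.nd (nat_lit 3906876) (Tr.nd (nat_lit 3906260) (Tr.nd (nat_lit 2812500) (Tr.nd (nat_lit 2737500) (Tr.lf u2737500)
 (Tr.nd (nat_lit 2750000) (Tr.lf u2750000)
 (Tr.lf u2812500)))
 (Tr.nd (nat_lit 3906252) (Tr.nd (nat_lit 3125000) (Tr.lf u3125000)
 (Tr.lf u3906252))
 (Tr.nd (nat_lit 3906256) (Tr.lf u3906256)
 (Tr.lf u3906260))))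
 (Tr.nd (nat_lit 3906376) (Tr.nd (nat_lit 3906280) (Tr.nd (nat_lit 3906276) (Tr.lf u3906276)
 (Tr.lf u3906280))
 (Tr.nd (nat_lit 3906300) (Tr.lf u3906300)
 (Tr.lf u3906376)))
 (Tr.nd (nat_lit 3906400) (Tr.nd (nat_lit 3906380) (Tr.lf u3906380)
 (Tr.lf u3906400))
 (Tr.nd (nat_lit 3906500) (Tr.lf u3906500)
 (Tr.lf u3906876)))))
 (Tr.nd (nat_lit 3909500) (Tr.nd (nat_lit 3907500) (Tr.nd (nat_lit 3906900) (Tr.nd (nat_lit 3906880) (Tr.lf u3906880)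
 (Tr.lf u3906900))
 (Tr.nd (nat_lit 3907000) (Tr.lf u3907000)
 (Tr.lf u3907500)))
 (Tr.nd (nat_lit 3909380) (Tr.nd (nat_lit 3909376) (Tr.lf u3909376)
 (Tr.lf u3909380))
 (Tr.nd (nat_lit 3909400) (Tr.lf u3909400)
 (Tr.lf u3909500))))
 (Tr.nd (nat_lit 3921880) (Tr.nd (nat_lit 3912500) (Tr.nd (nat_lit 3910000) (Tr.lf u3910000)
 (Tr.lf u3912500))
 (Tr.nd (nat_lit 3921876) (Tr.lf u3921876)
 (Tr.lf u3921880)))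
 (Tr.nd (nat_lit 3922000) (Tr.nd (nat_lit 3921900) (Tr.lf u3921900)
 (Tr.lf u3922000))
 (Tr.nd (nat_lit 3922500) (Tr.lf u3922500)
 (Tr.lf u3925000)))))))
 (Tr.nd (nat_lit 9765636) (Tr.nd (nat_lit 4300000) (Tr.nd (nat_lit 3987500) (Tr.nd (nat_lit 3984380) (Tr.nd (nat_lit 3937500) (Tr.lf u3937500)
 (Tr.nd (nat_lit 3984376) (Tr.lf u3984376)
 (Tr.lf u3984380)))
 (Tr.nd (nat_lit 3984500) (Tr.nd (nat_lit 3984400) (Tr.lf u3984400)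
 (Tr.lf u3984500))
 (Tr.nd (nat_lit 3985000) (Tr.lf u3985000)
 (Tr.lf u3987500))))
 (Tr.nd (nat_lit 4296880) (Tr.nd (nat_lit 4062500) (Tr.nd (nat_lit 4000000) (Tr.lf u4000000)
 (Tr.lf u4062500))
 (Tr.nd (nat_lit 4296876) (Tr.lf u4296876)
 (Tr.lf u4296880)))
 (Tr.nd (nat_lit 4297000) (Tr.nd (nat_lit 4296900) (Tr.lf u4296900)
 (Tr.lf u4297000))
 (Tr.nd (nat_lit 4297500) (Tr.lf u4297500)
 (Tr.lf u4300000)))))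
 (Tr.nd (nat_lit 5860000) (Tr.nd (nat_lit 5859376) (Tr.nd (nat_lit 4375000) (Tr.nd (nat_lit 4312500) (Tr.lf u4312500)
 (Tr.lf u4375000))
 (Tr.nd (nat_lit 4687500) (Tr.lf u4687500)
 (Tr.lf u5859376)))
 (Tr.nd (nat_lit 5859400) (Tr.nd (nat_lit 5859380) (Tr.lf u5859380)
 (Tr.lf u5859400))
 (Tr.nd (nat_lit 5859500) (Tr.lf u5859500)
 (Tr.lf u5860000))))
 (Tr.nd (nat_lit 6250000) (Tr.nd (nat_lit 5875000) (Tr.nd (nat_lit 5862500) (Tr.lf u5862500)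
 (Tr.lf u5875000))
 (Tr.nd (nat_lit 5937500) (Tr.lf u5937500)
 (Tr.lf u6250000)))
 (Tr.nd (nat_lit 9765628) (Tr.nd (nat_lit 7812500) (Tr.lf u7812500)
 (Tr.lf u9765628))
 (Tr.nd (nat_lit 9765632) (Tr.lf u9765632)
 (Tr.lf u9765636))))))
 (Tr.nd (nat_lit 9765900) (Tr.nd (nat_lit 9765752) (Tr.nd (nat_lit 9765660) (Tr.nd (nat_lit 9765652) (Tr.nd (nat_lit 9765640) (Tr.lf u9765640)
 (Tr.lf u9765652))
 (Tr.nd (nat_lit 9765656) (Tr.lf u9765656)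
 (Tr.lf u9765660)))
 (Tr.nd (nat_lit 9765680) (Tr.nd (nat_lit 9765676) (Tr.lf u9765676)
 (Tr.lf u9765680))
 (Tr.nd (nat_lit 9765700) (Tr.lf u9765700)
 (Tr.lf u9765752))))
 (Tr.nd (nat_lit 9765780) (Tr.nd (nat_lit 9765760) (Tr.nd (nat_lit 9765756) (Tr.lf u9765756)
 (Tr.lf u9765760))
 (Tr.nd (nat_lit 9765776) (Tr.lf u9765776)
 (Tr.lf u9765780)))
 (Tr.nd (nat_lit 9765876) (Tr.nd (nat_lit 9765800) (Tr.lf u9765800)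
 (Tr.lf u9765876))
 (Tr.nd (nat_lit 9765880) (Tr.lf u9765880)
 (Tr.lf u9765900)))))
 (Tr.nd (nat_lit 9766376) (Tr.nd (nat_lit 9766260) (Tr.nd (nat_lit 9766252) (Tr.nd (nat_lit 9766000) (Tr.lf u9766000)
 (Tr.lf u9766252))
 (Tr.nd (nat_lit 9766256) (Tr.lf u9766256)
 (Tr.lf u9766260)))
 (Tr.nd (nat_lit 9766280) (Tr.nd (nat_lit 9766276) (Tr.lf u9766276)
 (Tr.lf u9766280))
 (Tr.nd (nat_lit 9766300) (Tr.lf u9766300)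
 (Tr.lf u9766376))))
 (Tr.nd (nat_lit 9766876) (Tr.nd (nat_lit 9766400) (Tr.nd (nat_lit 9766380) (Tr.lf u9766380)
 (Tr.lf u9766400))
 (Tr.nd (nat_lit 9766500) (Tr.lf u9766500)
 (Tr.lf u9766876)))
 (Tr.nd (nat_lit 9766900) (Tr.nd (nat_lit 9766880) (Tr.lf u9766880)
 (Tr.lf u9766900))
 (Tr.nd (nat_lit 9767000) (Tr.lf u9767000)
 (Tr.lf u9767500)))))))))
 (Tr.nd (nat_lit 10547000) (Tr.nd (nat_lit 9844400) (Tr.nd (nat_lit 9781500) (Tr.nd (nat_lit 9770000) (Tr.nd (nat_lit 9768876) (Tr.nd (nat_lit 9768760) (Tr.nd (nat_lit 9768752) (Tr.lf u9768752)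
 (Tr.nd (nat_lit 9768756) (Tr.lf u9768756)
 (Tr.lf u9768760)))
 (Tr.nd (nat_lit 9768780) (Tr.nd (nat_lit 9768776) (Tr.lf u9768776)
 (Tr.lf u9768780))
 (Tr.nd (nat_lit 9768800) (Tr.lf u9768800)
 (Tr.lf u9768876))))
 (Tr.nd (nat_lit 9769376) (Tr.nd (nat_lit 9768900) (Tr.nd (nat_lit 9768880) (Tr.lf u9768880)
 (Tr.lf u9768900))
 (Tr.nd (nat_lit 9769000) (Tr.lf u9769000)
 (Tr.lf u9769376)))
 (Tr.nd (nat_lit 9769400) (Tr.nd (nat_lit 9769380) (Tr.lf u9769380)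
 (Tr.lf u9769400))
 (Tr.nd (nat_lit 9769500) (Tr.lf u9769500)
 (Tr.lf u9770000)))))
 (Tr.nd (nat_lit 9781256) (Tr.nd (nat_lit 9772000) (Tr.nd (nat_lit 9771880) (Tr.nd (nat_lit 9771876) (Tr.lf u9771876)
 (Tr.lf u9771880))
 (Tr.nd (nat_lit 9771900) (Tr.lf u9771900)
 (Tr.lf u9772000)))
 (Tr.nd (nat_lit 9775000) (Tr.nd (nat_lit 9772500) (Tr.lf u9772500)
 (Tr.lf u9775000))
 (Tr.nd (nat_lit 9781252) (Tr.lf u9781252)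
 (Tr.lf u9781256))))
 (Tr.nd (nat_lit 9781300) (Tr.nd (nat_lit 9781276) (Tr.nd (nat_lit 9781260) (Tr.lf u9781260)
 (Tr.lf u9781276))
 (Tr.nd (nat_lit 9781280) (Tr.lf u9781280)
 (Tr.lf u9781300)))
 (Tr.nd (nat_lit 9781380) (Tr.nd (nat_lit 9781376) (Tr.lf u9781376)
 (Tr.lf u9781380))
 (Tr.nd (nat_lit 9781400) (Tr.lf u9781400)
 (Tr.lf u9781500))))))
 (Tr.nd (nat_lit 9797000) (Tr.nd (nat_lit 9784380) (Tr.nd (nat_lit 9781900) (Tr.nd (nat_lit 9781876) (Tr.lf u9781876)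
 (Tr.nd (nat_lit 9781880) (Tr.lf u9781880)
 (Tr.lf u9781900)))
 (Tr.nd (nat_lit 9782500) (Tr.nd (nat_lit 9782000) (Tr.lf u9782000)
 (Tr.lf u9782500))
 (Tr.nd (nat_lit 9784376) (Tr.lf u9784376)
 (Tr.lf u9784380))))
 (Tr.nd (nat_lit 9787500) (Tr.nd (nat_lit 9784500) (Tr.nd (nat_lit 9784400) (Tr.lf u9784400)
 (Tr.lf u9784500))
 (Tr.nd (nat_lit 9785000) (Tr.lf u9785000)
 (Tr.lf u9787500)))
 (Tr.nd (nat_lit 9796880) (Tr.nd (nat_lit 9796876) (Tr.lf u9796876)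
 (Tr.lf u9796880))
 (Tr.nd (nat_lit 9796900) (Tr.lf u9796900)
 (Tr.lf u9797000)))))
 (Tr.nd (nat_lit 9843780) (Tr.nd (nat_lit 9843752) (Tr.nd (nat_lit 9800000) (Tr.nd (nat_lit 9797500) (Tr.lf u9797500)
 (Tr.lf u9800000))
 (Tr.nd (nat_lit 9812500) (Tr.lf u9812500)
 (Tr.lf u9843752)))
 (Tr.nd (nat_lit 9843760) (Tr.nd (nat_lit 9843756) (Tr.lf u9843756)
 (Tr.lf u9843760))
 (Tr.nd (nat_lit 9843776) (Tr.lf u9843776)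
 (Tr.lf u9843780))))
 (Tr.nd (nat_lit 9843900) (Tr.nd (nat_lit 9843876) (Tr.nd (nat_lit 9843800) (Tr.lf u9843800)
 (Tr.lf u9843876))
 (Tr.nd (nat_lit 9843880) (Tr.lf u9843880)
 (Tr.lf u9843900)))
 (Tr.nd (nat_lit 9844376) (Tr.nd (nat_lit 9844000) (Tr.lf u9844000)
 (Tr.lf u9844376))
 (Tr.nd (nat_lit 9844380) (Tr.lf u9844380)
 (Tr.lf u9844400)))))))
 (Tr.nd (nat_lit 10156380) (Tr.nd (nat_lit 9875000) (Tr.nd (nat_lit 9847500) (Tr.nd (nat_lit 9846876) (Tr.nd (nat_lit 9844500) (Tr.lf u9844500)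
 (Tr.nd (nat_lit 9845000) (Tr.lf u9845000)
 (Tr.lf u9846876)))
 (Tr.nd (nat_lit 9846900) (Tr.nd (nat_lit 9846880) (Tr.lf u9846880)
 (Tr.lf u9846900))
 (Tr.nd (nat_lit 9847000) (Tr.lf u9847000)
 (Tr.lf u9847500))))
 (Tr.nd (nat_lit 9859400) (Tr.nd (nat_lit 9859376) (Tr.nd (nat_lit 9850000) (Tr.lf u9850000)
 (Tr.lf u9859376))
 (Tr.nd (nat_lit 9859380) (Tr.lf u9859380)
 (Tr.lf u9859400)))
 (Tr.nd (nat_lit 9860000) (Tr.nd (nat_lit 9859500) (Tr.lf u9859500)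
 (Tr.lf u9860000))
 (Tr.nd (nat_lit 9862500) (Tr.lf u9862500)
 (Tr.lf u9875000)))))
 (Tr.nd (nat_lit 10000000) (Tr.nd (nat_lit 9922000) (Tr.nd (nat_lit 9921880) (Tr.nd (nat_lit 9921876) (Tr.lf u9921876)
 (Tr.lf u9921880))
 (Tr.nd (nat_lit 9921900) (Tr.lf u9921900)
 (Tr.lf u9922000)))
 (Tr.nd (nat_lit 9925000) (Tr.nd (nat_lit 9922500) (Tr.lf u9922500)
 (Tr.lf u9925000))
 (Tr.nd (nat_lit 9937500) (Tr.lf u9937500)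
 (Tr.lf u10000000))))
 (Tr.nd (nat_lit 10156276) (Tr.nd (nat_lit 10156256) (Tr.nd (nat_lit 10156252) (Tr.lf u10156252)
 (Tr.lf u10156256))
 (Tr.nd (nat_lit 10156260) (Tr.lf u10156260)
 (Tr.lf u10156276)))
 (Tr.nd (nat_lit 10156300) (Tr.nd (nat_lit 10156280) (Tr.lf u10156280)
 (Tr.lf u10156300))
 (Tr.nd (nat_lit 10156376) (Tr.lf u10156376)
 (Tr.lf u10156380))))))
 (Tr.nd (nat_lit 10171900) (Tr.nd (nat_lit 10159376) (Tr.nd (nat_lit 10156880) (Tr.nd (nat_lit 10156500) (Tr.nd (nat_lit 10156400) (Tr.lf u10156400)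
 (Tr.lf u10156500))
 (Tr.nd (nat_lit 10156876) (Tr.lf u10156876)
 (Tr.lf u10156880)))
 (Tr.nd (nat_lit 10157000) (Tr.nd (nat_lit 10156900) (Tr.lf u10156900)
 (Tr.lf u10157000))
 (Tr.nd (nat_lit 10157500) (Tr.lf u10157500)
 (Tr.lf u10159376))))
 (Tr.nd (nat_lit 10160000) (Tr.nd (nat_lit 10159400) (Tr.nd (nat_lit 10159380) (Tr.lf u10159380)
 (Tr.lf u10159400))
 (Tr.nd (nat_lit 10159500) (Tr.lf u10159500)
 (Tr.lf u10160000)))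
 (Tr.nd (nat_lit 10171876) (Tr.nd (nat_lit 10162500) (Tr.lf u10162500)
 (Tr.lf u10171876))
 (Tr.nd (nat_lit 10171880) (Tr.lf u10171880)
 (Tr.lf u10171900)))))
 (Tr.nd (nat_lit 10234500) (Tr.nd (nat_lit 10187500) (Tr.nd (nat_lit 10172500) (Tr.nd (nat_lit 10172000) (Tr.lf u10172000)
 (Tr.lf u10172500))
 (Tr.nd (nat_lit 10175000) (Tr.lf u10175000)
 (Tr.lf u10187500)))
 (Tr.nd (nat_lit 10234380) (Tr.nd (nat_lit 10234376) (Tr.lf u10234376)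
 (Tr.lf u10234380))
 (Tr.nd (nat_lit 10234400) (Tr.lf u10234400)
 (Tr.lf u10234500))))
 (Tr.nd (nat_lit 10312500) (Tr.nd (nat_lit 10237500) (Tr.nd (nat_lit 10235000) (Tr.lf u10235000)
 (Tr.lf u10237500))
 (Tr.nd (nat_lit 10250000) (Tr.lf u10250000)
 (Tr.lf u10312500)))
 (Tr.nd (nat_lit 10546880) (Tr.nd (nat_lit 10546876) (Tr.lf u10546876)
 (Tr.lf u10546880))
 (Tr.nd (nat_lit 10546900) (Tr.lf u10546900)
 (Tr.lf u10547000))))))))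
 (Tr.nd (nat_lit 19531260) (Tr.nd (nat_lit 11735000) (Tr.nd (nat_lit 11719000) (Tr.nd (nat_lit 11718756) (Tr.nd (nat_lit 10562500) (Tr.nd (nat_lit 10547500) (Tr.lf u10547500)
 (Tr.nd (nat_lit 10550000) (Tr.lf u10550000)
 (Tr.lf u10562500)))
 (Tr.nd (nat_lit 10937500) (Tr.nd (nat_lit 10625000) (Tr.lf u10625000)
 (Tr.lf u10937500))
 (Tr.nd (nat_lit 11718752) (Tr.lf u11718752)
 (Tr.lf u11718756))))
 (Tr.nd (nat_lit 11718800) (Tr.nd (nat_lit 11718776) (Tr.nd (nat_lit 11718760) (Tr.lf u11718760)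
 (Tr.lf u11718776))
 (Tr.nd (nat_lit 11718780) (Tr.lf u11718780)
 (Tr.lf u11718800)))
 (Tr.nd (nat_lit 11718880) (Tr.nd (nat_lit 11718876) (Tr.lf u11718876)
 (Tr.lf u11718880))
 (Tr.nd (nat_lit 11718900) (Tr.lf u11718900)
 (Tr.lf u11719000)))))
 (Tr.nd (nat_lit 11721900) (Tr.nd (nat_lit 11719500) (Tr.nd (nat_lit 11719380) (Tr.nd (nat_lit 11719376) (Tr.lf u11719376)
 (Tr.lf u11719380))
 (Tr.nd (nat_lit 11719400) (Tr.lf u11719400)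
 (Tr.lf u11719500)))
 (Tr.nd (nat_lit 11721876) (Tr.nd (nat_lit 11720000) (Tr.lf u11720000)
 (Tr.lf u11721876))
 (Tr.nd (nat_lit 11721880) (Tr.lf u11721880)
 (Tr.lf u11721900))))
 (Tr.nd (nat_lit 11734376) (Tr.nd (nat_lit 11722500) (Tr.nd (nat_lit 11722000) (Tr.lf u11722000)
 (Tr.lf u11722500))
 (Tr.nd (nat_lit 11725000) (Tr.lf u11725000)
 (Tr.lf u11734376)))
 (Tr.nd (nat_lit 11734400) (Tr.nd (nat_lit 11734380) (Tr.lf u11734380)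
 (Tr.lf u11734400))
 (Tr.nd (nat_lit 11734500) (Tr.lf u11734500)
 (Tr.lf u11735000))))))
 (Tr.nd (nat_lit 12112500) (Tr.nd (nat_lit 11800000) (Tr.nd (nat_lit 11796880) (Tr.nd (nat_lit 11750000) (Tr.nd (nat_lit 11737500) (Tr.lf u11737500)
 (Tr.lf u11750000))
 (Tr.nd (nat_lit 11796876) (Tr.lf u11796876)
 (Tr.lf u11796880)))
 (Tr.nd (nat_lit 11797000) (Tr.nd (nat_lit 11796900) (Tr.lf u11796900)
 (Tr.lf u11797000))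
 (Tr.nd (nat_lit 11797500) (Tr.lf u11797500)
 (Tr.lf u11800000))))
 (Tr.nd (nat_lit 12109380) (Tr.nd (nat_lit 11875000) (Tr.nd (nat_lit 11812500) (Tr.lf u11812500)
 (Tr.lf u11875000))
 (Tr.nd (nat_lit 12109376) (Tr.lf u12109376)
 (Tr.lf u12109380)))
 (Tr.nd (nat_lit 12109500) (Tr.nd (nat_lit 12109400) (Tr.lf u12109400)
 (Tr.lf u12109500))
 (Tr.nd (nat_lit 12110000) (Tr.lf u12110000)
 (Tr.lf u12112500)))))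
 (Tr.nd (nat_lit 13672500) (Tr.nd (nat_lit 13671876) (Tr.nd (nat_lit 12187500) (Tr.nd (nat_lit 12125000) (Tr.lf u12125000)
 (Tr.lf u12187500))
 (Tr.nd (nat_lit 12500000) (Tr.lf u12500000)
 (Tr.lf u13671876)))
 (Tr.nd (nat_lit 13671900) (Tr.nd (nat_lit 13671880) (Tr.lf u13671880)
 (Tr.lf u13671900))
 (Tr.nd (nat_lit 13672000) (Tr.lf u13672000)
 (Tr.lf u13672500))))
 (Tr.nd (nat_lit 14062500) (Tr.nd (nat_lit 13687500) (Tr.nd (nat_lit 13675000) (Tr.lf u13675000)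
 (Tr.lf u13687500))
 (Tr.nd (nat_lit 13750000) (Tr.lf u13750000)
 (Tr.lf u14062500)))
 (Tr.nd (nat_lit 19531252) (Tr.nd (nat_lit 15625000) (Tr.lf u15625000)
 (Tr.lf u19531252))
 (Tr.nd (nat_lit 19531256) (Tr.lf u19531256)
 (Tr.lf u19531260)))))))
 (Tr.nd (nat_lit 19612500) (Tr.nd (nat_lit 19534400) (Tr.nd (nat_lit 19531500) (Tr.nd (nat_lit 19531300) (Tr.nd (nat_lit 19531276) (Tr.lf u19531276)
 (Tr.nd (nat_lit 19531280) (Tr.lf u19531280)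
 (Tr.lf u19531300)))
 (Tr.nd (nat_lit 19531380) (Tr.nd (nat_lit 19531376) (Tr.lf u19531376)
 (Tr.lf u19531380))
 (Tr.nd (nat_lit 19531400) (Tr.lf u19531400)
 (Tr.lf u19531500))))
 (Tr.nd (nat_lit 19532000) (Tr.nd (nat_lit 19531880) (Tr.nd (nat_lit 19531876) (Tr.lf u19531876)
 (Tr.lf u19531880))
 (Tr.nd (nat_lit 19531900) (Tr.lf u19531900)
 (Tr.lf u19532000)))
 (Tr.nd (nat_lit 19534376) (Tr.nd (nat_lit 19532500) (Tr.lf u19532500)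
 (Tr.lf u19534376))
 (Tr.nd (nat_lit 19534380) (Tr.lf u19534380)
 (Tr.lf u19534400)))))
 (Tr.nd (nat_lit 19547500) (Tr.nd (nat_lit 19546876) (Tr.nd (nat_lit 19535000) (Tr.nd (nat_lit 19534500) (Tr.lf u19534500)
 (Tr.lf u19535000))
 (Tr.nd (nat_lit 19537500) (Tr.lf u19537500)
 (Tr.lf u19546876)))
 (Tr.nd (nat_lit 19546900) (Tr.nd (nat_lit 19546880) (Tr.lf u19546880)
 (Tr.lf u19546900))
 (Tr.nd (nat_lit 19547000) (Tr.lf u19547000)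
 (Tr.lf u19547500))))
 (Tr.nd (nat_lit 19609380) (Tr.nd (nat_lit 19562500) (Tr.nd (nat_lit 19550000) (Tr.lf u19550000)
 (Tr.lf u19562500))
 (Tr.nd (nat_lit 19609376) (Tr.lf u19609376)
 (Tr.lf u19609380)))
 (Tr.nd (nat_lit 19609500) (Tr.nd (nat_lit 19609400) (Tr.lf u19609400)
 (Tr.lf u19609500))
 (Tr.nd (nat_lit 19610000) (Tr.lf u19610000)
 (Tr.lf u19612500))))))
 (Tr.nd (nat_lit 21485000) (Tr.nd (nat_lit 19925000) (Tr.nd (nat_lit 19921880) (Tr.nd (nat_lit 19687500) (Tr.nd (nat_lit 19625000) (Tr.lf u19625000)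
 (Tr.lf u19687500))
 (Tr.nd (nat_lit 19921876) (Tr.lf u19921876)
 (Tr.lf u19921880)))
 (Tr.nd (nat_lit 19922000) (Tr.nd (nat_lit 19921900) (Tr.lf u19921900)
 (Tr.lf u19922000))
 (Tr.nd (nat_lit 19922500) (Tr.lf u19922500)
 (Tr.lf u19925000))))
 (Tr.nd (nat_lit 21484376) (Tr.nd (nat_lit 20000000) (Tr.nd (nat_lit 19937500) (Tr.lf u19937500)
 (Tr.lf u20000000))
 (Tr.nd (nat_lit 20312500) (Tr.lf u20312500)
 (Tr.lf u21484376)))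
 (Tr.nd (nat_lit 21484400) (Tr.nd (nat_lit 21484380) (Tr.lf u21484380)
 (Tr.lf u21484400))
 (Tr.nd (nat_lit 21484500) (Tr.lf u21484500)
 (Tr.lf u21485000)))))
 (Tr.nd (nat_lit 29296900) (Tr.nd (nat_lit 21875000) (Tr.nd (nat_lit 21500000) (Tr.nd (nat_lit 21487500) (Tr.lf u21487500)
 (Tr.lf u21500000))
 (Tr.nd (nat_lit 21562500) (Tr.lf u21562500)
 (Tr.lf u21875000)))
 (Tr.nd (nat_lit 29296876) (Tr.nd (nat_lit 23437500) (Tr.lf u23437500)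
 (Tr.lf u29296876))
 (Tr.nd (nat_lit 29296880) (Tr.lf u29296880)
 (Tr.lf u29296900))))
 (Tr.nd (nat_lit 29312500) (Tr.nd (nat_lit 29297500) (Tr.nd (nat_lit 29297000) (Tr.lf u29297000)
 (Tr.lf u29297500))
 (Tr.nd (nat_lit 29300000) (Tr.lf u29300000)
 (Tr.lf u29312500)))
 (Tr.nd (nat_lit 29687500) (Tr.nd (nat_lit 29375000) (Tr.lf u29375000)
 (Tr.lf u29687500))
 (Tr.nd (nat_lit 31250000) (Tr.lf u31250000)
 (Tr.lf u39062500)))))))))))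

end Pool.Agent.H92.Frog.K
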