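import Pool.Agent.H92.Frog.Chk1

/-! Kernel checks of the contexts (generated). -/

set_option autoImplicit false
set_option maxRecDepth 100000

namespace Pool.Agent.H92.Frog.K

theorem q2 : chkQa (nat_lit 2) = true := by decide +kernel

end Pool.Agent.H92.Frog.K
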