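import Pool.Agent.H92.Frog.Chk1

/-! Kernel checks (generated). -/

set_option autoImplicit false
set_option maxRecDepth 100000

namespace Pool.Agent.H92.Frog.K

theorem q4 : chkQa (nat_lit 4) = true := by decide +kernel

theorem q5 : chkQa (nat_lit 5) = true := by decide +kernel

theorem q6 : chkQa (nat_lit 6) = true := by decide +kernel

theorem q7 : chkQa (nat_lit 7) = true := by decide +kernel

theorem q8 : chkQa (nat_lit 8) = true := by decide +kernel

theorem q9 : chkQa (nat_lit 9) = true := by decide +kernel

theorem q10 : chkQa (nat_lit 10) = true := by decide +kernel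

end Pool.Agent.H92.Frog.K
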