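import Pool.Agent.H92.Frog.Chk0

/-! Small tables (generated). -/

set_option autoImplicit false
set_option maxRecDepth 100000

namespace Pool.Agent.H92.Frog.K

/-- masks and shifts of the lane expansion -/
def SPM : List (Nat × Nat) :=
  List.cons (nat_lit 0xffffffffffffffffffffffffffffffffffffffffffffffffffffffffffffffffffffffffffffffffffffffffffffffffffffffffffffffffffffffffffffffffffffffffffffffffffffffffffffffffffffffffffffffffffffffffffffffffffffffffffffffffffffffffffffffffffffffffffffffffffffffffffffffffffffffffffffffffffffffffffffffffffffffffffffffffffffffffffffffffffffffffffffffffffffffffffffffffffffffffffffffffffffffffffffffffffffffffffffffffffffffffffffffffffffffffffffffffffffffffffffffffffffffffffffffffffffffffffffffffffffffffffffffffffffffffffffffffffffffffffffffffffffffffffffffffffffffffffffffffffffffffffffffffffffffffffffffffffffffffffffffffffffffffffffffffffffffffffffffffffffffffffffffffffffffffffffffffffffffffffffffffffffffffffffffffffffffffffffffffffffffffffffffffffffffffffffffffffffffffffffffff, nat_lit 5120) <|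
  List.cons (nat_lit 0xffffffffffffffffffffffffffffffffffffffffffffffffffffffffffffffffffffffffffffffffffffffffffffffffffffffffffffffffffffffffffffffffffffffffffffffffffffffffffffffffffffffffffffffffffffffffffffffffffffffffffffffffffffffffffffffffffffffffffffffffffffffffffffffffffffffffffffffffffffffffffffffffffffffffffffffffffffffffffffffffffffffffffffffffffffffffffffffffffffffffffffffffffffffffffffffff0000000000000000000000000000000000000000000000000000000000000000000000000000000000000000000000000000000000000000000000000000000000000000000000000000000000000000000000000000000000000000000000000000000000000000000000000000000000000000000000000000000000000000000000000000000000000000000000000000000000000000000000000000000000000000000000000000000000000000000000000000000000000000000000000000000000000000000000000000000000000000000000000000000000000000000000000000000000000000000000000000000000000000000000000000000000000000000000000000000000000000000000000000000000000000000000000000000000000000000000000000000000000000000000000000000000000000000000000000000000000000000000000000000000000000000000000000000000000000000000000000000000000000000000000000000000000000000000000000000000000000000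0000000000000000000000000000000000000000000000000000000000000000000000000000000000000000000000000000000000000000000000000000000000000000000000000000000000000000000000000000000000000000000000000000000000000000000000000000000000000000000000000000000000000000000000000000000000000000000000000000000000000000000000000000000000000000000000000000000000000000000000000000000000000000000000000000000000000000000000000000000000000000000000000000000000000000000000000000000000000000000000000000000000000000000000000000000000000000000000000000000000000000000000000000000000000000000000000000000000000000000000000000000000000000000000000000000000000000000000000000000000000000000000000000000000000000000000000000000000000000000000000000000000000000000000000000000000000000000000000000000000000000000000000000000000000000000000000000000000000000000000000000000000000000000000000000000000000ffffffffffffffffffffffffffffffffffffffffffffffffffffffffffffffffffffffffffffffffffffffffffffffffffffffffffffffffffffffffffffffffffffffffffffffffffffffffffffffffffffffffffffffffffffffffffffffffffffffffffffffffffffffffffffffffffffffffffffffffffffffffffffffffffffffffffffffffffffffffffffffffffffffffffffffffffffffffffffffffffffffffffffffffffffffffffffffffffffffffffffffffffffffffffffffff,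 nat_lit 2560) <|
  List.cons (nat_lit 0xffffffffffffffffffffffffffffffffffffffffffffffffffffffffffffffffffffffffffffffffffffffffffffffffffffffffffffffffffffffffffffffffffffffffffffffffffffffffffffffffffffffffffffffffffffffffffffffff0000000000000000000000000000000000000000000000000000000000000000000000000000000000000000000000000000000000000000000000000000000000000000000000000000000000000000000000000000000000000000000000000000000000000000000000000000000000000000000000000000000000000000000000000000000000000000000000000000000000000000000000000000000000000000000000000000000000000000000000000000000000000000000000000000000000000000000000000000000000000000000000000000000000000000000000000000000000000000000000000000000000000000000000000000000000000000000000000000000000000000000000000000000000000000000000000000000000000000000000000000000000000000000000000000000000000000000000000000000000000000000000000000000000000000000000000000000000000000000000000000000000000000000000000000000000000000000000000000000000000000000000000000000000000000000000000000000000000000ffffffffffffffffffffffffffffffffffffffffffffffffffffffffffffffffffffffffffffffffffffffffffffffffffffffffffffffffffffffffffffffffff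ffffffffffffffffffffffffffffffffffffffffffffffffffffffffffffff0000000000000000000000000000000000000000000000000000000000000000000000000000000000000000000000000000000000000000000000000000000000000000000000000000000000000000000000000000000000000000000000000000000000000000000000000000000000000000000000000000000000000000000000000000000000000000000000000000000000000000000000000000000000000000000000000000000000000000000000000000000000000000000000000000000000000000000000000000000000000000000000000000000000000000000000000000000000000000000000000000000000000000000000000000000000000000000000000000000000000000000000000000000000000000000000000000000000000000000000000000000000000000000000000000000000000000000000000000000000000000000000000000000000000000000000000000000000000000000000000000000000000000000000000000000000000000000000000000000000000000000000000000000000000000000000000000000000000000ffffffffffffffffffffffffffffffffffffffffffffffffffffffffffffffffffffffffffffffffffffffffffffffffffffffffffffffffffffffffffffffffffffffffffffffffffffffffffffffffffffffffffffffffffffffffffffffff0000000000000000000000000000000000000000000000000000000000000000000000000000000000000000000000000000000000000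000000000000000000000000000000000000000000000000000000000000000000000000000000000000000000000000000000000000000000000000000000000000000000000000000000000000000000000000000000000000000000000000000000000000000000000000000000000000000000000000000000000000000000000000000000000000000000000000000000000000000000000000000000000000000000000000000000000000000000000000000000000000000000000000000000000000000000000000000000000000000000000000000000000000000000000000000000000000000000000000000000000000000000000000000000000000000000000000000000000000000000000000000000000000000000000000000000000000000000000000000000000000000000000000000000000000000000000000000000000000000000000000000000000000000000000000000000000000000000000000000ffffffffffffffffffffffffffffffffffffffffffffffffffffffffffffffffffffffffffffffffffffffffffffffffffffffffffffffffffffffffffffffffffffffffffffffffffffffffffffffffffffffffffffffffffffffffffffffff, nat_lit 1280) <|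
  List.cons (nat_lit 0xffffffffffffffffffffffffffffffffffffffffffffffffffffffffffffffffffffffffffffffffffffffffffffffff00000000000000000000000000000000000000000000000000000000000000000000000000000000000000000000000000000000000000000000000000000000000000000000000000000000000000000000000000000000000000000000000000000000000000000000000000000000000000000000000000000000000000000000000000000000000000000000000000000000000000000000000000000000000000000000000000000000000000000000000000000000000000000000000000000000000000000000000000000000ffffffffffffffffffffffffffffffffffffffffffffffffffffffffffffffffffffffffffffffffffffffffffffffff00000000000000000000000000000000000000000000000000000000000000000000000000000000000000000000000000000000000000000000000000000000000000000000000000000000000000000000000000000000000000000000000000000000000000000000000000000000000000000000000000000000000000000000000000000000000000000000000000000000000000000000000000000000000000000000000000000000000000000000000000000000000000000000000000000000000000000000000000000000ffffffffffffffffffffffffffffffffffffffffffffffffffffffffffffffffffffffffffffffffffffffffffffffff000000000000000000000000000000000000000000000000000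00000000000000000000000000000000000000000000000000000000000000000000000000000000000000000000000000000000000000000000000000000000000000000000000000000000000000000000000000000000000000000000000000000000000000000000000000000000000000000000000000000000000000000000000000000000000000000000000000000000000000000000000000000000000000000000000000000000000000000000000000000ffffffffffffffffffffffffffffffffffffffffffffffffffffffffffffffffffffffffffffffffffffffffffffffff00000000000000000000000000000000000000000000000000000000000000000000000000000000000000000000000000000000000000000000000000000000000000000000000000000000000000000000000000000000000000000000000000000000000000000000000000000000000000000000000000000000000000000000000000000000000000000000000000000000000000000000000000000000000000000000000000000000000000000000000000000000000000000000000000000000000000000000000000000000ffffffffffffffffffffffffffffffffffffffffffffffffffffffffffffffffffffffffffffffffffffffffffffffff000000000000000000000000000000000000000000000000000000000000000000000000000000000000000000000000000000000000000000000000000000000000000000000000000000000000000000000000000000000000000000000000000000000000000000000000000000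00000000000000000000000000000000000000000000000000000000000000000000000000000000000000000000000000000000000000000000000000000000000000000000000000000000000000000000000000000000000000000000000000ffffffffffffffffffffffffffffffffffffffffffffffffffffffffffffffffffffffffffffffffffffffffffffffff00000000000000000000000000000000000000000000000000000000000000000000000000000000000000000000000000000000000000000000000000000000000000000000000000000000000000000000000000000000000000000000000000000000000000000000000000000000000000000000000000000000000000000000000000000000000000000000000000000000000000000000000000000000000000000000000000000000000000000000000000000000000000000000000000000000000000000000000000000000ffffffffffffffffffffffffffffffffffffffffffffffffffffffffffffffffffffffffffffffffffffffffffffffff00000000000000000000000000000000000000000000000000000000000000000000000000000000000000000000000000000000000000000000000000000000000000000000000000000000000000000000000000000000000000000000000000000000000000000000000000000000000000000000000000000000000000000000000000000000000000000000000000000000000000000000000000000000000000000000000000000000000000000000000000000000000000000000000000000000000000000000000000000000ffffffffffffffffffffffffffffffffffffffffffffffffffffffffffffffffffffffffffffffffffffffffffffffff,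 nat_lit 640) <|
  List.cons (nat_lit 0xffffffffffffffffffffffffffffffffffffffffffffffff0000000000000000000000000000000000000000000000000000000000000000000000000000000000000000000000000000000000000000000000000000000000000000000000000000000000000000000000000000000000000000000000000000000000000000ffffffffffffffffffffffffffffffffffffffffffffffff0000000000000000000000000000000000000000000000000000000000000000000000000000000000000000000000000000000000000000000000000000000000000000000000000000000000000000000000000000000000000000000000000000000000000000ffffffffffffffffffffffffffffffffffffffffffffffff0000000000000000000000000000000000000000000000000000000000000000000000000000000000000000000000000000000000000000000000000000000000000000000000000000000000000000000000000000000000000000000000000000000000000000ffffffffffffffffffffffffffffffffffffffffffffffff0000000000000000000000000000000000000000000000000000000000000000000000000000000000000000000000000000000000000000000000000000000000000000000000000000000000000000000000000000000000000000000000000000000000000000ffffffffffffffffffffffffffffffffffffffffffffffff00000000000000000000000000000000000000000000000000000000000000000000000000000000000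00000000000000000000000000000000000000000000000000000000000000000000000000000000000000000000000000000000000000000000000000000ffffffffffffffffffffffffffffffffffffffffffffffff0000000000000000000000000000000000000000000000000000000000000000000000000000000000000000000000000000000000000000000000000000000000000000000000000000000000000000000000000000000000000000000000000000000000000000ffffffffffffffffffffffffffffffffffffffffffffffff0000000000000000000000000000000000000000000000000000000000000000000000000000000000000000000000000000000000000000000000000000000000000000000000000000000000000000000000000000000000000000000000000000000000000000ffffffffffffffffffffffffffffffffffffffffffffffff0000000000000000000000000000000000000000000000000000000000000000000000000000000000000000000000000000000000000000000000000000000000000000000000000000000000000000000000000000000000000000000000000000000000000000ffffffffffffffffffffffffffffffffffffffffffffffff0000000000000000000000000000000000000000000000000000000000000000000000000000000000000000000000000000000000000000000000000000000000000000000000000000000000000000000000000000000000000000000000000000000000000000ffffffffffffffffffffffffffffffffffffffffffffff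ff0000000000000000000000000000000000000000000000000000000000000000000000000000000000000000000000000000000000000000000000000000000000000000000000000000000000000000000000000000000000000000000000000000000000000000ffffffffffffffffffffffffffffffffffffffffffffffff0000000000000000000000000000000000000000000000000000000000000000000000000000000000000000000000000000000000000000000000000000000000000000000000000000000000000000000000000000000000000000000000000000000000000000ffffffffffffffffffffffffffffffffffffffffffffffff0000000000000000000000000000000000000000000000000000000000000000000000000000000000000000000000000000000000000000000000000000000000000000000000000000000000000000000000000000000000000000000000000000000000000000ffffffffffffffffffffffffffffffffffffffffffffffff0000000000000000000000000000000000000000000000000000000000000000000000000000000000000000000000000000000000000000000000000000000000000000000000000000000000000000000000000000000000000000000000000000000000000000ffffffffffffffffffffffffffffffffffffffffffffffff0000000000000000000000000000000000000000000000000000000000000000000000000000000000000000000000000000000000000000000000000000000000000000000000000000000000000000000000000000000000000000000000000000000000000000ffffffffffffffffffffffffffffffffffffffffffffffff0000000000000000000000000000000000000000000000000000000000000000000000000000000000000000000000000000000000000000000000000000000000000000000000000000000000000000000000000000000000000000000000000000000000000000ffffffffffffffffffffffffffffffffffffffffffffffff,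 nat_lit 320) <|
  List.cons (nat_lit 0xffffffffffffffffffffffff00000000000000000000000000000000000000000000000000000000000000000000000000000000000000000000000000000000ffffffffffffffffffffffff00000000000000000000000000000000000000000000000000000000000000000000000000000000000000000000000000000000ffffffffffffffffffffffff00000000000000000000000000000000000000000000000000000000000000000000000000000000000000000000000000000000ffffffffffffffffffffffff00000000000000000000000000000000000000000000000000000000000000000000000000000000000000000000000000000000ffffffffffffffffffffffff00000000000000000000000000000000000000000000000000000000000000000000000000000000000000000000000000000000ffffffffffffffffffffffff00000000000000000000000000000000000000000000000000000000000000000000000000000000000000000000000000000000ffffffffffffffffffffffff00000000000000000000000000000000000000000000000000000000000000000000000000000000000000000000000000000000ffffffffffffffffffffffff00000000000000000000000000000000000000000000000000000000000000000000000000000000000000000000000000000000ffffffffffffffffffffffff00000000000000000000000000000000000000000000000000000000000000000000000000000000000000000000000000000000fff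fffffffffffffffffffff00000000000000000000000000000000000000000000000000000000000000000000000000000000000000000000000000000000ffffffffffffffffffffffff00000000000000000000000000000000000000000000000000000000000000000000000000000000000000000000000000000000ffffffffffffffffffffffff00000000000000000000000000000000000000000000000000000000000000000000000000000000000000000000000000000000ffffffffffffffffffffffff00000000000000000000000000000000000000000000000000000000000000000000000000000000000000000000000000000000ffffffffffffffffffffffff00000000000000000000000000000000000000000000000000000000000000000000000000000000000000000000000000000000ffffffffffffffffffffffff00000000000000000000000000000000000000000000000000000000000000000000000000000000000000000000000000000000ffffffffffffffffffffffff00000000000000000000000000000000000000000000000000000000000000000000000000000000000000000000000000000000ffffffffffffffffffffffff00000000000000000000000000000000000000000000000000000000000000000000000000000000000000000000000000000000ffffffffffffffffffffffff00000000000000000000000000000000000000000000000000000000000000000000000000000000000000000000000000000000ffffffffffffffffffffffff0000000000000000000000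0000000000000000000000000000000000000000000000000000000000000000000000000000000000ffffffffffffffffffffffff00000000000000000000000000000000000000000000000000000000000000000000000000000000000000000000000000000000ffffffffffffffffffffffff00000000000000000000000000000000000000000000000000000000000000000000000000000000000000000000000000000000ffffffffffffffffffffffff00000000000000000000000000000000000000000000000000000000000000000000000000000000000000000000000000000000ffffffffffffffffffffffff00000000000000000000000000000000000000000000000000000000000000000000000000000000000000000000000000000000ffffffffffffffffffffffff00000000000000000000000000000000000000000000000000000000000000000000000000000000000000000000000000000000ffffffffffffffffffffffff00000000000000000000000000000000000000000000000000000000000000000000000000000000000000000000000000000000ffffffffffffffffffffffff00000000000000000000000000000000000000000000000000000000000000000000000000000000000000000000000000000000ffffffffffffffffffffffff00000000000000000000000000000000000000000000000000000000000000000000000000000000000000000000000000000000ffffffffffffffffffffffff00000000000000000000000000000000000000000000000000000000000000000000000000000000000000000000000000000000ffffffffffffffffffffffff00000000000000000000000000000000000000000000000000000000000000000000000000000000000000000000000000000000ffffffffffffffffffffffff00000000000000000000000000000000000000000000000000000000000000000000000000000000000000000000000000000000ffffffffffffffffffffffff00000000000000000000000000000000000000000000000000000000000000000000000000000000000000000000000000000000ffffffffffffffffffffffff,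 nat_lit 160) <|
  List.cons (nat_lit 0xffffffffffff0000000000000000000000000000000000000000000000000000ffffffffffff0000000000000000000000000000000000000000000000000000ffffffffffff0000000000000000000000000000000000000000000000000000ffffffffffff0000000000000000000000000000000000000000000000000000ffffffffffff0000000000000000000000000000000000000000000000000000ffffffffffff0000000000000000000000000000000000000000000000000000ffffffffffff0000000000000000000000000000000000000000000000000000ffffffffffff0000000000000000000000000000000000000000000000000000ffffffffffff0000000000000000000000000000000000000000000000000000ffffffffffff0000000000000000000000000000000000000000000000000000ffffffffffff0000000000000000000000000000000000000000000000000000ffffffffffff0000000000000000000000000000000000000000000000000000ffffffffffff0000000000000000000000000000000000000000000000000000ffffffffffff0000000000000000000000000000000000000000000000000000ffffffffffff0000000000000000000000000000000000000000000000000000ffffffffffff0000000000000000000000000000000000000000000000000000ffffffffffff0000000000000000000000000000000000000000000000000000ffffffffffff0000000000000000000000000000000000000000000000000000fff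fffffffff0000000000000000000000000000000000000000000000000000ffffffffffff0000000000000000000000000000000000000000000000000000ffffffffffff0000000000000000000000000000000000000000000000000000ffffffffffff0000000000000000000000000000000000000000000000000000ffffffffffff0000000000000000000000000000000000000000000000000000ffffffffffff0000000000000000000000000000000000000000000000000000ffffffffffff0000000000000000000000000000000000000000000000000000ffffffffffff0000000000000000000000000000000000000000000000000000ffffffffffff0000000000000000000000000000000000000000000000000000ffffffffffff0000000000000000000000000000000000000000000000000000ffffffffffff0000000000000000000000000000000000000000000000000000ffffffffffff0000000000000000000000000000000000000000000000000000ffffffffffff0000000000000000000000000000000000000000000000000000ffffffffffff0000000000000000000000000000000000000000000000000000ffffffffffff0000000000000000000000000000000000000000000000000000ffffffffffff0000000000000000000000000000000000000000000000000000ffffffffffff0000000000000000000000000000000000000000000000000000ffffffffffff0000000000000000000000000000000000000000000000000000ffffffffffff0000000000000000000000000000000000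000000000000000000ffffffffffff0000000000000000000000000000000000000000000000000000ffffffffffff0000000000000000000000000000000000000000000000000000ffffffffffff0000000000000000000000000000000000000000000000000000ffffffffffff0000000000000000000000000000000000000000000000000000ffffffffffff0000000000000000000000000000000000000000000000000000ffffffffffff0000000000000000000000000000000000000000000000000000ffffffffffff0000000000000000000000000000000000000000000000000000ffffffffffff0000000000000000000000000000000000000000000000000000ffffffffffff0000000000000000000000000000000000000000000000000000ffffffffffff0000000000000000000000000000000000000000000000000000ffffffffffff0000000000000000000000000000000000000000000000000000ffffffffffff0000000000000000000000000000000000000000000000000000ffffffffffff0000000000000000000000000000000000000000000000000000ffffffffffff0000000000000000000000000000000000000000000000000000ffffffffffff0000000000000000000000000000000000000000000000000000ffffffffffff0000000000000000000000000000000000000000000000000000ffffffffffff0000000000000000000000000000000000000000000000000000ffffffffffff0000000000000000000000000000000000000000000000000000ffffffffffff0000000000000000000000000000000000000000000000000000ffffffffffff0000000000000000000000000000000000000000000000000000ffffffffffff0000000000000000000000000000000000000000000000000000ffffffffffff0000000000000000000000000000000000000000000000000000ffffffffffff0000000000000000000000000000000000000000000000000000ffffffffffff0000000000000000000000000000000000000000000000000000ffffffffffff0000000000000000000000000000000000000000000000000000ffffffffffff0000000000000000000000000000000000000000000000000000ffffffffffff,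 nat_lit 80) <|
  List.cons (nat_lit 0xffffff00000000000000000000000000ffffff00000000000000000000000000ffffff00000000000000000000000000ffffff00000000000000000000000000ffffff00000000000000000000000000ffffff00000000000000000000000000ffffff00000000000000000000000000ffffff00000000000000000000000000ffffff00000000000000000000000000ffffff00000000000000000000000000ffffff00000000000000000000000000ffffff00000000000000000000000000ffffff00000000000000000000000000ffffff00000000000000000000000000ffffff00000000000000000000000000ffffff00000000000000000000000000ffffff00000000000000000000000000ffffff00000000000000000000000000ffffff00000000000000000000000000ffffff00000000000000000000000000ffffff00000000000000000000000000ffffff00000000000000000000000000ffffff00000000000000000000000000ffffff00000000000000000000000000ffffff00000000000000000000000000ffffff00000000000000000000000000ffffff00000000000000000000000000ffffff00000000000000000000000000ffffff00000000000000000000000000ffffff00000000000000000000000000ffffff00000000000000000000000000ffffff00000000000000000000000000ffffff00000000000000000000000000ffffff00000000000000000000000000ffffff00000000000000000000000000ffffff00000000000000000000000000ffff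ff00000000000000000000000000ffffff00000000000000000000000000ffffff00000000000000000000000000ffffff00000000000000000000000000ffffff00000000000000000000000000ffffff00000000000000000000000000ffffff00000000000000000000000000ffffff00000000000000000000000000ffffff00000000000000000000000000ffffff00000000000000000000000000ffffff00000000000000000000000000ffffff00000000000000000000000000ffffff00000000000000000000000000ffffff00000000000000000000000000ffffff00000000000000000000000000ffffff00000000000000000000000000ffffff00000000000000000000000000ffffff00000000000000000000000000ffffff00000000000000000000000000ffffff00000000000000000000000000ffffff00000000000000000000000000ffffff00000000000000000000000000ffffff00000000000000000000000000ffffff00000000000000000000000000ffffff00000000000000000000000000ffffff00000000000000000000000000ffffff00000000000000000000000000ffffff00000000000000000000000000ffffff00000000000000000000000000ffffff00000000000000000000000000ffffff00000000000000000000000000ffffff00000000000000000000000000ffffff00000000000000000000000000ffffff00000000000000000000000000ffffff00000000000000000000000000ffffff00000000000000000000000000ffffff00000000000000000000000000ffffff000000000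00000000000000000ffffff00000000000000000000000000ffffff00000000000000000000000000ffffff00000000000000000000000000ffffff00000000000000000000000000ffffff00000000000000000000000000ffffff00000000000000000000000000ffffff00000000000000000000000000ffffff00000000000000000000000000ffffff00000000000000000000000000ffffff00000000000000000000000000ffffff00000000000000000000000000ffffff00000000000000000000000000ffffff00000000000000000000000000ffffff00000000000000000000000000ffffff00000000000000000000000000ffffff00000000000000000000000000ffffff00000000000000000000000000ffffff00000000000000000000000000ffffff00000000000000000000000000ffffff00000000000000000000000000ffffff00000000000000000000000000ffffff00000000000000000000000000ffffff00000000000000000000000000ffffff00000000000000000000000000ffffff00000000000000000000000000ffffff00000000000000000000000000ffffff00000000000000000000000000ffffff00000000000000000000000000ffffff00000000000000000000000000ffffff00000000000000000000000000ffffff00000000000000000000000000ffffff00000000000000000000000000ffffff00000000000000000000000000ffffff00000000000000000000000000ffffff00000000000000000000000000ffffff00000000000000000000000000ffffff00000000000000000000000000ffffff00000000000000000000000000ffffff00000000000000000000000000ffffff00000000000000000000000000ffffff00000000000000000000000000ffffff00000000000000000000000000ffffff00000000000000000000000000ffffff00000000000000000000000000ffffff00000000000000000000000000ffffff00000000000000000000000000ffffff00000000000000000000000000ffffff00000000000000000000000000ffffff00000000000000000000000000ffffff00000000000000000000000000ffffff00000000000000000000000000ffffff00000000000000000000000000ffffff00000000000000000000000000ffffff,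 nat_lit 40) <|
  List.nil

/-- constant lanes of the tail -/
def CA : Nat := nat_lit 0x100000000000000010000000000000001000000000000000100000000000000010000000000000001000000000000000100000000000000000000000000000001000000000000000100000000000000010000000000000001000000000000000100000000000000010000000000000001000000000000000100000000000000000000000000000001000000000000000100000000000000010000000000000001000000000000000100000000000000010000000000000001000000000000000100000000000000010000000000000001000000000000000100000000000000010000000000000000000000000000000100000000000000010000000000000001000000000000000100000000000000010000000000000001000000000000000100000000000000010000000000000000000000000000000100000000000000010000000000000001000000000000000100000000000000010000000000000001000000000000000100000000000000010000000000000001000000000000000100000000000000010000000000000001000000000000000000000000000000010000000000000001000000000000000100000000000000010000000000000001000000000000000100000000000000010000000000000001000000000000000000000000000000010000000000000001000000000000000100000000000000010000000000000001000000000000000100000000000000010000000000000001000000000000000100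0000000000000100000000000000010000000000000001000000000000000000000000000000010000000000000001000000000000000100000000000000010000000000000001000000000000000100000000000000010000000000000001000000000000000000000000000000010000000000000001000000000000000100000000000000010000000000000001000000000000000100000000000000010000000000000001000000000000000100000000000000010000000000000001000000000000000100000000000000000000000000000001000000000000000100000000000000010000000000000001000000000000000100000000000000010000000000000001000000000000000100000000000000000000000000000001000000000000000100000000000000010000000000000001000000000000000100000000000000010000000000000001000000000000000100000000000000010000000000000001000000000000000100000000000000010000000000000000000000000000000100000000000000010000000000000001000000000000000100000000000000010000000000000001000000000000000100000000000000010000000000000000000000000000000100000000000000010000000000000001000000000000000100000000000000010000000000000001000000000000000100000000000000010000000000000001000000000000000100000000000000010000000000000001000000000000000000000000000000010000000000000001000000000000000100000000000000010000000000000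0010000000000000001000000000000000100000000000000010000000000000000000000000000000100000000000000010000000000000001000000000000000100000000000000010000000000000001000000000000000100000000000000010000000000000001000000000000000100000000000000010000000000000001000000000000000000000000000000010000000000000001000000000000000100000000000000010000000000000001000000000000000100000000000000010000000000000001000000000000000000000000000000010000000000000001000000000000000100000000000000010000000000000001000000000000000100000000000000010000000000000001000000000000000100000000000000010000000000000001000000000000000100000000000000000000000000000001000000000000000100000000000000010000000000000001000000000000000100000000000000010000000000000001000000000000000100000000000000000000000000000001000000000000000100000000000000010000000000000001000000000000000100000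

/-- tail of the exponential lanes -/
def TV : Nat := nat_lit 0x40000000000000000000000000000000000000000000000000000000000000000000000000000000000000000000000000000000000000000000000000000000000000000000000040000000000000000000000000000000000000000000000000000000000000000000000000000000000000000000000000000000000000000000000000000000000000000000000000000000000000000000000000000000000000000000000000000000000000002000000000000000000000000000000000000000000000000000000000000000000000000000000000000000000000000000000000000000000000000000000000000000000000002000000000000000000000000000000000000000000000000000000000000000000000000000000000000000000000000000000000000000000000000000000000000000000000000000000000000000000000000000000000000000000000000000000000000000100000000000000000000000000000000000000000000000000000000000000000000000000000000000000000000000000000000000000000000000000000000000000000000000100000000000000000000000000000000000000000000000000000000000000000000000000000000000000000000000000000000000000000000000000000000000000000000000000000000000000000000000000000000000000000000000000000000000000008000000000000000000000000000000000000000000000000000000000000000000000000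0000000000000000000000000000000000000000000000000000000000000000000000080000000000000000000000000000000000000000000000000000000000000000000000000000000000000000000000000000000000000000000000000000000000000000000000000000000000000000000000000000000000000000000000000000000000000004000000000000000000000000000000000000000000000000000000000000000000000000000000000000000000000000000000000000000000000000000000000000000000000004000000000000000000000000000000000000000000000000000000000000000000000000000000000000000000000000000000000000000000000000000000000000000000000000000000000000000000000000000000000000000000000000000000000000000200000000000000000000000000000000000000000000000000000000000000000000000000000000000000000000000000000000000000000000000000000000000000000000000200000000000000000000000000000000000000000000000000000000000000000000000000000000000000000000000000000000000000000000000000000000000000000000000000000000000000000000000000000000000000000000000000000000000000010000000000000000000000000000000000000000000000000000000000000000000000000000000000000000000000000000000000000000000000000000000000000000000000010000000000000000000000000000000000000000000000000000000000000000000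00000000000000000000000000000000000000000000000000000000000000000000000000000000000000000000000000000000000000000000000000000000000000000000080000000000000000000000000000000000000000000000000000000000000000000000000000000000000000000000000000000000000000000000000000000000000000000000080000000000000000000000000000000000000000000000000000000000000000000000000000000000000000000000000000000000000000000000000000000000000000000000000000000000000000000000000000000000000000000000000000000000000004000000000000000000000000000000000000000000000000000000000000000000000000000000000000000000000000000000000000000000000000000000000000000000000004000000000000000000000000000000000000000000000000000000000000000000000000000000000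

/-- top bits of 176 lanes -/
def BI176 : Nat := nat_lit 0x8000000000000000800000000000000080000000000000008000000000000000800000000000000080000000000000008000000000000000800000000000000080000000000000008000000000000000800000000000000080000000000000008000000000000000800000000000000080000000000000008000000000000000800000000000000080000000000000008000000000000000800000000000000080000000000000008000000000000000800000000000000080000000000000008000000000000000800000000000000080000000000000008000000000000000800000000000000080000000000000008000000000000000800000000000000080000000000000008000000000000000800000000000000080000000000000008000000000000000800000000000000080000000000000008000000000000000800000000000000080000000000000008000000000000000800000000000000080000000000000008000000000000000800000000000000080000000000000008000000000000000800000000000000080000000000000008000000000000000800000000000000080000000000000008000000000000000800000000000000080000000000000008000000000000000800000000000000080000000000000008000000000000000800000000000000080000000000000008000000000000000800000000000000080000000000000008000000000000000800000000000000080000000000000008000000000000000800000000000000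0800000000000000080000000000000008000000000000000800000000000000080000000000000008000000000000000800000000000000080000000000000008000000000000000800000000000000080000000000000008000000000000000800000000000000080000000000000008000000000000000800000000000000080000000000000008000000000000000800000000000000080000000000000008000000000000000800000000000000080000000000000008000000000000000800000000000000080000000000000008000000000000000800000000000000080000000000000008000000000000000800000000000000080000000000000008000000000000000800000000000000080000000000000008000000000000000800000000000000080000000000000008000000000000000800000000000000080000000000000008000000000000000800000000000000080000000000000008000000000000000800000000000000080000000000000008000000000000000800000000000000080000000000000008000000000000000800000000000000080000000000000008000000000000000800000000000000080000000000000008000000000000000800000000000000080000000000000008000000000000000800000000000000080000000000000008000000000000000800000000000000080000000000000008000000000000000800000000000000080000000000000008000000000000000800000000000000080000000000000008000000000000000800000000000000080000000000000008000000000000000800000000000000080000000000000008000000000000000800000000000000080000000000000008000000000000000800000000000000080000000000000008000000000000000800000000000000080000000000000008000000000000000800000000000000080000000000000008000000000000000800000000000000080000000000000008000000000000000800000000000000080000000000000008000000000000000800000000000000080000000000000008000000000000000800000000000000080000000000000008000000000000000800000000000000080000000000000008000000000000000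

/-- top bits of 22 lanes -/
def BI22 : Nat := nat_lit 0x8000000000000000800000000000000080000000000000008000000000000000800000000000000080000000000000008000000000000000800000000000000080000000000000008000000000000000800000000000000080000000000000008000000000000000800000000000000080000000000000008000000000000000800000000000000080000000000000008000000000000000800000000000000080000000000000008000000000000000

/-- 2^(64*176) -/
def M176 : Nat := nat_lit 0x10000000000000000000000000000000000000000000000000000000000000000000000000000000000000000000000000000000000000000000000000000000000000000000000000000000000000000000000000000000000000000000000000000000000000000000000000000000000000000000000000000000000000000000000000000000000000000000000000000000000000000000000000000000000000000000000000000000000000000000000000000000000000000000000000000000000000000000000000000000000000000000000000000000000000000000000000000000000000000000000000000000000000000000000000000000000000000000000000000000000000000000000000000000000000000000000000000000000000000000000000000000000000000000000000000000000000000000000000000000000000000000000000000000000000000000000000000000000000000000000000000000000000000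0000000000000000000000000000000000000000000000000000000000000000000000000000000000000000000000000000000000000000000000000000000000000000000000000000000000000000000000000000000000000000000000000000000000000000000000000000000000000000000000000000000000000000000000000000000000000000000000000000000000000000000000000000000000000000000000000000000000000000000000000000000000000000000000000000000000000000000000000000000000000000000000000000000000000000000000000000000000000000000000000000000000000000000000000000000000000000000000000000000000000000000000000000000000000000000000000000000000000000000000000000000000000000000000000000000000000000000000000000000000000000000000000000000000000000000000000000000000000000000000000000000000000000000000000000000000000000000000000000000000000000000000000000000000000000000000000000000000000000000000000000000000000000000000000000000000000000000000000000000000000000000000000000000000000000000000000000000000000000000000000000000000000000000000000000000000000000000000000000000000000000000000000000000000000000000000000000000000000000000000000000000000000000000000000000000000000000000000000000000000000000000000000000000000000000000000000000000000000000000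000000000000000000000000000000000000000000000000000000000000000000000000000000000000000000000000000000000000000000000000000000000000000000000000000000000000000000000000000000000000000000000000000000000000000000000000000000000000000000000000000000000000000000000000000000000000000000000000000000000000000000000000000000000000000000000000000000000000000000000000000000000000000000000000000000000000000000000000000000000000000000000000000000000000000000000000000000000000000000000000000000000000000000000000000000000000000000000000000000000000000000000000000000000000000000000000000000000000000000000000000000000000000000000000000000000000000000000000000000000000000000000000000000000000000000000000000000000000000000000000000000000000000000000000000000000000000000000000000000000000000000000000000000000000000000000000000000000000000000000000000000000000000000000000000000000000000000000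

/-- 2^(64*22) -/
def M22 : Nat := nat_lit 0x10000000000000000000000000000000000000000000000000000000000000000000000000000000000000000000000000000000000000000000000000000000000000000000000000000000000000000000000000000000000000000000000000000000000000000000000000000000000000000000000000000000000000000000000000000000000000000000000000000000000000000000000000000000000000000000000000000000000000000

/-- mask of 24 bits in 176 lanes -/
def LM : Nat := nat_lit 0xffffff0000000000ffffff0000000000ffffff0000000000ffffff0000000000ffffff0000000000ffffff0000000000ffffff0000000000ffffff0000000000ffffff0000000000ffffff0000000000ffffff0000000000ffffff0000000000ffffff0000000000ffffff0000000000ffffff0000000000ffffff0000000000ffffff0000000000ffffff0000000000ffffff0000000000ffffff0000000000ffffff0000000000ffffff0000000000ffffff0000000000ffffff0000000000ffffff0000000000ffffff0000000000ffffff0000000000ffffff0000000000ffffff0000000000ffffff0000000000ffffff0000000000ffffff0000000000ffffff0000000000ffffff0000000000ffffff0000000000ffffff0000000000ffffff0000000000ffffff0000000000ffffff0000000000ffffff0000000000ffffff0000000000ffffff0000000000ffffff0000000000ffffff0000000000ffffff0000000000ffffff000000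0000ffffff0000000000ffffff0000000000ffffff0000000000ffffff0000000000ffffff0000000000ffffff0000000000ffffff0000000000ffffff0000000000ffffff0000000000ffffff0000000000ffffff0000000000ffffff0000000000ffffff0000000000ffffff0000000000ffffff0000000000ffffff0000000000ffffff0000000000ffffff0000000000ffffff0000000000ffffff0000000000ffffff0000000000ffffff0000000000ffffff0000000000ffffff0000000000ffffff0000000000ffffff0000000000ffffff0000000000ffffff0000000000ffffff0000000000ffffff0000000000ffffff0000000000ffffff0000000000ffffff0000000000ffffff0000000000ffffff0000000000ffffff0000000000ffffff0000000000ffffff0000000000ffffff0000000000ffffff0000000000ffffff0000000000ffffff0000000000ffffff0000000000ffffff0000000000ffffff0000000000ffffff0000000000ffffff0000000000ffffff0000000000ffffff0000000000ffffff0000000000ffffff0000000000ffffff0000000000ffffff0000000000ffffff0000000000ffffff0000000000ffffff0000000000ffffff0000000000ffffff0000000000ffffff0000000000ffffff0000000000ffffff0000000000ffffff0000000000ffffff0000000000ffffff0000000000ffffff0000000000ffffff0000000000ffffff0000000000ffffff0000000000ffffff0000000000ffffff0000000000ffffff0000000000ffffff0000000000ffffff0000000000ffffff0000000000ffffff0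000000000ffffff0000000000ffffff0000000000ffffff0000000000ffffff0000000000ffffff0000000000ffffff0000000000ffffff0000000000ffffff0000000000ffffff0000000000ffffff0000000000ffffff0000000000ffffff0000000000ffffff0000000000ffffff0000000000ffffff0000000000ffffff0000000000ffffff0000000000ffffff0000000000ffffff0000000000ffffff0000000000ffffff0000000000ffffff0000000000ffffff0000000000ffffff0000000000ffffff0000000000ffffff0000000000ffffff0000000000ffffff0000000000ffffff0000000000ffffff0000000000ffffff0000000000ffffff0000000000ffffff0000000000ffffff0000000000ffffff0000000000ffffff0000000000ffffff0000000000ffffff0000000000ffffff0000000000ffffff0000000000ffffff0000000000ffffff0000000000ffffff0000000000ffffff0000000000ffffff0000000000ffffff0000000000ffffff0000000000ffffff0000000000ffffff0000000000ffffff0000000000ffffff0000000000ffffff0000000000ffffff0000000000ffffff0000000000ffffff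

/-- mask of the value vectors -/
def XM : Nat := nat_lit 0x3ffffffff00000003ffffffff00000003ffffffff00000003ffffffff00000003ffffffff00000003ffffffff00000003ffffffff00000003ffffffff00000003ffffffff00000003ffffffff00000003ffffffff00000003ffffffff00000003ffffffff00000003ffffffff00000003ffffffff00000003ffffffff00000003ffffffff00000003ffffffff00000003ffffffff00000003ffffffff00000003ffffffff00000003ffffffff00000003ffffffff00000003ffffffff00000003ffffffff00000003ffffffff00000003ffffffff00000003ffffffff00000003ffffffff00000003ffffffff00000003ffffffff00000003ffffffff00000003ffffffff00000003ffffffff00000003ffffffff00000003ffffffff00000003ffffffff00000003ffffffff00000003ffffffff00000003ffffffff00000003ffffffff00000003ffffffff00000003ffffffff00000003ffffffff00000003ffffffff00000003ffffffff00000003ffffffff00000003ffffffff00000003ffffffff00000003ffffffff00000003ffffffff00000003ffffffff00000003ffffffff00000003ffffffff00000003ffffffff00000003ffffffff00000003ffffffff00000003ffffffff00000003ffffffff00000003ffffffff00000003ffffffff00000003ffffffff00000003ffffffff00000003ffffffff00000003ffffffff00000003ffffffff00000003ffffffff00000003ffffffff00000003ffffffff00000003ffffffff00000003ffffffff00000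003ffffffff00000003ffffffff00000003ffffffff00000003ffffffff00000003ffffffff00000003ffffffff00000003ffffffff00000003ffffffff00000003ffffffff00000003ffffffff00000003ffffffff00000003ffffffff00000003ffffffff00000003ffffffff00000003ffffffff00000003ffffffff00000003ffffffff00000003ffffffff00000003ffffffff00000003ffffffff00000003ffffffff00000003ffffffff00000003ffffffff00000003ffffffff00000003ffffffff00000003ffffffff00000003ffffffff00000003ffffffff00000003ffffffff00000003ffffffff00000003ffffffff00000003ffffffff00000003ffffffff00000003ffffffff00000003ffffffff00000003ffffffff00000003ffffffff00000003ffffffff00000003ffffffff00000003ffffffff00000003ffffffff00000003ffffffff00000003ffffffff00000003ffffffff00000003ffffffff00000003ffffffff00000003ffffffff00000003ffffffff00000003ffffffff00000003ffffffff00000003ffffffff00000003ffffffff00000003ffffffff00000003ffffffff00000003ffffffff00000003ffffffff00000003ffffffff00000003ffffffff00000003ffffffff00000003ffffffff00000003ffffffff00000003ffffffff00000003ffffffff00000003ffffffff00000003ffffffff00000003ffffffff00000003ffffffff00000003ffffffff00000003ffffffff00000003ffffffff00000003ffffffff00000003ffffffff00000003ffffffff00000003ffffffff00000003ffffffff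00000003ffffffff00000003ffffffff00000003ffffffff00000003ffffffff00000003ffffffff00000003ffffffff00000003ffffffff00000003ffffffff00000003ffffffff00000003ffffffff00000003ffffffff00000003ffffffff00000003ffffffff00000003ffffffff00000003ffffffff00000003ffffffff00000003ffffffff00000003ffffffff00000003ffffffff00000003ffffffff00000003ffffffff00000003ffffffff00000003ffffffff00000003ffffffff00000003ffffffff00000003ffffffff00000003ffffffff00000003ffffffff00000003ffffffff00000003ffffffff00000003ffffffff00000003ffffffff00000003ffffffff00000003ffffffff00000003ffffffff00000003ffffffff00000003ffffffff00000003ffffffff00000003ffffffff00000003ffffffff00000003ffffffff00000003ffffffff00000003ffffffff00000003ffffffff00000003ffffffff00000003ffffffff00000003ffffffff00000003ffffffff00000003ffffffff00000003ffffffff00000003ffffffff00000003ffffffff0000000000ffffff0000000000ffffff0000000000ffffff0000000000ffffff0000000000ffffff0000000000ffffff0000000000ffffff0000000000ffffff0000000000ffffff0000000000ffffff0000000000ffffff0000000000ffffff0000000000ffffff0000000000ffffff0000000000ffffff0000000000ffffff0000000000ffffff0000000000ffffff0000000000ffffff0000000000ffffff0000000000ffffff0000000000ffffff0000000000f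fffff0000000000ffffff0000000000ffffff0000000000ffffff0000000000ffffff0000000000ffffff0000000000ffffff0000000000ffffff0000000000ffffff0000000000ffffff0000000000ffffff0000000000ffffff0000000000ffffff0000000000ffffff0000000000ffffff0000000000ffffff0000000000ffffff0000000000ffffff0000000000ffffff0000000000ffffff0000000000ffffff0000000000ffffff0000000000ffffff0000000000ffffff0000000000ffffff0000000000ffffff0000000000ffffff0000000000ffffff0000000000ffffff0000000000ffffff0000000000ffffff0000000000ffffff0000000000ffffff0000000000ffffff0000000000ffffff0000000000ffffff0000000000ffffff0000000000ffffff0000000000ffffff0000000000ffffff0000000000ffffff0000000000ffffff0000000000ffffff0000000000ffffff0000000000ffffff0000000000ffffff0000000000ffffff0000000000ffffff0000000000ffffff0000000000ffffff0000000000ffffff0000000000ffffff0000000000ffffff0000000000ffffff0000000000ffffff0000000000ffffff0000000000ffffff0000000000ffffff0000000000ffffff0000000000ffffff0000000000ffffff0000000000ffffff0000000000ffffff0000000000ffffff0000000000ffffff0000000000ffffff0000000000ffffff0000000000ffffff0000000000ffffff0000000000ffffff0000000000ffffff0000000000ffffff0000000000ffffff0000000000ffffff0000000000ffffff000000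0000ffffff0000000000ffffff0000000000ffffff0000000000ffffff0000000000ffffff0000000000ffffff0000000000ffffff0000000000ffffff0000000000ffffff0000000000ffffff0000000000ffffff0000000000ffffff0000000000ffffff0000000000ffffff0000000000ffffff0000000000ffffff0000000000ffffff0000000000ffffff0000000000ffffff0000000000ffffff0000000000ffffff0000000000ffffff0000000000ffffff0000000000ffffff0000000000ffffff0000000000ffffff0000000000ffffff0000000000ffffff0000000000ffffff0000000000ffffff0000000000ffffff0000000000ffffff0000000000ffffff0000000000ffffff0000000000ffffff0000000000ffffff0000000000ffffff0000000000ffffff0000000000ffffff0000000000ffffff0000000000ffffff0000000000ffffff0000000000ffffff0000000000ffffff0000000000ffffff0000000000ffffff0000000000ffffff0000000000ffffff0000000000ffffff0000000000ffffff0000000000ffffff0000000000ffffff0000000000ffffff0000000000ffffff0000000000ffffff0000000000ffffff0000000000ffffff0000000000ffffff0000000000ffffff0000000000ffffff0000000000ffffff0000000000ffffff0000000000ffffff0000000000ffffff0000000000ffffff0000000000ffffff0000000000ffffff0000000000ffffff0000000000ffffff0000000000ffffff0000000000ffffff0000000000ffffff0000000000ffffff0000000000ffffff0000000000ffffff0000000000ffffff0000000000ffffff0000000000ffffff0000000000ffffff0000000000ffffff0000000000ffffff0000000000ffffff0000000000ffffff0000000000ffffff0000000000ffffff0000000000ffffff0000000000ffffff0000000000ffffff0000000000ffffff0000000000ffffff0000000000ffffff0000000000ffffff0000000000ffffff0000000000ffffff0000000000ffffff0000000000ffffff0000000000ffffff0000000000ffffff0000000000ffffff0000000000ffffff0000000000ffffff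

/-- mask of the shifted lanes -/
def MA : Nat := nat_lit 0xffffffffffffffffffffffffffffffff0000000000000000ffffffffffffffffffffffffffffffffffffffffffffffff00000000000000000000000000000000ffffffffffffffffffffffffffffffff0000000000000000ffffffffffffffffffffffffffffffffffffffffffffffffffffffffffffffff00000000000000000000000000000000ffffffffffffffffffffffffffffffffffffffffffffffffffffffffffffffff0000000000000000ffffffffffffffffffffffffffffffff0000000000000000ffffffffffffffffffffffffffffffffffffffffffffffff00000000000000000000000000000000ffffffffffffffffffffffffffffffff0000000000000000ffffffffffffffffffffffffffffffffffffffffffffffffffffffffffffffff00000000000000000000000000000000ffffffffffffffffffffffffffffffffffffffffffffffffffffffffffffffff0000000000000000ffffffffffffffffffffffffffffffff0000000000000000ffffffffffffffffffffffffffffffffffffffffffffffff00000000000000000000000000000000ffffffffffffffffffffffffffffffff0000000000000000ffffffffffffffffffffffffffffffffffffffffffffffffffffffffffffffff00000000000000000000000000000000ffffffffffffffffffffffffffffffffffffffffffffffffffffffffffffffff0000000000000000ffffffffffffffffffffffffffffffff0000000000000000ffffffffffffffffffffffffffffff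ffffffffffffffffff00000000000000000000000000000000ffffffffffffffffffffffffffffffff0000000000000000ffffffffffffffffffffffffffffffffffffffffffffffffffffffffffffffff00000000000000000000000000000000ffffffffffffffffffffffffffffffffffffffffffffffffffffffffffffffff0000000000000000ffffffffffffffffffffffffffffffff0000000000000000ffffffffffffffffffffffffffffffffffffffffffffffff00000000000000000000000000000000ffffffffffffffffffffffffffffffff0000000000000000ffffffffffffffffffffffffffffffffffffffffffffffffffffffffffffffff00000000000000000000000000000000ffffffffffffffffffffffffffffffffffffffffffffffffffffffffffffffff0000000000000000ffffffffffffffffffffffffffffffff0000000000000000ffffffffffffffffffffffffffffffffffffffffffffffff00000000000000000000000000000000ffffffffffffffffffffffffffffffff0000000000000000ffffffffffffffffffffffffffffffffffffffffffffffffffffffffffffffff00000000000000000000000000000000ffffffffffffffffffffffffffffffffffffffffffffffffffffffffffffffff0000000000000000ffffffffffffffffffffffffffffffff0000000000000000ffffffffffffffffffffffffffffffffffffffffffffffff00000000000000000000000000000000ffffffffffffffffffffffffffffffff0000000000000000ffffffffffffffffffffffffffffffffffffffffffffffffffffffffffffffff00000000000000000000000000000000ffffffffffffffffffffffffffffffffffffffffffffffffffffffffffffffff0000000000000000ffffffffffffffffffffffffffffffff0000000000000000ffffffffffffffffffffffffffffffffffffffffffffffff00000000000000000000000000000000ffffffffffffffffffffffffffffffff0000000000000000ffffffffffffffffffffffffffffffffffffffffffffffffffffffffffffffff00000000000000000000000000000000ffffffffffffffffffffffffffffffffffffffffffffffffffffffffffffffff0000000000000000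

/-- mask of the exponential lanes -/
def MP : Nat := nat_lit 0xffffffffffffffff00000000000000000000000000000000000000000000000000000000000000000000000000000000000000000000000000000000000000000000000000000000ffffffffffffffff000000000000000000000000000000000000000000000000000000000000000000000000000000000000000000000000000000000000000000000000000000000000000000000000000000000000000000000000000000000000000000000000ffffffffffffffff00000000000000000000000000000000000000000000000000000000000000000000000000000000000000000000000000000000000000000000000000000000ffffffffffffffff000000000000000000000000000000000000000000000000000000000000000000000000000000000000000000000000000000000000000000000000000000000000000000000000000000000000000000000000000000000000000000000000ffffffffffffffff00000000000000000000000000000000000000000000000000000000000000000000000000000000000000000000000000000000000000000000000000000000ffffffffffffffff000000000000000000000000000000000000000000000000000000000000000000000000000000000000000000000000000000000000000000000000000000000000000000000000000000000000000000000000000000000000000000000000ffffffffffffffff0000000000000000000000000000000000000000000000000000000000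0000000000000000000000000000000000000000000000000000000000000000000000ffffffffffffffff000000000000000000000000000000000000000000000000000000000000000000000000000000000000000000000000000000000000000000000000000000000000000000000000000000000000000000000000000000000000000000000000ffffffffffffffff00000000000000000000000000000000000000000000000000000000000000000000000000000000000000000000000000000000000000000000000000000000ffffffffffffffff000000000000000000000000000000000000000000000000000000000000000000000000000000000000000000000000000000000000000000000000000000000000000000000000000000000000000000000000000000000000000000000000ffffffffffffffff00000000000000000000000000000000000000000000000000000000000000000000000000000000000000000000000000000000000000000000000000000000ffffffffffffffff000000000000000000000000000000000000000000000000000000000000000000000000000000000000000000000000000000000000000000000000000000000000000000000000000000000000000000000000000000000000000000000000ffffffffffffffff00000000000000000000000000000000000000000000000000000000000000000000000000000000000000000000000000000000000000000000000000000000ffffffffffffffff000000000000000000000000000000000000000000000000000000000000000000000000000000000000000000000000000000000000000000000000000000000000000000000000000000000000000000000000000000000000000000000000ffffffffffffffff00000000000000000000000000000000000000000000000000000000000000000000000000000000000000000000000000000000000000000000000000000000ffffffffffffffff00000000000000000000000000000000000000000000000000000000000000000000000000000000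

/-- constants of the shift -/
def CA1 : Nat := nat_lit 0x10000000000000000000000000000000000000000000000000000000000000001000000000000000020000000000000000000000000000000000000000000000100000000000000000000000000000000000000000000000000000000000000000000000000000001000000000000000020000000000000000000000000000000000000000000000000000000000000000000000000000001000000000000000000000000000000000000000000000001000000000000000000000000000000000000000000000000000000000000000100000000000000002000000000000000000000000000000000000000000000010000000000000000000000000000000000000000000000000000000000000000000000000000000100000000000000002000000000000000000000000000000000000000000000000000000000000000000000000000000100000000000000000000000000000000000000000000000100000000000000000000000000000000000000000000000000000000000000010000000000000000200000000000000000000000000000000000000000000001000000000000000000000000000000000000000000000000000000000000000000000000000000010000000000000000200000000000000000000000000000000000000000000000000000000000000000000000000000010000000000000000000000000000000000000000000000010000000000000000000000000000000000000000000000000000000000000001000000000000000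020000000000000000000000000000000000000000000000100000000000000000000000000000000000000000000000000000000000000000000000000000001000000000000000020000000000000000000000000000000000000000000000000000000000000000000000000000001000000000000000000000000000000000000000000000001000000000000000000000000000000000000000000000000000000000000000100000000000000002000000000000000000000000000000000000000000000010000000000000000000000000000000000000000000000000000000000000000000000000000000100000000000000002000000000000000000000000000000000000000000000000000000000000000000000000000000100000000000000000000000000000000000000000000000100000000000000000000000000000000000000000000000000000000000000010000000000000000200000000000000000000000000000000000000000000001000000000000000000000000000000000000000000000000000000000000000000000000000000010000000000000000200000000000000000000000000000000000000000000000000000000000000000000000000000010000000000000000000000000000000000000000000000010000000000000000000000000000000000000000000000000000000000000001000000000000000020000000000000000000000000000000000000000000000100000000000000000000000000000000000000000000000000000000000000000000000000000001000000000000000020000000000000000000000000000000000000000000000000000000000000000000000000000001000000000000000000000000000000000000000000000001000000000000000000000000000000000000000000000000000000000000000100000000000000002000000000000000000000000000000000000000000000010000000000000000000000000000000000000000000000000000000000000000000000000000000100000000000000002000000000000000000000000000000000000000000000000000000000000000000000000000000100000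

/-- cap -/
def CAPA : Nat := nat_lit 0x100000000000000010000000000000001000000000000000100000000000000010000000000000001000000000000000100000000000000000000000000000001000000000000000100000000000000010000000000000001000000000000000100000000000000010000000000000001000000000000000100000000000000000000000000000001000000000000000100000000000000010000000000000001000000000000000100000

/-- cap of the exponential lanes -/
def CAPP : Nat := nat_lit 0x2000000000000000000000000000000000000000000000000000000000000000000000000000000000000000000000000000000000000000000000000000000000000000000000002000000000000000000000000000000000000000000000000000000000000000000000000000000000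

/-- values of the test functions at (0,s), packed -/
def HZ : List Nat :=
  List.cons (nat_lit 0) <| List.cons (nat_lit 0x3908000000000000000000000000000000000000000000000000000000000000558d0000000000000558d0000000000000000000000000000000000000000000558d0000000000000000000000000000000000000000000000000000000000000000000000000000558d0000000000000000000000000000000000000000000000000000000000000000000000000000000000000000000000000) <| List.cons (nat_lit 0x3908000000000000000000000000000000000000000000000000000000000000000000000000000003098000000000000000000000000000000000000000000030980000000000000000000000000000000000000000000000000000000000000000000000000000407a0000000000000000000000000000000000000000000000000000000000000000000000000000000000000000000000000) <| List.cons (nat_lit 0x2c1c00000000000000000000000000000000000000000002c1c00000000000000000000000000000000000000000000000000000000000000000000000000003d6e0000000000000000000000000000000000000000000000000000000000000000000000000000000000000000000000000) <| List.cons (nat_lit 0x137800000000000000000000000000000000000000000001378000000000000000000000000000000000000000000000000000000000000000000000000000028d00000000000000000000000000000000000000000000000000000000000000000000000000000000000000000000000000)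 <| List.cons (nat_lit 0x26c7000000000000000000000000000000000000000000026c7000000000000000000000000000000000000000000000000000000000000000000000000000039980000000000000000000000000000000000000000000000000000000000000000000000000000000000000000000000000) <| List.cons (nat_lit 0x65200000000000000000000000000000000000000000000652000000000000000000000000000000000000000000000000000000000000000000000000000017410000000000000000000000000000000000000000000000000000000000000000000000000000000000000000000000000) <| List.cons (nat_lit 0xd0000000000000000000000000000000000000000000000d0000000000000000000000000000000000000000000000000000000000000000000000000000008550000000000000000000000000000000000000000000000000000000000000000000000000000000000000000000000000) <| List.cons (nat_lit 0xdf500000000000000000000000000000000000000000000df50000000000000000000000000000000000000000000000000000000000000000000000000000228e0000000000000000000000000000000000000000000000000000000000000000000000000000000000000000000000000) <| List.cons (nat_lit 0x2d8000000000000000000000000000000000000000000002d800000000000000000000000000000000000000000000000000000000000000000000000000000f990000000000000000000000000000000000000000000000000000000000000000000000000000000000000000000000000)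 <| List.cons (nat_lit 0) <| List.nil

/-- weights of the types -/
def PT : List Nat :=
  List.cons (nat_lit 27) <| List.cons (nat_lit 20) <| List.cons (nat_lit 19) <| List.cons (nat_lit 19) <| List.cons (nat_lit 18) <| List.cons (nat_lit 19) <| List.cons (nat_lit 17) <| List.cons (nat_lit 17) <| List.cons (nat_lit 18) <| List.cons (nat_lit 17) <| List.cons (nat_lit 16) <| List.nil

/-- index of the test function (0 for the exponential ones) -/
def JT : List Nat :=
  List.cons (nat_lit 1) <| List.cons (nat_lit 2) <| List.cons (nat_lit 3) <| List.cons (nat_lit 4) <| List.cons (nat_lit 5) <| List.cons (nat_lit 0) <| List.cons (nat_lit 1) <| List.cons (nat_lit 2) <| List.cons (nat_lit 3) <| List.cons (nat_lit 4) <| List.cons (nat_lit 5) <| List.cons (nat_lit 1) <| List.cons (nat_lit 2) <| List.cons (nat_lit 3) <| List.cons (nat_lit 0) <| List.cons (nat_lit 1) <| List.cons (nat_lit 2) <| List.cons (nat_lit 3) <| List.cons (nat_lit 4) <| List.cons (nat_lit 1) <| List.cons (nat_lit 2) <| List.cons (nat_lit 3) <| List.nil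

/-- bonus of the test functions -/
def GV : List (List Nat) :=
  List.cons (List.cons (nat_lit 0) <| List.cons (nat_lit 0) <| List.cons (nat_lit 0) <| List.cons (nat_lit 0) <| List.cons (nat_lit 0) <| List.cons (nat_lit 0) <| List.cons (nat_lit 0) <| List.cons (nat_lit 0) <| List.cons (nat_lit 0) <| List.cons (nat_lit 0) <| List.cons (nat_lit 0) <| List.nil) <|
  List.cons (List.cons (nat_lit 0) <| List.cons (nat_lit 0) <| List.cons (nat_lit 0) <| List.cons (nat_lit 0) <| List.cons (nat_lit 0) <| List.cons (nat_lit 0) <| List.cons (nat_lit 0) <| List.cons (nat_lit 0) <| List.cons (nat_lit 0) <| List.cons (nat_lit 0) <| List.cons (nat_lit 0) <| List.nil) <|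
  List.cons (List.cons (nat_lit 0) <| List.cons (nat_lit 0) <| List.cons (nat_lit 0) <| List.cons (nat_lit 0) <| List.cons (nat_lit 0) <| List.cons (nat_lit 0) <| List.cons (nat_lit 0) <| List.cons (nat_lit 0) <| List.cons (nat_lit 0) <| List.cons (nat_lit 0) <| List.cons (nat_lit 0) <| List.nil) <|
  List.cons (List.cons (nat_lit 0) <| List.cons (nat_lit 0) <| List.cons (nat_lit 0) <| List.cons (nat_lit 0) <| List.cons (nat_lit 0) <| List.cons (nat_lit 0) <| List.cons (nat_lit 0) <| List.cons (nat_lit 0) <| List.cons (nat_lit 0) <| List.cons (nat_lit 0) <| List.cons (nat_lit 0) <| List.nil) <|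
  List.cons (List.cons (nat_lit 0) <| List.cons (nat_lit 0) <| List.cons (nat_lit 0) <| List.cons (nat_lit 0) <| List.cons (nat_lit 0) <| List.cons (nat_lit 0) <| List.cons (nat_lit 0) <| List.cons (nat_lit 0) <| List.cons (nat_lit 0) <| List.cons (nat_lit 0) <| List.cons (nat_lit 0) <| List.nil) <|
  List.cons (List.cons (nat_lit 0) <| List.cons (nat_lit 0) <| List.cons (nat_lit 0) <| List.cons (nat_lit 0) <| List.cons (nat_lit 0) <| List.cons (nat_lit 0) <| List.cons (nat_lit 0) <| List.cons (nat_lit 0) <| List.cons (nat_lit 0) <| List.cons (nat_lit 0) <| List.cons (nat_lit 0) <| List.nil) <|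
  List.cons (List.cons (nat_lit 0) <| List.cons (nat_lit 21901) <| List.cons (nat_lit 16506) <| List.cons (nat_lit 15726) <| List.cons (nat_lit 10448) <| List.cons (nat_lit 14744) <| List.cons (nat_lit 5953) <| List.cons (nat_lit 2133) <| List.cons (nat_lit 8846) <| List.cons (nat_lit 3993) <| List.cons (nat_lit 0) <| List.nil) <|
  List.cons (List.cons (nat_lit 0) <| List.cons (nat_lit 21901) <| List.cons (nat_lit 16506) <| List.cons (nat_lit 15726) <| List.cons (nat_lit 10448) <| List.cons (nat_lit 14744) <| List.cons (nat_lit 5953) <| List.cons (nat_lit 2133) <| List.cons (nat_lit 8846) <| List.cons (nat_lit 3993) <| List.cons (nat_lit 0) <| List.nil) <|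
  List.cons (List.cons (nat_lit 0) <| List.cons (nat_lit 21901) <| List.cons (nat_lit 16506) <| List.cons (nat_lit 15726) <| List.cons (nat_lit 10448) <| List.cons (nat_lit 14744) <| List.cons (nat_lit 5953) <| List.cons (nat_lit 2133) <| List.cons (nat_lit 8846) <| List.cons (nat_lit 3993) <| List.cons (nat_lit 0) <| List.nil) <|
  List.cons (List.cons (nat_lit 0) <| List.cons (nat_lit 21901) <| List.cons (nat_lit 16506) <| List.cons (nat_lit 15726) <| List.cons (nat_lit 10448) <| List.cons (nat_lit 14744) <| List.cons (nat_lit 5953) <| List.cons (nat_lit 2133) <| List.cons (nat_lit 8846) <| List.cons (nat_lit 3993) <| List.cons (nat_lit 0) <| List.nil) <|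
  List.cons (List.cons (nat_lit 0) <| List.cons (nat_lit 21901) <| List.cons (nat_lit 16506) <| List.cons (nat_lit 15726) <| List.cons (nat_lit 10448) <| List.cons (nat_lit 14744) <| List.cons (nat_lit 5953) <| List.cons (nat_lit 2133) <| List.cons (nat_lit 8846) <| List.cons (nat_lit 3993) <| List.cons (nat_lit 0) <| List.nil) <|
  List.cons (List.cons (nat_lit 0) <| List.cons (nat_lit 21901) <| List.cons (nat_lit 12440) <| List.cons (nat_lit 11292) <| List.cons (nat_lit 4984) <| List.cons (nat_lit 9927) <| List.cons (nat_lit 1618) <| List.cons (nat_lit 208) <| List.cons (nat_lit 3573) <| List.cons (nat_lit 728) <| List.cons (nat_lit 0) <| List.nil) <|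
  List.cons (List.cons (nat_lit 0) <| List.cons (nat_lit 21901) <| List.cons (nat_lit 12440) <| List.cons (nat_lit 11292) <| List.cons (nat_lit 4984) <| List.cons (nat_lit 9927) <| List.cons (nat_lit 1618) <| List.cons (nat_lit 208) <| List.cons (nat_lit 3573) <| List.cons (nat_lit 728) <| List.cons (nat_lit 0) <| List.nil) <|
  List.cons (List.cons (nat_lit 0) <| List.cons (nat_lit 21901) <| List.cons (nat_lit 12440) <| List.cons (nat_lit 11292) <| List.cons (nat_lit 4984) <| List.cons (nat_lit 9927) <| List.cons (nat_lit 1618) <| List.cons (nat_lit 208) <| List.cons (nat_lit 3573) <| List.cons (nat_lit 728) <| List.cons (nat_lit 0) <| List.nil) <|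
  List.cons (List.cons (nat_lit 0) <| List.cons (nat_lit 21901) <| List.cons (nat_lit 12440) <| List.cons (nat_lit 11292) <| List.cons (nat_lit 4984) <| List.cons (nat_lit 9927) <| List.cons (nat_lit 1618) <| List.cons (nat_lit 208) <| List.cons (nat_lit 3573) <| List.cons (nat_lit 728) <| List.cons (nat_lit 0) <| List.nil) <|
  List.cons (List.cons (nat_lit 0) <| List.cons (nat_lit 21901) <| List.cons (nat_lit 0) <| List.cons (nat_lit 0) <| List.cons (nat_lit 0) <| List.cons (nat_lit 0) <| List.cons (nat_lit 0) <| List.cons (nat_lit 0) <| List.cons (nat_lit 0) <| List.cons (nat_lit 0) <| List.cons (nat_lit 0) <| List.nil) <|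
  List.cons (List.cons (nat_lit 0) <| List.cons (nat_lit 21901) <| List.cons (nat_lit 0) <| List.cons (nat_lit 0) <| List.cons (nat_lit 0) <| List.cons (nat_lit 0) <| List.cons (nat_lit 0) <| List.cons (nat_lit 0) <| List.cons (nat_lit 0) <| List.cons (nat_lit 0) <| List.cons (nat_lit 0) <| List.nil) <|
  List.cons (List.cons (nat_lit 0) <| List.cons (nat_lit 21901) <| List.cons (nat_lit 0) <| List.cons (nat_lit 0) <| List.cons (nat_lit 0) <| List.cons (nat_lit 0) <| List.cons (nat_lit 0) <| List.cons (nat_lit 0) <| List.cons (nat_lit 0) <| List.cons (nat_lit 0) <| List.cons (nat_lit 0) <| List.nil) <|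
  List.cons (List.cons (nat_lit 0) <| List.cons (nat_lit 21901) <| List.cons (nat_lit 0) <| List.cons (nat_lit 0) <| List.cons (nat_lit 0) <| List.cons (nat_lit 0) <| List.cons (nat_lit 0) <| List.cons (nat_lit 0) <| List.cons (nat_lit 0) <| List.cons (nat_lit 0) <| List.cons (nat_lit 0) <| List.nil) <|
  List.cons (List.cons (nat_lit 0) <| List.cons (nat_lit 14600) <| List.cons (nat_lit 14600) <| List.cons (nat_lit 0) <| List.cons (nat_lit 0) <| List.cons (nat_lit 0) <| List.cons (nat_lit 0) <| List.cons (nat_lit 0) <| List.cons (nat_lit 0) <| List.cons (nat_lit 0) <| List.cons (nat_lit 0) <| List.nil) <|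
  List.cons (List.cons (nat_lit 0) <| List.cons (nat_lit 14600) <| List.cons (nat_lit 14600) <| List.cons (nat_lit 0) <| List.cons (nat_lit 0) <| List.cons (nat_lit 0) <| List.cons (nat_lit 0) <| List.cons (nat_lit 0) <| List.cons (nat_lit 0) <| List.cons (nat_lit 0) <| List.cons (nat_lit 0) <| List.nil) <|
  List.cons (List.cons (nat_lit 0) <| List.cons (nat_lit 14600) <| List.cons (nat_lit 14600) <| List.cons (nat_lit 0) <| List.cons (nat_lit 0) <| List.cons (nat_lit 0) <| List.cons (nat_lit 0) <| List.cons (nat_lit 0) <| List.cons (nat_lit 0) <| List.cons (nat_lit 0) <| List.cons (nat_lit 0) <| List.nil) <|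
  List.nil

/-- values at the start -/
def BR : List (List Nat) :=
  List.cons (List.cons (nat_lit 131072) <| List.cons (nat_lit 713490) <| List.cons (nat_lit 261883) <| List.cons (nat_lit 48224) <| List.cons (nat_lit 8878) <| List.cons (nat_lit 1846) <| List.cons (nat_lit 296307) <| List.cons (nat_lit 752726) <| List.cons (nat_lit 325137) <| List.cons (nat_lit 83246) <| List.cons (nat_lit 12645) <| List.cons (nat_lit 2342) <| List.cons (nat_lit 730945) <| List.cons (nat_lit 295603) <| List.cons (nat_lit 72684) <| List.cons (nat_lit 320928) <| List.cons (nat_lit 713490) <| List.cons (nat_lit 261883) <| List.cons (nat_lit 62241) <| List.cons (nat_lit 8878) <| List.cons (nat_lit 718656) <| List.cons (nat_lit 272852) <| List.cons (nat_lit 58334) <| List.nil) <|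
  List.cons (List.cons (nat_lit 131072) <| List.cons (nat_lit 500421) <| List.cons (nat_lit 62145) <| List.cons (nat_lit 11110) <| List.cons (nat_lit 1890) <| List.cons (nat_lit 430) <| List.cons (nat_lit 109151) <| List.cons (nat_lit 599944) <| List.cons (nat_lit 167385) <| List.cons (nat_lit 17073) <| List.cons (nat_lit 2654) <| List.cons (nat_lit 517) <| List.cons (nat_lit 561288) <| List.cons (nat_lit 152097) <| List.cons (nat_lit 13991) <| List.cons (nat_lit 131905) <| List.cons (nat_lit 500421) <| List.cons (nat_lit 132229) <| List.cons (nat_lit 11110) <| List.cons (nat_lit 1890) <| List.cons (nat_lit 538447) <| List.cons (nat_lit 111355) <| List.cons (nat_lit 11513) <| List.nil) <|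
  List.cons (List.cons (nat_lit 131072) <| List.cons (nat_lit 459490) <| List.cons (nat_lit 44506) <| List.cons (nat_lit 6872) <| List.cons (nat_lit 1051) <| List.cons (nat_lit 260) <| List.cons (nat_lit 87408) <| List.cons (nat_lit 572005) <| List.cons (nat_lit 131537) <| List.cons (nat_lit 11713) <| List.cons (nat_lit 1593) <| List.cons (nat_lit 308) <| List.cons (nat_lit 529996) <| List.cons (nat_lit 104453) <| List.cons (nat_lit 9311) <| List.cons (nat_lit 104724) <| List.cons (nat_lit 459490) <| List.cons (nat_lit 44506) <| List.cons (nat_lit 6872) <| List.cons (nat_lit 1051) <| List.cons (nat_lit 507505) <| List.cons (nat_lit 97907) <| List.cons (nat_lit 7265) <| List.nil) <|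
  List.cons (List.cons (nat_lit 131072) <| List.cons (nat_lit 452559) <| List.cons (nat_lit 42193) <| List.cons (nat_lit 6323) <| List.cons (nat_lit 944) <| List.cons (nat_lit 241) <| List.cons (nat_lit 84375) <| List.cons (nat_lit 544202) <| List.cons (nat_lit 118117) <| List.cons (nat_lit 9831) <| List.cons (nat_lit 1321) <| List.cons (nat_lit 273) <| List.cons (nat_lit 500567) <| List.cons (nat_lit 90200) <| List.cons (nat_lit 7712) <| List.cons (nat_lit 97298) <| List.cons (nat_lit 452559) <| List.cons (nat_lit 42193) <| List.cons (nat_lit 6323) <| List.cons (nat_lit 944) <| List.cons (nat_lit 467644) <| List.cons (nat_lit 42440) <| List.cons (nat_lit 6325) <| List.nil) <|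
  List.cons (List.cons (nat_lit 131072) <| List.cons (nat_lit 408912) <| List.cons (nat_lit 26684) <| List.cons (nat_lit 3280) <| List.cons (nat_lit 444) <| List.cons (nat_lit 149) <| List.cons (nat_lit 66807) <| List.cons (nat_lit 482265) <| List.cons (nat_lit 76542) <| List.cons (nat_lit 4971) <| List.cons (nat_lit 592) <| List.cons (nat_lit 158) <| List.cons (nat_lit 437672) <| List.cons (nat_lit 48321) <| List.cons (nat_lit 3759) <| List.cons (nat_lit 72990) <| List.cons (nat_lit 408912) <| List.cons (nat_lit 26684) <| List.cons (nat_lit 3280) <| List.cons (nat_lit 444) <| List.cons (nat_lit 408912) <| List.cons (nat_lit 26684) <| List.cons (nat_lit 3280) <| List.nil) <|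
  List.cons (List.cons (nat_lit 131072) <| List.cons (nat_lit 443593) <| List.cons (nat_lit 39285) <| List.cons (nat_lit 5634) <| List.cons (nat_lit 809) <| List.cons (nat_lit 219) <| List.cons (nat_lit 80525) <| List.cons (nat_lit 530614) <| List.cons (nat_lit 109171) <| List.cons (nat_lit 8613) <| List.cons (nat_lit 1114) <| List.cons (nat_lit 241) <| List.cons (nat_lit 487338) <| List.cons (nat_lit 80903) <| List.cons (nat_lit 6730) <| List.cons (nat_lit 91736) <| List.cons (nat_lit 443593) <| List.cons (nat_lit 39285) <| List.cons (nat_lit 5634) <| List.cons (nat_lit 809) <| List.cons (nat_lit 459886) <| List.cons (nat_lit 39544) <| List.cons (nat_lit 5635) <| List.nil) <|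
  List.cons (List.cons (nat_lit 131072) <| List.cons (nat_lit 369471) <| List.cons (nat_lit 14974) <| List.cons (nat_lit 1487) <| List.cons (nat_lit 198) <| List.cons (nat_lit 102) <| List.cons (nat_lit 54192) <| List.cons (nat_lit 419159) <| List.cons (nat_lit 43144) <| List.cons (nat_lit 2131) <| List.cons (nat_lit 246) <| List.cons (nat_lit 104) <| List.cons (nat_lit 381801) <| List.cons (nat_lit 22237) <| List.cons (nat_lit 1605) <| List.cons (nat_lit 56414) <| List.cons (nat_lit 369471) <| List.cons (nat_lit 14974) <| List.cons (nat_lit 1487) <| List.cons (nat_lit 198) <| List.cons (nat_lit 369471) <| List.cons (nat_lit 14974) <| List.cons (nat_lit 1487) <| List.nil) <|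
  List.cons (List.cons (nat_lit 131072) <| List.cons (nat_lit 334122) <| List.cons (nat_lit 6416) <| List.cons (nat_lit 542) <| List.cons (nat_lit 92) <| List.cons (nat_lit 68) <| List.cons (nat_lit 44999) <| List.cons (nat_lit 357367) <| List.cons (nat_lit 17079) <| List.cons (nat_lit 733) <| List.cons (nat_lit 102) <| List.cons (nat_lit 68) <| List.cons (nat_lit 336389) <| List.cons (nat_lit 7455) <| List.cons (nat_lit 560) <| List.cons (nat_lit 45365) <| List.cons (nat_lit 334122) <| List.cons (nat_lit 6416) <| List.cons (nat_lit 542) <| List.cons (nat_lit 92) <| List.cons (nat_lit 334122) <| List.cons (nat_lit 6416) <| List.cons (nat_lit 542) <| List.nil) <|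
  List.cons (List.cons (nat_lit 131072) <| List.cons (nat_lit 393279) <| List.cons (nat_lit 22645) <| List.cons (nat_lit 2511) <| List.cons (nat_lit 324) <| List.cons (nat_lit 135) <| List.cons (nat_lit 61750) <| List.cons (nat_lit 458635) <| List.cons (nat_lit 63833) <| List.cons (nat_lit 3670) <| List.cons (nat_lit 414) <| List.cons (nat_lit 137) <| List.cons (nat_lit 416582) <| List.cons (nat_lit 38041) <| List.cons (nat_lit 2792) <| List.cons (nat_lit 66205) <| List.cons (nat_lit 393279) <| List.cons (nat_lit 22645) <| List.cons (nat_lit 2511) <| List.cons (nat_lit 324) <| List.cons (nat_lit 393279) <| List.cons (nat_lit 22645) <| List.cons (nat_lit 2511) <| List.nil) <|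
  List.cons (List.cons (nat_lit 131072) <| List.cons (nat_lit 349205) <| List.cons (nat_lit 10975) <| List.cons (nat_lit 917) <| List.cons (nat_lit 131) <| List.cons (nat_lit 92) <| List.cons (nat_lit 49092) <| List.cons (nat_lit 387276) <| List.cons (nat_lit 29548) <| List.cons (nat_lit 1199) <| List.cons (nat_lit 147) <| List.cons (nat_lit 92) <| List.cons (nat_lit 357132) <| List.cons (nat_lit 14402) <| List.cons (nat_lit 958) <| List.cons (nat_lit 50208) <| List.cons (nat_lit 349205) <| List.cons (nat_lit 10975) <| List.cons (nat_lit 917) <| List.cons (nat_lit 131) <| List.cons (nat_lit 349205) <| List.cons (nat_lit 10975) <| List.cons (nat_lit 917) <| List.nil) <|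
  List.cons (List.cons (nat_lit 131072) <| List.cons (nat_lit 310932) <| List.cons (nat_lit 3122) <| List.cons (nat_lit 211) <| List.cons (nat_lit 60) <| List.cons (nat_lit 54) <| List.cons (nat_lit 40300) <| List.cons (nat_lit 318880) <| List.cons (nat_lit 4389) <| List.cons (nat_lit 252) <| List.cons (nat_lit 63) <| List.cons (nat_lit 54) <| List.cons (nat_lit 311690) <| List.cons (nat_lit 3210) <| List.cons (nat_lit 215) <| List.cons (nat_lit 40345) <| List.cons (nat_lit 310932) <| List.cons (nat_lit 3122) <| List.cons (nat_lit 211) <| List.cons (nat_lit 60) <| List.cons (nat_lit 310932) <| List.cons (nat_lit 3122) <| List.cons (nat_lit 211) <| List.nil) <|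
  List.nil

/-- coefficients for the tail -/
def GT : List (List Nat) :=
  List.cons (List.cons (nat_lit 2190717) <| List.cons (nat_lit 76512) <| List.cons (nat_lit 135757) <| List.cons (nat_lit 217192) <| List.cons (nat_lit 182258) <| List.cons (nat_lit 125768) <| List.cons (nat_lit 0) <| List.cons (nat_lit 140717) <| List.cons (nat_lit 281433) <| List.cons (nat_lit 551461) <| List.cons (nat_lit 1032880) <| List.cons (nat_lit 1819044) <| List.cons (nat_lit 20140) <| List.cons (nat_lit 22050) <| List.cons (nat_lit 0) <| List.cons (nat_lit 291666) <| List.cons (nat_lit 0) <| List.cons (nat_lit 0) <| List.cons (nat_lit 0) <| List.cons (nat_lit 0) <| List.cons (nat_lit 0) <| List.cons (nat_lit 0) <| List.cons (nat_lit 0) <| List.nil) <|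
  List.cons (List.cons (nat_lit 2190612) <| List.cons (nat_lit 83746) <| List.cons (nat_lit 177146) <| List.cons (nat_lit 144057) <| List.cons (nat_lit 57242) <| List.cons (nat_lit 44700) <| List.cons (nat_lit 117858) <| List.cons (nat_lit 140717) <| List.cons (nat_lit 242993) <| List.cons (nat_lit 562867) <| List.cons (nat_lit 1125733) <| List.cons (nat_lit 2097603) <| List.cons (nat_lit 27000) <| List.cons (nat_lit 0) <| List.cons (nat_lit 51158) <| List.cons (nat_lit 181896) <| List.cons (nat_lit 0) <| List.cons (nat_lit 0) <| List.cons (nat_lit 0) <| List.cons (nat_lit 0) <| List.cons (nat_lit 0) <| List.cons (nat_lit 0) <| List.cons (nat_lit 0) <| List.nil) <|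
  List.cons (List.cons (nat_lit 2190611) <| List.cons (nat_lit 75291) <| List.cons (nat_lit 137602) <| List.cons (nat_lit 201452) <| List.cons (nat_lit 150865) <| List.cons (nat_lit 0) <| List.cons (nat_lit 0) <| List.cons (nat_lit 140717) <| List.cons (nat_lit 296601) <| List.cons (nat_lit 553997) <| List.cons (nat_lit 1022193) <| List.cons (nat_lit 1786982) <| List.cons (nat_lit 19350) <| List.cons (nat_lit 0) <| List.cons (nat_lit 0) <| List.cons (nat_lit 304301) <| List.cons (nat_lit 0) <| List.cons (nat_lit 0) <| List.cons (nat_lit 0) <| List.cons (nat_lit 0) <| List.cons (nat_lit 0) <| List.cons (nat_lit 0) <| List.cons (nat_lit 0) <| List.nil) <|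
  List.cons (List.cons (nat_lit 2190611) <| List.cons (nat_lit 71679) <| List.cons (nat_lit 0) <| List.cons (nat_lit 147869) <| List.cons (nat_lit 87632) <| List.cons (nat_lit 0) <| List.cons (nat_lit 0) <| List.cons (nat_lit 140717) <| List.cons (nat_lit 281433) <| List.cons (nat_lit 535756) <| List.cons (nat_lit 967470) <| List.cons (nat_lit 900373) <| List.cons (nat_lit 15307) <| List.cons (nat_lit 7551) <| List.cons (nat_lit 0) <| List.cons (nat_lit 368994) <| List.cons (nat_lit 0) <| List.cons (nat_lit 121006) <| List.cons (nat_lit 0) <| List.cons (nat_lit 0) <| List.cons (nat_lit 0) <| List.cons (nat_lit 0) <| List.cons (nat_lit 0) <| List.nil) <|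
  List.cons (List.cons (nat_lit 2190656) <| List.cons (nat_lit 67467) <| List.cons (nat_lit 108298) <| List.cons (nat_lit 0) <| List.cons (nat_lit 62884) <| List.cons (nat_lit 0) <| List.cons (nat_lit 0) <| List.cons (nat_lit 140717) <| List.cons (nat_lit 278780) <| List.cons (nat_lit 427200) <| List.cons (nat_lit 909522) <| List.cons (nat_lit 0) <| List.cons (nat_lit 11025) <| List.cons (nat_lit 0) <| List.cons (nat_lit 178030) <| List.cons (nat_lit 437499) <| List.cons (nat_lit 0) <| List.cons (nat_lit 0) <| List.cons (nat_lit 0) <| List.cons (nat_lit 0) <| List.cons (nat_lit 0) <| List.cons (nat_lit 0) <| List.cons (nat_lit 0) <| List.nil) <|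
  List.cons (List.cons (nat_lit 2190644) <| List.cons (nat_lit 69162) <| List.cons (nat_lit 113753) <| List.cons (nat_lit 114513) <| List.cons (nat_lit 73084) <| List.cons (nat_lit 0) <| List.cons (nat_lit 0) <| List.cons (nat_lit 140717) <| List.cons (nat_lit 281433) <| List.cons (nat_lit 524401) <| List.cons (nat_lit 933404) <| List.cons (nat_lit 371069) <| List.cons (nat_lit 12790) <| List.cons (nat_lit 0) <| List.cons (nat_lit 0) <| List.cons (nat_lit 409266) <| List.cons (nat_lit 0) <| List.cons (nat_lit 0) <| List.cons (nat_lit 0) <| List.cons (nat_lit 0) <| List.cons (nat_lit 0) <| List.cons (nat_lit 0) <| List.cons (nat_lit 0) <| List.nil) <|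
  List.cons (List.cons (nat_lit 2207181) <| List.cons (nat_lit 0) <| List.cons (nat_lit 0) <| List.cons (nat_lit 0) <| List.cons (nat_lit 178027) <| List.cons (nat_lit 0) <| List.cons (nat_lit 0) <| List.cons (nat_lit 62262) <| List.cons (nat_lit 143969) <| List.cons (nat_lit 350035) <| List.cons (nat_lit 1032880) <| List.cons (nat_lit 1949043) <| List.cons (nat_lit 176653) <| List.cons (nat_lit 296285) <| List.cons (nat_lit 414000) <| List.cons (nat_lit 291666) <| List.cons (nat_lit 0) <| List.cons (nat_lit 0) <| List.cons (nat_lit 0) <| List.cons (nat_lit 0) <| List.cons (nat_lit 0) <| List.cons (nat_lit 0) <| List.cons (nat_lit 0) <| List.nil) <|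
  List.cons (List.cons (nat_lit 2171308) <| List.cons (nat_lit 0) <| List.cons (nat_lit 0) <| List.cons (nat_lit 0) <| List.cons (nat_lit 0) <| List.cons (nat_lit 0) <| List.cons (nat_lit 0) <| List.cons (nat_lit 215846) <| List.cons (nat_lit 383115) <| List.cons (nat_lit 437227) <| List.cons (nat_lit 893491) <| List.cons (nat_lit 0) <| List.cons (nat_lit 0) <| List.cons (nat_lit 0) <| List.cons (nat_lit 147365) <| List.cons (nat_lit 456451) <| List.cons (nat_lit 0) <| List.cons (nat_lit 0) <| List.cons (nat_lit 0) <| List.cons (nat_lit 0) <| List.cons (nat_lit 0) <| List.cons (nat_lit 0) <| List.cons (nat_lit 0) <| List.nil) <|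
  List.cons (List.cons (nat_lit 2205088) <| List.cons (nat_lit 0) <| List.cons (nat_lit 0) <| List.cons (nat_lit 0) <| List.cons (nat_lit 62884) <| List.cons (nat_lit 0) <| List.cons (nat_lit 0) <| List.cons (nat_lit 71926) <| List.cons (nat_lit 172727) <| List.cons (nat_lit 427200) <| List.cons (nat_lit 909522) <| List.cons (nat_lit 0) <| List.cons (nat_lit 148260) <| List.cons (nat_lit 211570) <| List.cons (nat_lit 178030) <| List.cons (nat_lit 437499) <| List.cons (nat_lit 0) <| List.cons (nat_lit 0) <| List.cons (nat_lit 0) <| List.cons (nat_lit 0) <| List.cons (nat_lit 0) <| List.cons (nat_lit 0) <| List.cons (nat_lit 0) <| List.nil) <|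
  List.cons (List.cons (nat_lit 2205096) <| List.cons (nat_lit 0) <| List.cons (nat_lit 0) <| List.cons (nat_lit 0) <| List.cons (nat_lit 0) <| List.cons (nat_lit 0) <| List.cons (nat_lit 0) <| List.cons (nat_lit 71927) <| List.cons (nat_lit 172780) <| List.cons (nat_lit 429271) <| List.cons (nat_lit 974522) <| List.cons (nat_lit 0) <| List.cons (nat_lit 148257) <| List.cons (nat_lit 211464) <| List.cons (nat_lit 173897) <| List.cons (nat_lit 437499) <| List.cons (nat_lit 0) <| List.cons (nat_lit 0) <| List.cons (nat_lit 0) <| List.cons (nat_lit 0) <| List.cons (nat_lit 0) <| List.cons (nat_lit 0) <| List.cons (nat_lit 0) <| List.nil) <|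
  List.cons (List.cons (nat_lit 2168518) <| List.cons (nat_lit 0) <| List.cons (nat_lit 0) <| List.cons (nat_lit 362256) <| List.cons (nat_lit 0) <| List.cons (nat_lit 0) <| List.cons (nat_lit 0) <| List.cons (nat_lit 228945) <| List.cons (nat_lit 1003235) <| List.cons (nat_lit 0) <| List.cons (nat_lit 1405278) <| List.cons (nat_lit 6463019) <| List.cons (nat_lit 0) <| List.cons (nat_lit 0) <| List.cons (nat_lit 0) <| List.cons (nat_lit 194444) <| List.cons (nat_lit 0) <| List.cons (nat_lit 0) <| List.cons (nat_lit 0) <| List.cons (nat_lit 0) <| List.cons (nat_lit 0) <| List.cons (nat_lit 0) <| List.cons (nat_lit 0) <| List.nil) <|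
  List.nil

/-- coefficients for the number of frogs -/
def KC : List Nat :=
  List.cons (nat_lit 88) <| List.cons (nat_lit 261065) <| List.cons (nat_lit 0) <| List.cons (nat_lit 252435) <| List.cons (nat_lit 233017) <| List.cons (nat_lit 174763) <| List.cons (nat_lit 8630) <| List.cons (nat_lit 0) <| List.cons (nat_lit 0) <| List.cons (nat_lit 0) <| List.cons (nat_lit 0) <| List.cons (nat_lit 0) <| List.cons (nat_lit 0) <| List.cons (nat_lit 0) <| List.cons (nat_lit 0) <| List.cons (nat_lit 0) <| List.cons (nat_lit 0) <| List.cons (nat_lit 258908) <| List.cons (nat_lit 0) <| List.cons (nat_lit 0) <| List.cons (nat_lit 0) <| List.cons (nat_lit 0) <| List.cons (nat_lit 0) <| List.nil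

/-- children of the types -/
def CHT : List (List Nat) :=
  List.cons (List.cons (nat_lit 0) <| List.cons (nat_lit 0) <| List.cons (nat_lit 0) <| List.cons (nat_lit 0) <| List.nil) <|
  List.cons (List.cons (nat_lit 0) <| List.cons (nat_lit 0) <| List.cons (nat_lit 0) <| List.cons (nat_lit 0) <| List.nil) <|
  List.cons (List.cons (nat_lit 0) <| List.cons (nat_lit 0) <| List.cons (nat_lit 0) <| List.cons (nat_lit 1) <| List.nil) <|
  List.cons (List.cons (nat_lit 0) <| List.cons (nat_lit 0) <| List.cons (nat_lit 0) <| List.cons (nat_lit 2) <| List.nil) <|
  List.cons (List.cons (nat_lit 0) <| List.cons (nat_lit 0) <| List.cons (nat_lit 2) <| List.cons (nat_lit 2) <| List.nil) <|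
  List.cons (List.cons (nat_lit 0) <| List.cons (nat_lit 0) <| List.cons (nat_lit 0) <| List.cons (nat_lit 4) <| List.nil) <|
  List.cons (List.cons (nat_lit 0) <| List.cons (nat_lit 2) <| List.cons (nat_lit 2) <| List.cons (nat_lit 2) <| List.nil) <|
  List.cons (List.cons (nat_lit 2) <| List.cons (nat_lit 2) <| List.cons (nat_lit 2) <| List.cons (nat_lit 2) <| List.nil) <|
  List.cons (List.cons (nat_lit 0) <| List.cons (nat_lit 0) <| List.cons (nat_lit 4) <| List.cons (nat_lit 4) <| List.nil) <|
  List.cons (List.cons (nat_lit 0) <| List.cons (nat_lit 4) <| List.cons (nat_lit 4) <| List.cons (nat_lit 4) <| List.nil) <|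
  List.cons (List.cons (nat_lit 4) <| List.cons (nat_lit 4) <| List.cons (nat_lit 4) <| List.cons (nat_lit 4) <| List.nil) <|
  List.nil

/-- order of the types -/
def LEM : Nat := nat_lit 0x100300700901b03907d0ff1ff3ff7ff

/-- rows of the test functions -/
def HR : List (List (List Nat)) :=
  List.cons (List.cons (List.cons (nat_lit 0) <| List.cons (nat_lit 0) <| List.cons (nat_lit 0) <| List.cons (nat_lit 0) <| List.cons (nat_lit 0) <| List.cons (nat_lit 0) <| List.cons (nat_lit 0) <| List.cons (nat_lit 0) <| List.cons (nat_lit 0) <| List.cons (nat_lit 0) <| List.cons (nat_lit 0) <| List.cons (nat_lit 0) <| List.cons (nat_lit 0) <| List.cons (nat_lit 0) <| List.cons (nat_lit 0) <| List.cons (nat_lit 0) <| List.cons (nat_lit 0) <| List.cons (nat_lit 0) <| List.cons (nat_lit 0) <| List.cons (nat_lit 0) <| List.cons (nat_lit 0) <| List.cons (nat_lit 0) <| List.cons (nat_lit 0) <| List.nil) <|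
  List.cons (List.cons (nat_lit 0) <| List.cons (nat_lit 0) <| List.cons (nat_lit 0) <| List.cons (nat_lit 0) <| List.cons (nat_lit 0) <| List.cons (nat_lit 0) <| List.cons (nat_lit 0) <| List.cons (nat_lit 0) <| List.cons (nat_lit 0) <| List.cons (nat_lit 0) <| List.cons (nat_lit 0) <| List.cons (nat_lit 0) <| List.cons (nat_lit 0) <| List.cons (nat_lit 0) <| List.cons (nat_lit 0) <| List.cons (nat_lit 0) <| List.cons (nat_lit 0) <| List.cons (nat_lit 0) <| List.cons (nat_lit 0) <| List.cons (nat_lit 0) <| List.cons (nat_lit 0) <| List.cons (nat_lit 0) <| List.cons (nat_lit 0) <| List.nil) <|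
  List.cons (List.cons (nat_lit 0) <| List.cons (nat_lit 0) <| List.cons (nat_lit 0) <| List.cons (nat_lit 0) <| List.cons (nat_lit 0) <| List.cons (nat_lit 0) <| List.cons (nat_lit 0) <| List.cons (nat_lit 0) <| List.cons (nat_lit 0) <| List.cons (nat_lit 0) <| List.cons (nat_lit 0) <| List.cons (nat_lit 0) <| List.cons (nat_lit 0) <| List.cons (nat_lit 0) <| List.cons (nat_lit 0) <| List.cons (nat_lit 0) <| List.cons (nat_lit 0) <| List.cons (nat_lit 0) <| List.cons (nat_lit 0) <| List.cons (nat_lit 0) <| List.cons (nat_lit 0) <| List.cons (nat_lit 0) <| List.cons (nat_lit 0) <| List.nil) <|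
  List.cons (List.cons (nat_lit 0) <| List.cons (nat_lit 0) <| List.cons (nat_lit 0) <| List.cons (nat_lit 0) <| List.cons (nat_lit 0) <| List.cons (nat_lit 0) <| List.cons (nat_lit 0) <| List.cons (nat_lit 0) <| List.cons (nat_lit 0) <| List.cons (nat_lit 0) <| List.cons (nat_lit 0) <| List.cons (nat_lit 0) <| List.cons (nat_lit 0) <| List.cons (nat_lit 0) <| List.cons (nat_lit 0) <| List.cons (nat_lit 0) <| List.cons (nat_lit 0) <| List.cons (nat_lit 0) <| List.cons (nat_lit 0) <| List.cons (nat_lit 0) <| List.cons (nat_lit 0) <| List.cons (nat_lit 0) <| List.cons (nat_lit 0) <| List.nil) <|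
  List.cons (List.cons (nat_lit 0) <| List.cons (nat_lit 0) <| List.cons (nat_lit 0) <| List.cons (nat_lit 0) <| List.cons (nat_lit 0) <| List.cons (nat_lit 0) <| List.cons (nat_lit 0) <| List.cons (nat_lit 0) <| List.cons (nat_lit 0) <| List.cons (nat_lit 0) <| List.cons (nat_lit 0) <| List.cons (nat_lit 0) <| List.cons (nat_lit 0) <| List.cons (nat_lit 0) <| List.cons (nat_lit 0) <| List.cons (nat_lit 0) <| List.cons (nat_lit 0) <| List.cons (nat_lit 0) <| List.cons (nat_lit 0) <| List.cons (nat_lit 0) <| List.cons (nat_lit 0) <| List.cons (nat_lit 0) <| List.cons (nat_lit 0) <| List.nil) <|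
  List.cons (List.cons (nat_lit 0) <| List.cons (nat_lit 0) <| List.cons (nat_lit 0) <| List.cons (nat_lit 0) <| List.cons (nat_lit 0) <| List.cons (nat_lit 0) <| List.cons (nat_lit 0) <| List.cons (nat_lit 0) <| List.cons (nat_lit 0) <| List.cons (nat_lit 0) <| List.cons (nat_lit 0) <| List.cons (nat_lit 0) <| List.cons (nat_lit 0) <| List.cons (nat_lit 0) <| List.cons (nat_lit 0) <| List.cons (nat_lit 0) <| List.cons (nat_lit 0) <| List.cons (nat_lit 0) <| List.cons (nat_lit 0) <| List.cons (nat_lit 0) <| List.cons (nat_lit 0) <| List.cons (nat_lit 0) <| List.cons (nat_lit 0) <| List.nil) <|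
  List.cons (List.cons (nat_lit 0) <| List.cons (nat_lit 0) <| List.cons (nat_lit 0) <| List.cons (nat_lit 0) <| List.cons (nat_lit 0) <| List.cons (nat_lit 0) <| List.cons (nat_lit 0) <| List.cons (nat_lit 0) <| List.cons (nat_lit 0) <| List.cons (nat_lit 0) <| List.cons (nat_lit 0) <| List.cons (nat_lit 0) <| List.cons (nat_lit 0) <| List.cons (nat_lit 0) <| List.cons (nat_lit 0) <| List.cons (nat_lit 0) <| List.cons (nat_lit 0) <| List.cons (nat_lit 0) <| List.cons (nat_lit 0) <| List.cons (nat_lit 0) <| List.cons (nat_lit 0) <| List.cons (nat_lit 0) <| List.cons (nat_lit 0) <| List.nil) <|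
  List.cons (List.cons (nat_lit 0) <| List.cons (nat_lit 0) <| List.cons (nat_lit 0) <| List.cons (nat_lit 0) <| List.cons (nat_lit 0) <| List.cons (nat_lit 0) <| List.cons (nat_lit 0) <| List.cons (nat_lit 0) <| List.cons (nat_lit 0) <| List.cons (nat_lit 0) <| List.cons (nat_lit 0) <| List.cons (nat_lit 0) <| List.cons (nat_lit 0) <| List.cons (nat_lit 0) <| List.cons (nat_lit 0) <| List.cons (nat_lit 0) <| List.cons (nat_lit 0) <| List.cons (nat_lit 0) <| List.cons (nat_lit 0) <| List.cons (nat_lit 0) <| List.cons (nat_lit 0) <| List.cons (nat_lit 0) <| List.cons (nat_lit 0) <| List.nil) <|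
  List.cons (List.cons (nat_lit 0) <| List.cons (nat_lit 0) <| List.cons (nat_lit 0) <| List.cons (nat_lit 0) <| List.cons (nat_lit 0) <| List.cons (nat_lit 0) <| List.cons (nat_lit 0) <| List.cons (nat_lit 0) <| List.cons (nat_lit 0) <| List.cons (nat_lit 0) <| List.cons (nat_lit 0) <| List.cons (nat_lit 0) <| List.cons (nat_lit 0) <| List.cons (nat_lit 0) <| List.cons (nat_lit 0) <| List.cons (nat_lit 0) <| List.cons (nat_lit 0) <| List.cons (nat_lit 0) <| List.cons (nat_lit 0) <| List.cons (nat_lit 0) <| List.cons (nat_lit 0) <| List.cons (nat_lit 0) <| List.cons (nat_lit 0) <| List.nil) <|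
  List.cons (List.cons (nat_lit 0) <| List.cons (nat_lit 0) <| List.cons (nat_lit 0) <| List.cons (nat_lit 0) <| List.cons (nat_lit 0) <| List.cons (nat_lit 0) <| List.cons (nat_lit 0) <| List.cons (nat_lit 0) <| List.cons (nat_lit 0) <| List.cons (nat_lit 0) <| List.cons (nat_lit 0) <| List.cons (nat_lit 0) <| List.cons (nat_lit 0) <| List.cons (nat_lit 0) <| List.cons (nat_lit 0) <| List.cons (nat_lit 0) <| List.cons (nat_lit 0) <| List.cons (nat_lit 0) <| List.cons (nat_lit 0) <| List.cons (nat_lit 0) <| List.cons (nat_lit 0) <| List.cons (nat_lit 0) <| List.cons (nat_lit 0) <| List.nil) <|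
  List.cons (List.cons (nat_lit 0) <| List.cons (nat_lit 0) <| List.cons (nat_lit 0) <| List.cons (nat_lit 0) <| List.cons (nat_lit 0) <| List.cons (nat_lit 0) <| List.cons (nat_lit 0) <| List.cons (nat_lit 0) <| List.cons (nat_lit 0) <| List.cons (nat_lit 0) <| List.cons (nat_lit 0) <| List.cons (nat_lit 0) <| List.cons (nat_lit 0) <| List.cons (nat_lit 0) <| List.cons (nat_lit 0) <| List.cons (nat_lit 0) <| List.cons (nat_lit 0) <| List.cons (nat_lit 0) <| List.cons (nat_lit 0) <| List.cons (nat_lit 0) <| List.cons (nat_lit 0) <| List.cons (nat_lit 0) <| List.cons (nat_lit 0) <| List.nil) <|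
  List.nil) <|
  List.cons (List.cons (List.cons (nat_lit 131072) <| List.cons (nat_lit 0) <| List.cons (nat_lit 0) <| List.cons (nat_lit 0) <| List.cons (nat_lit 0) <| List.cons (nat_lit 0) <| List.cons (nat_lit 0) <| List.cons (nat_lit 350416) <| List.cons (nat_lit 0) <| List.cons (nat_lit 0) <| List.cons (nat_lit 0) <| List.cons (nat_lit 0) <| List.cons (nat_lit 350416) <| List.cons (nat_lit 0) <| List.cons (nat_lit 0) <| List.cons (nat_lit 21901) <| List.cons (nat_lit 350416) <| List.cons (nat_lit 0) <| List.cons (nat_lit 0) <| List.cons (nat_lit 0) <| List.cons (nat_lit 233600) <| List.cons (nat_lit 0) <| List.cons (nat_lit 0) <| List.nil) <|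
  List.cons (List.cons (nat_lit 131072) <| List.cons (nat_lit 1048576) <| List.cons (nat_lit 0) <| List.cons (nat_lit 0) <| List.cons (nat_lit 0) <| List.cons (nat_lit 0) <| List.cons (nat_lit 131072) <| List.cons (nat_lit 1048576) <| List.cons (nat_lit 350416) <| List.cons (nat_lit 0) <| List.cons (nat_lit 0) <| List.cons (nat_lit 0) <| List.cons (nat_lit 1048576) <| List.cons (nat_lit 350416) <| List.cons (nat_lit 0) <| List.cons (nat_lit 196775) <| List.cons (nat_lit 1048576) <| List.cons (nat_lit 350416) <| List.cons (nat_lit 0) <| List.cons (nat_lit 0) <| List.cons (nat_lit 1048576) <| List.cons (nat_lit 233600) <| List.cons (nat_lit 0) <| List.nil) <|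
  List.cons (List.cons (nat_lit 131072) <| List.cons (nat_lit 1048576) <| List.cons (nat_lit 1048576) <| List.cons (nat_lit 0) <| List.cons (nat_lit 0) <| List.cons (nat_lit 0) <| List.cons (nat_lit 524288) <| List.cons (nat_lit 1048576) <| List.cons (nat_lit 1048576) <| List.cons (nat_lit 350416) <| List.cons (nat_lit 0) <| List.cons (nat_lit 0) <| List.cons (nat_lit 1048576) <| List.cons (nat_lit 1048576) <| List.cons (nat_lit 350416) <| List.cons (nat_lit 721397) <| List.cons (nat_lit 1048576) <| List.cons (nat_lit 1048576) <| List.cons (nat_lit 350416) <| List.cons (nat_lit 0) <| List.cons (nat_lit 1048576) <| List.cons (nat_lit 1048576) <| List.cons (nat_lit 233600) <| List.nil) <|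
  List.cons (List.cons (nat_lit 131072) <| List.cons (nat_lit 1048576) <| List.cons (nat_lit 1048576) <| List.cons (nat_lit 1048576) <| List.cons (nat_lit 0) <| List.cons (nat_lit 0) <| List.cons (nat_lit 1703936) <| List.cons (nat_lit 1048576) <| List.cons (nat_lit 1048576) <| List.cons (nat_lit 1048576) <| List.cons (nat_lit 350416) <| List.cons (nat_lit 0) <| List.cons (nat_lit 1048576) <| List.cons (nat_lit 1048576) <| List.cons (nat_lit 1048576) <| List.cons (nat_lit 2295263) <| List.cons (nat_lit 1048576) <| List.cons (nat_lit 1048576) <| List.cons (nat_lit 1048576) <| List.cons (nat_lit 350416) <| List.cons (nat_lit 1048576) <| List.cons (nat_lit 1048576) <| List.cons (nat_lit 1048576) <| List.nil) <|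
  List.cons (List.cons (nat_lit 131072) <| List.cons (nat_lit 1048576) <| List.cons (nat_lit 1048576) <| List.cons (nat_lit 1048576) <| List.cons (nat_lit 1048576) <| List.cons (nat_lit 0) <| List.cons (nat_lit 5242880) <| List.cons (nat_lit 1048576) <| List.cons (nat_lit 1048576) <| List.cons (nat_lit 1048576) <| List.cons (nat_lit 1048576) <| List.cons (nat_lit 350416) <| List.cons (nat_lit 1048576) <| List.cons (nat_lit 1048576) <| List.cons (nat_lit 1048576) <| List.cons (nat_lit 7016861) <| List.cons (nat_lit 1048576) <| List.cons (nat_lit 1048576) <| List.cons (nat_lit 1048576) <| List.cons (nat_lit 1048576) <| List.cons (nat_lit 1048576) <| List.cons (nat_lit 1048576) <| List.cons (nat_lit 1048576) <| List.nil) <|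
  List.cons (List.cons (nat_lit 131072) <| List.cons (nat_lit 1048576) <| List.cons (nat_lit 1048576) <| List.cons (nat_lit 1048576) <| List.cons (nat_lit 1048576) <| List.cons (nat_lit 1048576) <| List.cons (nat_lit 15859712) <| List.cons (nat_lit 1048576) <| List.cons (nat_lit 1048576) <| List.cons (nat_lit 1048576) <| List.cons (nat_lit 1048576) <| List.cons (nat_lit 1048576) <| List.cons (nat_lit 1048576) <| List.cons (nat_lit 1048576) <| List.cons (nat_lit 1048576) <| List.cons (nat_lit 21181655) <| List.cons (nat_lit 1048576) <| List.cons (nat_lit 1048576) <| List.cons (nat_lit 1048576) <| List.cons (nat_lit 1048576) <| List.cons (nat_lit 1048576) <| List.cons (nat_lit 1048576) <| List.cons (nat_lit 1048576) <| List.nil) <|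
  List.cons (List.cons (nat_lit 131072) <| List.cons (nat_lit 1048576) <| List.cons (nat_lit 1048576) <| List.cons (nat_lit 1048576) <| List.cons (nat_lit 1048576) <| List.cons (nat_lit 1048576) <| List.cons (nat_lit 47710208) <| List.cons (nat_lit 1048576) <| List.cons (nat_lit 1048576) <| List.cons (nat_lit 1048576) <| List.cons (nat_lit 1048576) <| List.cons (nat_lit 1048576) <| List.cons (nat_lit 1048576) <| List.cons (nat_lit 1048576) <| List.cons (nat_lit 1048576) <| List.cons (nat_lit 63676037) <| List.cons (nat_lit 1048576) <| List.cons (nat_lit 1048576) <| List.cons (nat_lit 1048576) <| List.cons (nat_lit 1048576) <| List.cons (nat_lit 1048576) <| List.cons (nat_lit 1048576) <| List.cons (nat_lit 1048576) <| List.nil) <|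
  List.cons (List.cons (nat_lit 131072) <| List.cons (nat_lit 1048576) <| List.cons (nat_lit 1048576) <| List.cons (nat_lit 1048576) <| List.cons (nat_lit 1048576) <| List.cons (nat_lit 1048576) <| List.cons (nat_lit 143261696) <| List.cons (nat_lit 1048576) <| List.cons (nat_lit 1048576) <| List.cons (nat_lit 1048576) <| List.cons (nat_lit 1048576) <| List.cons (nat_lit 1048576) <| List.cons (nat_lit 1048576) <| List.cons (nat_lit 1048576) <| List.cons (nat_lit 1048576) <| List.cons (nat_lit 191159183) <| List.cons (nat_lit 1048576) <| List.cons (nat_lit 1048576) <| List.cons (nat_lit 1048576) <| List.cons (nat_lit 1048576) <| List.cons (nat_lit 1048576) <| List.cons (nat_lit 1048576) <| List.cons (nat_lit 1048576) <| List.nil) <|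
  List.cons (List.cons (nat_lit 131072) <| List.cons (nat_lit 1048576) <| List.cons (nat_lit 1048576) <| List.cons (nat_lit 1048576) <| List.cons (nat_lit 1048576) <| List.cons (nat_lit 1048576) <| List.cons (nat_lit 429916160) <| List.cons (nat_lit 1048576) <| List.cons (nat_lit 1048576) <| List.cons (nat_lit 1048576) <| List.cons (nat_lit 1048576) <| List.cons (nat_lit 1048576) <| List.cons (nat_lit 1048576) <| List.cons (nat_lit 1048576) <| List.cons (nat_lit 1048576) <| List.cons (nat_lit 573608621) <| List.cons (nat_lit 1048576) <| List.cons (nat_lit 1048576) <| List.cons (nat_lit 1048576) <| List.cons (nat_lit 1048576) <| List.cons (nat_lit 1048576) <| List.cons (nat_lit 1048576) <| List.cons (nat_lit 1048576) <| List.nil) <|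
  List.cons (List.cons (nat_lit 131072) <| List.cons (nat_lit 1048576) <| List.cons (nat_lit 1048576) <| List.cons (nat_lit 1048576) <| List.cons (nat_lit 1048576) <| List.cons (nat_lit 1048576) <| List.cons (nat_lit 1289879552) <| List.cons (nat_lit 1048576) <| List.cons (nat_lit 1048576) <| List.cons (nat_lit 1048576) <| List.cons (nat_lit 1048576) <| List.cons (nat_lit 1048576) <| List.cons (nat_lit 1048576) <| List.cons (nat_lit 1048576) <| List.cons (nat_lit 1048576) <| List.cons (nat_lit 1720956935) <| List.cons (nat_lit 1048576) <| List.cons (nat_lit 1048576) <| List.cons (nat_lit 1048576) <| List.cons (nat_lit 1048576) <| List.cons (nat_lit 1048576) <| List.cons (nat_lit 1048576) <| List.cons (nat_lit 1048576) <| List.nil) <|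
  List.cons (List.cons (nat_lit 0) <| List.cons (nat_lit 0) <| List.cons (nat_lit 0) <| List.cons (nat_lit 0) <| List.cons (nat_lit 0) <| List.cons (nat_lit 0) <| List.cons (nat_lit 2579890176) <| List.cons (nat_lit 0) <| List.cons (nat_lit 0) <| List.cons (nat_lit 0) <| List.cons (nat_lit 0) <| List.cons (nat_lit 0) <| List.cons (nat_lit 0) <| List.cons (nat_lit 0) <| List.cons (nat_lit 0) <| List.cons (nat_lit 3442044942) <| List.cons (nat_lit 0) <| List.cons (nat_lit 0) <| List.cons (nat_lit 0) <| List.cons (nat_lit 0) <| List.cons (nat_lit 0) <| List.cons (nat_lit 0) <| List.cons (nat_lit 0) <| List.nil) <|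
  List.nil) <|
  List.cons (List.cons (List.cons (nat_lit 131072) <| List.cons (nat_lit 0) <| List.cons (nat_lit 0) <| List.cons (nat_lit 0) <| List.cons (nat_lit 0) <| List.cons (nat_lit 0) <| List.cons (nat_lit 0) <| List.cons (nat_lit 264096) <| List.cons (nat_lit 0) <| List.cons (nat_lit 0) <| List.cons (nat_lit 0) <| List.cons (nat_lit 0) <| List.cons (nat_lit 199040) <| List.cons (nat_lit 0) <| List.cons (nat_lit 0) <| List.cons (nat_lit 12440) <| List.cons (nat_lit 0) <| List.cons (nat_lit 0) <| List.cons (nat_lit 0) <| List.cons (nat_lit 0) <| List.cons (nat_lit 233600) <| List.cons (nat_lit 0) <| List.cons (nat_lit 0) <| List.nil) <|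
  List.cons (List.cons (nat_lit 131072) <| List.cons (nat_lit 1048576) <| List.cons (nat_lit 0) <| List.cons (nat_lit 0) <| List.cons (nat_lit 0) <| List.cons (nat_lit 0) <| List.cons (nat_lit 131072) <| List.cons (nat_lit 1048576) <| List.cons (nat_lit 264096) <| List.cons (nat_lit 0) <| List.cons (nat_lit 0) <| List.cons (nat_lit 0) <| List.cons (nat_lit 1048576) <| List.cons (nat_lit 199040) <| List.cons (nat_lit 0) <| List.cons (nat_lit 168392) <| List.cons (nat_lit 1048576) <| List.cons (nat_lit 0) <| List.cons (nat_lit 0) <| List.cons (nat_lit 0) <| List.cons (nat_lit 1048576) <| List.cons (nat_lit 233600) <| List.cons (nat_lit 0) <| List.nil) <|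
  List.cons (List.cons (nat_lit 131072) <| List.cons (nat_lit 1048576) <| List.cons (nat_lit 1048576) <| List.cons (nat_lit 0) <| List.cons (nat_lit 0) <| List.cons (nat_lit 0) <| List.cons (nat_lit 524288) <| List.cons (nat_lit 1048576) <| List.cons (nat_lit 1048576) <| List.cons (nat_lit 264096) <| List.cons (nat_lit 0) <| List.cons (nat_lit 0) <| List.cons (nat_lit 1048576) <| List.cons (nat_lit 1048576) <| List.cons (nat_lit 199040) <| List.cons (nat_lit 636248) <| List.cons (nat_lit 1048576) <| List.cons (nat_lit 1048576) <| List.cons (nat_lit 0) <| List.cons (nat_lit 0) <| List.cons (nat_lit 1048576) <| List.cons (nat_lit 1048576) <| List.cons (nat_lit 233600) <| List.nil) <|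
  List.cons (List.cons (nat_lit 131072) <| List.cons (nat_lit 1048576) <| List.cons (nat_lit 1048576) <| List.cons (nat_lit 1048576) <| List.cons (nat_lit 0) <| List.cons (nat_lit 0) <| List.cons (nat_lit 1703936) <| List.cons (nat_lit 1048576) <| List.cons (nat_lit 1048576) <| List.cons (nat_lit 1048576) <| List.cons (nat_lit 264096) <| List.cons (nat_lit 0) <| List.cons (nat_lit 1048576) <| List.cons (nat_lit 1048576) <| List.cons (nat_lit 1048576) <| List.cons (nat_lit 2039816) <| List.cons (nat_lit 1048576) <| List.cons (nat_lit 1048576) <| List.cons (nat_lit 1048576) <| List.cons (nat_lit 0) <| List.cons (nat_lit 1048576) <| List.cons (nat_lit 1048576) <| List.cons (nat_lit 1048576) <| List.nil) <|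
  List.cons (List.cons (nat_lit 131072) <| List.cons (nat_lit 1048576) <| List.cons (nat_lit 1048576) <| List.cons (nat_lit 1048576) <| List.cons (nat_lit 1048576) <| List.cons (nat_lit 0) <| List.cons (nat_lit 5242880) <| List.cons (nat_lit 1048576) <| List.cons (nat_lit 1048576) <| List.cons (nat_lit 1048576) <| List.cons (nat_lit 1048576) <| List.cons (nat_lit 264096) <| List.cons (nat_lit 1048576) <| List.cons (nat_lit 1048576) <| List.cons (nat_lit 1048576) <| List.cons (nat_lit 6250520) <| List.cons (nat_lit 1048576) <| List.cons (nat_lit 1048576) <| List.cons (nat_lit 1048576) <| List.cons (nat_lit 1048576) <| List.cons (nat_lit 1048576) <| List.cons (nat_lit 1048576) <| List.cons (nat_lit 1048576) <| List.nil) <|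
  List.cons (List.cons (nat_lit 131072) <| List.cons (nat_lit 1048576) <| List.cons (nat_lit 1048576) <| List.cons (nat_lit 1048576) <| List.cons (nat_lit 1048576) <| List.cons (nat_lit 1048576) <| List.cons (nat_lit 15859712) <| List.cons (nat_lit 1048576) <| List.cons (nat_lit 1048576) <| List.cons (nat_lit 1048576) <| List.cons (nat_lit 1048576) <| List.cons (nat_lit 1048576) <| List.cons (nat_lit 1048576) <| List.cons (nat_lit 1048576) <| List.cons (nat_lit 1048576) <| List.cons (nat_lit 18882632) <| List.cons (nat_lit 1048576) <| List.cons (nat_lit 1048576) <| List.cons (nat_lit 1048576) <| List.cons (nat_lit 1048576) <| List.cons (nat_lit 1048576) <| List.cons (nat_lit 1048576) <| List.cons (nat_lit 1048576) <| List.nil) <|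
  List.cons (List.cons (nat_lit 131072) <| List.cons (nat_lit 1048576) <| List.cons (nat_lit 1048576) <| List.cons (nat_lit 1048576) <| List.cons (nat_lit 1048576) <| List.cons (nat_lit 1048576) <| List.cons (nat_lit 47710208) <| List.cons (nat_lit 1048576) <| List.cons (nat_lit 1048576) <| List.cons (nat_lit 1048576) <| List.cons (nat_lit 1048576) <| List.cons (nat_lit 1048576) <| List.cons (nat_lit 1048576) <| List.cons (nat_lit 1048576) <| List.cons (nat_lit 1048576) <| List.cons (nat_lit 56778968) <| List.cons (nat_lit 1048576) <| List.cons (nat_lit 1048576) <| List.cons (nat_lit 1048576) <| List.cons (nat_lit 1048576) <| List.cons (nat_lit 1048576) <| List.cons (nat_lit 1048576) <| List.cons (nat_lit 1048576) <| List.nil) <|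
  List.cons (List.cons (nat_lit 131072) <| List.cons (nat_lit 1048576) <| List.cons (nat_lit 1048576) <| List.cons (nat_lit 1048576) <| List.cons (nat_lit 1048576) <| List.cons (nat_lit 1048576) <| List.cons (nat_lit 143261696) <| List.cons (nat_lit 1048576) <| List.cons (nat_lit 1048576) <| List.cons (nat_lit 1048576) <| List.cons (nat_lit 1048576) <| List.cons (nat_lit 1048576) <| List.cons (nat_lit 1048576) <| List.cons (nat_lit 1048576) <| List.cons (nat_lit 1048576) <| List.cons (nat_lit 170467976) <| List.cons (nat_lit 1048576) <| List.cons (nat_lit 1048576) <| List.cons (nat_lit 1048576) <| List.cons (nat_lit 1048576) <| List.cons (nat_lit 1048576) <| List.cons (nat_lit 1048576) <| List.cons (nat_lit 1048576) <| List.nil) <|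
  List.cons (List.cons (nat_lit 131072) <| List.cons (nat_lit 1048576) <| List.cons (nat_lit 1048576) <| List.cons (nat_lit 1048576) <| List.cons (nat_lit 1048576) <| List.cons (nat_lit 1048576) <| List.cons (nat_lit 429916160) <| List.cons (nat_lit 1048576) <| List.cons (nat_lit 1048576) <| List.cons (nat_lit 1048576) <| List.cons (nat_lit 1048576) <| List.cons (nat_lit 1048576) <| List.cons (nat_lit 1048576) <| List.cons (nat_lit 1048576) <| List.cons (nat_lit 1048576) <| List.cons (nat_lit 511535000) <| List.cons (nat_lit 1048576) <| List.cons (nat_lit 1048576) <| List.cons (nat_lit 1048576) <| List.cons (nat_lit 1048576) <| List.cons (nat_lit 1048576) <| List.cons (nat_lit 1048576) <| List.cons (nat_lit 1048576) <| List.nil) <|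
  List.cons (List.cons (nat_lit 131072) <| List.cons (nat_lit 1048576) <| List.cons (nat_lit 1048576) <| List.cons (nat_lit 1048576) <| List.cons (nat_lit 1048576) <| List.cons (nat_lit 1048576) <| List.cons (nat_lit 1289879552) <| List.cons (nat_lit 1048576) <| List.cons (nat_lit 1048576) <| List.cons (nat_lit 1048576) <| List.cons (nat_lit 1048576) <| List.cons (nat_lit 1048576) <| List.cons (nat_lit 1048576) <| List.cons (nat_lit 1048576) <| List.cons (nat_lit 1048576) <| List.cons (nat_lit 1534736072) <| List.cons (nat_lit 1048576) <| List.cons (nat_lit 1048576) <| List.cons (nat_lit 1048576) <| List.cons (nat_lit 1048576) <| List.cons (nat_lit 1048576) <| List.cons (nat_lit 1048576) <| List.cons (nat_lit 1048576) <| List.nil) <|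
  List.cons (List.cons (nat_lit 0) <| List.cons (nat_lit 0) <| List.cons (nat_lit 0) <| List.cons (nat_lit 0) <| List.cons (nat_lit 0) <| List.cons (nat_lit 0) <| List.cons (nat_lit 2579890176) <| List.cons (nat_lit 0) <| List.cons (nat_lit 0) <| List.cons (nat_lit 0) <| List.cons (nat_lit 0) <| List.cons (nat_lit 0) <| List.cons (nat_lit 0) <| List.cons (nat_lit 0) <| List.cons (nat_lit 0) <| List.cons (nat_lit 3069603216) <| List.cons (nat_lit 0) <| List.cons (nat_lit 0) <| List.cons (nat_lit 0) <| List.cons (nat_lit 0) <| List.cons (nat_lit 0) <| List.cons (nat_lit 0) <| List.cons (nat_lit 0) <| List.nil) <|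
  List.nil) <|
  List.cons (List.cons (List.cons (nat_lit 131072) <| List.cons (nat_lit 0) <| List.cons (nat_lit 0) <| List.cons (nat_lit 0) <| List.cons (nat_lit 0) <| List.cons (nat_lit 0) <| List.cons (nat_lit 0) <| List.cons (nat_lit 251616) <| List.cons (nat_lit 0) <| List.cons (nat_lit 0) <| List.cons (nat_lit 0) <| List.cons (nat_lit 0) <| List.cons (nat_lit 180672) <| List.cons (nat_lit 0) <| List.cons (nat_lit 0) <| List.cons (nat_lit 11292) <| List.cons (nat_lit 0) <| List.cons (nat_lit 0) <| List.cons (nat_lit 0) <| List.cons (nat_lit 0) <| List.cons (nat_lit 0) <| List.cons (nat_lit 0) <| List.cons (nat_lit 0) <| List.nil) <|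
  List.cons (List.cons (nat_lit 131072) <| List.cons (nat_lit 1048576) <| List.cons (nat_lit 0) <| List.cons (nat_lit 0) <| List.cons (nat_lit 0) <| List.cons (nat_lit 0) <| List.cons (nat_lit 131072) <| List.cons (nat_lit 1048576) <| List.cons (nat_lit 251616) <| List.cons (nat_lit 0) <| List.cons (nat_lit 0) <| List.cons (nat_lit 0) <| List.cons (nat_lit 1048576) <| List.cons (nat_lit 180672) <| List.cons (nat_lit 0) <| List.cons (nat_lit 164948) <| List.cons (nat_lit 1048576) <| List.cons (nat_lit 0) <| List.cons (nat_lit 0) <| List.cons (nat_lit 0) <| List.cons (nat_lit 1048576) <| List.cons (nat_lit 0) <| List.cons (nat_lit 0) <| List.nil) <|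
  List.cons (List.cons (nat_lit 131072) <| List.cons (nat_lit 1048576) <| List.cons (nat_lit 1048576) <| List.cons (nat_lit 0) <| List.cons (nat_lit 0) <| List.cons (nat_lit 0) <| List.cons (nat_lit 524288) <| List.cons (nat_lit 1048576) <| List.cons (nat_lit 1048576) <| List.cons (nat_lit 251616) <| List.cons (nat_lit 0) <| List.cons (nat_lit 0) <| List.cons (nat_lit 1048576) <| List.cons (nat_lit 1048576) <| List.cons (nat_lit 180672) <| List.cons (nat_lit 625916) <| List.cons (nat_lit 1048576) <| List.cons (nat_lit 1048576) <| List.cons (nat_lit 0) <| List.cons (nat_lit 0) <| List.cons (nat_lit 1048576) <| List.cons (nat_lit 1048576) <| List.cons (nat_lit 0) <| List.nil) <|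
  List.cons (List.cons (nat_lit 131072) <| List.cons (nat_lit 1048576) <| List.cons (nat_lit 1048576) <| List.cons (nat_lit 1048576) <| List.cons (nat_lit 0) <| List.cons (nat_lit 0) <| List.cons (nat_lit 1703936) <| List.cons (nat_lit 1048576) <| List.cons (nat_lit 1048576) <| List.cons (nat_lit 1048576) <| List.cons (nat_lit 251616) <| List.cons (nat_lit 0) <| List.cons (nat_lit 1048576) <| List.cons (nat_lit 1048576) <| List.cons (nat_lit 1048576) <| List.cons (nat_lit 2008820) <| List.cons (nat_lit 1048576) <| List.cons (nat_lit 1048576) <| List.cons (nat_lit 1048576) <| List.cons (nat_lit 0) <| List.cons (nat_lit 1048576) <| List.cons (nat_lit 1048576) <| List.cons (nat_lit 1048576) <| List.nil) <|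
  List.cons (List.cons (nat_lit 131072) <| List.cons (nat_lit 1048576) <| List.cons (nat_lit 1048576) <| List.cons (nat_lit 1048576) <| List.cons (nat_lit 1048576) <| List.cons (nat_lit 0) <| List.cons (nat_lit 5242880) <| List.cons (nat_lit 1048576) <| List.cons (nat_lit 1048576) <| List.cons (nat_lit 1048576) <| List.cons (nat_lit 1048576) <| List.cons (nat_lit 251616) <| List.cons (nat_lit 1048576) <| List.cons (nat_lit 1048576) <| List.cons (nat_lit 1048576) <| List.cons (nat_lit 6157532) <| List.cons (nat_lit 1048576) <| List.cons (nat_lit 1048576) <| List.cons (nat_lit 1048576) <| List.cons (nat_lit 1048576) <| List.cons (nat_lit 1048576) <| List.cons (nat_lit 1048576) <| List.cons (nat_lit 1048576) <| List.nil) <|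
  List.cons (List.cons (nat_lit 131072) <| List.cons (nat_lit 1048576) <| List.cons (nat_lit 1048576) <| List.cons (nat_lit 1048576) <| List.cons (nat_lit 1048576) <| List.cons (nat_lit 1048576) <| List.cons (nat_lit 15859712) <| List.cons (nat_lit 1048576) <| List.cons (nat_lit 1048576) <| List.cons (nat_lit 1048576) <| List.cons (nat_lit 1048576) <| List.cons (nat_lit 1048576) <| List.cons (nat_lit 1048576) <| List.cons (nat_lit 1048576) <| List.cons (nat_lit 1048576) <| List.cons (nat_lit 18603668) <| List.cons (nat_lit 1048576) <| List.cons (nat_lit 1048576) <| List.cons (nat_lit 1048576) <| List.cons (nat_lit 1048576) <| List.cons (nat_lit 1048576) <| List.cons (nat_lit 1048576) <| List.cons (nat_lit 1048576) <| List.nil) <|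
  List.cons (List.cons (nat_lit 131072) <| List.cons (nat_lit 1048576) <| List.cons (nat_lit 1048576) <| List.cons (nat_lit 1048576) <| List.cons (nat_lit 1048576) <| List.cons (nat_lit 1048576) <| List.cons (nat_lit 47710208) <| List.cons (nat_lit 1048576) <| List.cons (nat_lit 1048576) <| List.cons (nat_lit 1048576) <| List.cons (nat_lit 1048576) <| List.cons (nat_lit 1048576) <| List.cons (nat_lit 1048576) <| List.cons (nat_lit 1048576) <| List.cons (nat_lit 1048576) <| List.cons (nat_lit 55942076) <| List.cons (nat_lit 1048576) <| List.cons (nat_lit 1048576) <| List.cons (nat_lit 1048576) <| List.cons (nat_lit 1048576) <| List.cons (nat_lit 1048576) <| List.cons (nat_lit 1048576) <| List.cons (nat_lit 1048576) <| List.nil) <|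
  List.cons (List.cons (nat_lit 131072) <| List.cons (nat_lit 1048576) <| List.cons (nat_lit 1048576) <| List.cons (nat_lit 1048576) <| List.cons (nat_lit 1048576) <| List.cons (nat_lit 1048576) <| List.cons (nat_lit 143261696) <| List.cons (nat_lit 1048576) <| List.cons (nat_lit 1048576) <| List.cons (nat_lit 1048576) <| List.cons (nat_lit 1048576) <| List.cons (nat_lit 1048576) <| List.cons (nat_lit 1048576) <| List.cons (nat_lit 1048576) <| List.cons (nat_lit 1048576) <| List.cons (nat_lit 167957300) <| List.cons (nat_lit 1048576) <| List.cons (nat_lit 1048576) <| List.cons (nat_lit 1048576) <| List.cons (nat_lit 1048576) <| List.cons (nat_lit 1048576) <| List.cons (nat_lit 1048576) <| List.cons (nat_lit 1048576) <| List.nil) <|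
  List.cons (List.cons (nat_lit 131072) <| List.cons (nat_lit 1048576) <| List.cons (nat_lit 1048576) <| List.cons (nat_lit 1048576) <| List.cons (nat_lit 1048576) <| List.cons (nat_lit 1048576) <| List.cons (nat_lit 429916160) <| List.cons (nat_lit 1048576) <| List.cons (nat_lit 1048576) <| List.cons (nat_lit 1048576) <| List.cons (nat_lit 1048576) <| List.cons (nat_lit 1048576) <| List.cons (nat_lit 1048576) <| List.cons (nat_lit 1048576) <| List.cons (nat_lit 1048576) <| List.cons (nat_lit 504002972) <| List.cons (nat_lit 1048576) <| List.cons (nat_lit 1048576) <| List.cons (nat_lit 1048576) <| List.cons (nat_lit 1048576) <| List.cons (nat_lit 1048576) <| List.cons (nat_lit 1048576) <| List.cons (nat_lit 1048576) <| List.nil) <|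
  List.cons (List.cons (nat_lit 131072) <| List.cons (nat_lit 1048576) <| List.cons (nat_lit 1048576) <| List.cons (nat_lit 1048576) <| List.cons (nat_lit 1048576) <| List.cons (nat_lit 1048576) <| List.cons (nat_lit 1289879552) <| List.cons (nat_lit 1048576) <| List.cons (nat_lit 1048576) <| List.cons (nat_lit 1048576) <| List.cons (nat_lit 1048576) <| List.cons (nat_lit 1048576) <| List.cons (nat_lit 1048576) <| List.cons (nat_lit 1048576) <| List.cons (nat_lit 1048576) <| List.cons (nat_lit 1512139988) <| List.cons (nat_lit 1048576) <| List.cons (nat_lit 1048576) <| List.cons (nat_lit 1048576) <| List.cons (nat_lit 1048576) <| List.cons (nat_lit 1048576) <| List.cons (nat_lit 1048576) <| List.cons (nat_lit 1048576) <| List.nil) <|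
  List.cons (List.cons (nat_lit 0) <| List.cons (nat_lit 0) <| List.cons (nat_lit 0) <| List.cons (nat_lit 0) <| List.cons (nat_lit 0) <| List.cons (nat_lit 0) <| List.cons (nat_lit 2579890176) <| List.cons (nat_lit 0) <| List.cons (nat_lit 0) <| List.cons (nat_lit 0) <| List.cons (nat_lit 0) <| List.cons (nat_lit 0) <| List.cons (nat_lit 0) <| List.cons (nat_lit 0) <| List.cons (nat_lit 0) <| List.cons (nat_lit 3024411048) <| List.cons (nat_lit 0) <| List.cons (nat_lit 0) <| List.cons (nat_lit 0) <| List.cons (nat_lit 0) <| List.cons (nat_lit 0) <| List.cons (nat_lit 0) <| List.cons (nat_lit 0) <| List.nil) <|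
  List.nil) <|
  List.cons (List.cons (List.cons (nat_lit 131072) <| List.cons (nat_lit 0) <| List.cons (nat_lit 0) <| List.cons (nat_lit 0) <| List.cons (nat_lit 0) <| List.cons (nat_lit 0) <| List.cons (nat_lit 0) <| List.cons (nat_lit 167168) <| List.cons (nat_lit 0) <| List.cons (nat_lit 0) <| List.cons (nat_lit 0) <| List.cons (nat_lit 0) <| List.cons (nat_lit 79744) <| List.cons (nat_lit 0) <| List.cons (nat_lit 0) <| List.cons (nat_lit 4984) <| List.cons (nat_lit 0) <| List.cons (nat_lit 0) <| List.cons (nat_lit 0) <| List.cons (nat_lit 0) <| List.cons (nat_lit 0) <| List.cons (nat_lit 0) <| List.cons (nat_lit 0) <| List.nil) <|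
  List.cons (List.cons (nat_lit 131072) <| List.cons (nat_lit 1048576) <| List.cons (nat_lit 0) <| List.cons (nat_lit 0) <| List.cons (nat_lit 0) <| List.cons (nat_lit 0) <| List.cons (nat_lit 131072) <| List.cons (nat_lit 1048576) <| List.cons (nat_lit 167168) <| List.cons (nat_lit 0) <| List.cons (nat_lit 0) <| List.cons (nat_lit 0) <| List.cons (nat_lit 1048576) <| List.cons (nat_lit 79744) <| List.cons (nat_lit 0) <| List.cons (nat_lit 146024) <| List.cons (nat_lit 1048576) <| List.cons (nat_lit 0) <| List.cons (nat_lit 0) <| List.cons (nat_lit 0) <| List.cons (nat_lit 1048576) <| List.cons (nat_lit 0) <| List.cons (nat_lit 0) <| List.nil) <|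
  List.cons (List.cons (nat_lit 131072) <| List.cons (nat_lit 1048576) <| List.cons (nat_lit 1048576) <| List.cons (nat_lit 0) <| List.cons (nat_lit 0) <| List.cons (nat_lit 0) <| List.cons (nat_lit 524288) <| List.cons (nat_lit 1048576) <| List.cons (nat_lit 1048576) <| List.cons (nat_lit 167168) <| List.cons (nat_lit 0) <| List.cons (nat_lit 0) <| List.cons (nat_lit 1048576) <| List.cons (nat_lit 1048576) <| List.cons (nat_lit 79744) <| List.cons (nat_lit 569144) <| List.cons (nat_lit 1048576) <| List.cons (nat_lit 1048576) <| List.cons (nat_lit 0) <| List.cons (nat_lit 0) <| List.cons (nat_lit 1048576) <| List.cons (nat_lit 1048576) <| List.cons (nat_lit 0) <| List.nil) <|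
  List.cons (List.cons (nat_lit 131072) <| List.cons (nat_lit 1048576) <| List.cons (nat_lit 1048576) <| List.cons (nat_lit 1048576) <| List.cons (nat_lit 0) <| List.cons (nat_lit 0) <| List.cons (nat_lit 1703936) <| List.cons (nat_lit 1048576) <| List.cons (nat_lit 1048576) <| List.cons (nat_lit 1048576) <| List.cons (nat_lit 167168) <| List.cons (nat_lit 0) <| List.cons (nat_lit 1048576) <| List.cons (nat_lit 1048576) <| List.cons (nat_lit 1048576) <| List.cons (nat_lit 1838504) <| List.cons (nat_lit 1048576) <| List.cons (nat_lit 1048576) <| List.cons (nat_lit 1048576) <| List.cons (nat_lit 0) <| List.cons (nat_lit 1048576) <| List.cons (nat_lit 1048576) <| List.cons (nat_lit 1048576) <| List.nil) <|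
  List.cons (List.cons (nat_lit 131072) <| List.cons (nat_lit 1048576) <| List.cons (nat_lit 1048576) <| List.cons (nat_lit 1048576) <| List.cons (nat_lit 1048576) <| List.cons (nat_lit 0) <| List.cons (nat_lit 5242880) <| List.cons (nat_lit 1048576) <| List.cons (nat_lit 1048576) <| List.cons (nat_lit 1048576) <| List.cons (nat_lit 1048576) <| List.cons (nat_lit 167168) <| List.cons (nat_lit 1048576) <| List.cons (nat_lit 1048576) <| List.cons (nat_lit 1048576) <| List.cons (nat_lit 5646584) <| List.cons (nat_lit 1048576) <| List.cons (nat_lit 1048576) <| List.cons (nat_lit 1048576) <| List.cons (nat_lit 1048576) <| List.cons (nat_lit 1048576) <| List.cons (nat_lit 1048576) <| List.cons (nat_lit 1048576) <| List.nil) <|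
  List.cons (List.cons (nat_lit 131072) <| List.cons (nat_lit 1048576) <| List.cons (nat_lit 1048576) <| List.cons (nat_lit 1048576) <| List.cons (nat_lit 1048576) <| List.cons (nat_lit 1048576) <| List.cons (nat_lit 15859712) <| List.cons (nat_lit 1048576) <| List.cons (nat_lit 1048576) <| List.cons (nat_lit 1048576) <| List.cons (nat_lit 1048576) <| List.cons (nat_lit 1048576) <| List.cons (nat_lit 1048576) <| List.cons (nat_lit 1048576) <| List.cons (nat_lit 1048576) <| List.cons (nat_lit 17070824) <| List.cons (nat_lit 1048576) <| List.cons (nat_lit 1048576) <| List.cons (nat_lit 1048576) <| List.cons (nat_lit 1048576) <| List.cons (nat_lit 1048576) <| List.cons (nat_lit 1048576) <| List.cons (nat_lit 1048576) <| List.nil) <|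
  List.cons (List.cons (nat_lit 131072) <| List.cons (nat_lit 1048576) <| List.cons (nat_lit 1048576) <| List.cons (nat_lit 1048576) <| List.cons (nat_lit 1048576) <| List.cons (nat_lit 1048576) <| List.cons (nat_lit 47710208) <| List.cons (nat_lit 1048576) <| List.cons (nat_lit 1048576) <| List.cons (nat_lit 1048576) <| List.cons (nat_lit 1048576) <| List.cons (nat_lit 1048576) <| List.cons (nat_lit 1048576) <| List.cons (nat_lit 1048576) <| List.cons (nat_lit 1048576) <| List.cons (nat_lit 51343544) <| List.cons (nat_lit 1048576) <| List.cons (nat_lit 1048576) <| List.cons (nat_lit 1048576) <| List.cons (nat_lit 1048576) <| List.cons (nat_lit 1048576) <| List.cons (nat_lit 1048576) <| List.cons (nat_lit 1048576) <| List.nil) <|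
  List.cons (List.cons (nat_lit 131072) <| List.cons (nat_lit 1048576) <| List.cons (nat_lit 1048576) <| List.cons (nat_lit 1048576) <| List.cons (nat_lit 1048576) <| List.cons (nat_lit 1048576) <| List.cons (nat_lit 143261696) <| List.cons (nat_lit 1048576) <| List.cons (nat_lit 1048576) <| List.cons (nat_lit 1048576) <| List.cons (nat_lit 1048576) <| List.cons (nat_lit 1048576) <| List.cons (nat_lit 1048576) <| List.cons (nat_lit 1048576) <| List.cons (nat_lit 1048576) <| List.cons (nat_lit 154161704) <| List.cons (nat_lit 1048576) <| List.cons (nat_lit 1048576) <| List.cons (nat_lit 1048576) <| List.cons (nat_lit 1048576) <| List.cons (nat_lit 1048576) <| List.cons (nat_lit 1048576) <| List.cons (nat_lit 1048576) <| List.nil) <|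
  List.cons (List.cons (nat_lit 131072) <| List.cons (nat_lit 1048576) <| List.cons (nat_lit 1048576) <| List.cons (nat_lit 1048576) <| List.cons (nat_lit 1048576) <| List.cons (nat_lit 1048576) <| List.cons (nat_lit 429916160) <| List.cons (nat_lit 1048576) <| List.cons (nat_lit 1048576) <| List.cons (nat_lit 1048576) <| List.cons (nat_lit 1048576) <| List.cons (nat_lit 1048576) <| List.cons (nat_lit 1048576) <| List.cons (nat_lit 1048576) <| List.cons (nat_lit 1048576) <| List.cons (nat_lit 462616184) <| List.cons (nat_lit 1048576) <| List.cons (nat_lit 1048576) <| List.cons (nat_lit 1048576) <| List.cons (nat_lit 1048576) <| List.cons (nat_lit 1048576) <| List.cons (nat_lit 1048576) <| List.cons (nat_lit 1048576) <| List.nil) <|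
  List.cons (List.cons (nat_lit 131072) <| List.cons (nat_lit 1048576) <| List.cons (nat_lit 1048576) <| List.cons (nat_lit 1048576) <| List.cons (nat_lit 1048576) <| List.cons (nat_lit 1048576) <| List.cons (nat_lit 1289879552) <| List.cons (nat_lit 1048576) <| List.cons (nat_lit 1048576) <| List.cons (nat_lit 1048576) <| List.cons (nat_lit 1048576) <| List.cons (nat_lit 1048576) <| List.cons (nat_lit 1048576) <| List.cons (nat_lit 1048576) <| List.cons (nat_lit 1048576) <| List.cons (nat_lit 1387979624) <| List.cons (nat_lit 1048576) <| List.cons (nat_lit 1048576) <| List.cons (nat_lit 1048576) <| List.cons (nat_lit 1048576) <| List.cons (nat_lit 1048576) <| List.cons (nat_lit 1048576) <| List.cons (nat_lit 1048576) <| List.nil) <|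
  List.cons (List.cons (nat_lit 0) <| List.cons (nat_lit 0) <| List.cons (nat_lit 0) <| List.cons (nat_lit 0) <| List.cons (nat_lit 0) <| List.cons (nat_lit 0) <| List.cons (nat_lit 2579890176) <| List.cons (nat_lit 0) <| List.cons (nat_lit 0) <| List.cons (nat_lit 0) <| List.cons (nat_lit 0) <| List.cons (nat_lit 0) <| List.cons (nat_lit 0) <| List.cons (nat_lit 0) <| List.cons (nat_lit 0) <| List.cons (nat_lit 2776090320) <| List.cons (nat_lit 0) <| List.cons (nat_lit 0) <| List.cons (nat_lit 0) <| List.cons (nat_lit 0) <| List.cons (nat_lit 0) <| List.cons (nat_lit 0) <| List.cons (nat_lit 0) <| List.nil) <|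
  List.nil) <|
  List.cons (List.cons (List.cons (nat_lit 131072) <| List.cons (nat_lit 0) <| List.cons (nat_lit 0) <| List.cons (nat_lit 0) <| List.cons (nat_lit 0) <| List.cons (nat_lit 0) <| List.cons (nat_lit 0) <| List.cons (nat_lit 235904) <| List.cons (nat_lit 0) <| List.cons (nat_lit 0) <| List.cons (nat_lit 0) <| List.cons (nat_lit 0) <| List.cons (nat_lit 158832) <| List.cons (nat_lit 0) <| List.cons (nat_lit 0) <| List.cons (nat_lit 9927) <| List.cons (nat_lit 0) <| List.cons (nat_lit 0) <| List.cons (nat_lit 0) <| List.cons (nat_lit 0) <| List.cons (nat_lit 0) <| List.cons (nat_lit 0) <| List.cons (nat_lit 0) <| List.nil) <|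
  List.cons (List.cons (nat_lit 131072) <| List.cons (nat_lit 1048576) <| List.cons (nat_lit 0) <| List.cons (nat_lit 0) <| List.cons (nat_lit 0) <| List.cons (nat_lit 0) <| List.cons (nat_lit 131072) <| List.cons (nat_lit 1048576) <| List.cons (nat_lit 235904) <| List.cons (nat_lit 0) <| List.cons (nat_lit 0) <| List.cons (nat_lit 0) <| List.cons (nat_lit 1048576) <| List.cons (nat_lit 158832) <| List.cons (nat_lit 0) <| List.cons (nat_lit 160853) <| List.cons (nat_lit 1048576) <| List.cons (nat_lit 0) <| List.cons (nat_lit 0) <| List.cons (nat_lit 0) <| List.cons (nat_lit 1048576) <| List.cons (nat_lit 0) <| List.cons (nat_lit 0) <| List.nil) <|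
  List.cons (List.cons (nat_lit 131072) <| List.cons (nat_lit 1048576) <| List.cons (nat_lit 1048576) <| List.cons (nat_lit 0) <| List.cons (nat_lit 0) <| List.cons (nat_lit 0) <| List.cons (nat_lit 524288) <| List.cons (nat_lit 1048576) <| List.cons (nat_lit 1048576) <| List.cons (nat_lit 235904) <| List.cons (nat_lit 0) <| List.cons (nat_lit 0) <| List.cons (nat_lit 1048576) <| List.cons (nat_lit 1048576) <| List.cons (nat_lit 158832) <| List.cons (nat_lit 613631) <| List.cons (nat_lit 1048576) <| List.cons (nat_lit 1048576) <| List.cons (nat_lit 0) <| List.cons (nat_lit 0) <| List.cons (nat_lit 1048576) <| List.cons (nat_lit 1048576) <| List.cons (nat_lit 0) <| List.nil) <|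
  List.cons (List.cons (nat_lit 131072) <| List.cons (nat_lit 1048576) <| List.cons (nat_lit 1048576) <| List.cons (nat_lit 1048576) <| List.cons (nat_lit 0) <| List.cons (nat_lit 0) <| List.cons (nat_lit 1703936) <| List.cons (nat_lit 1048576) <| List.cons (nat_lit 1048576) <| List.cons (nat_lit 1048576) <| List.cons (nat_lit 235904) <| List.cons (nat_lit 0) <| List.cons (nat_lit 1048576) <| List.cons (nat_lit 1048576) <| List.cons (nat_lit 1048576) <| List.cons (nat_lit 1971965) <| List.cons (nat_lit 1048576) <| List.cons (nat_lit 1048576) <| List.cons (nat_lit 1048576) <| List.cons (nat_lit 0) <| List.cons (nat_lit 1048576) <| List.cons (nat_lit 1048576) <| List.cons (nat_lit 1048576) <| List.nil) <|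
  List.cons (List.cons (nat_lit 131072) <| List.cons (nat_lit 1048576) <| List.cons (nat_lit 1048576) <| List.cons (nat_lit 1048576) <| List.cons (nat_lit 1048576) <| List.cons (nat_lit 0) <| List.cons (nat_lit 5242880) <| List.cons (nat_lit 1048576) <| List.cons (nat_lit 1048576) <| List.cons (nat_lit 1048576) <| List.cons (nat_lit 1048576) <| List.cons (nat_lit 235904) <| List.cons (nat_lit 1048576) <| List.cons (nat_lit 1048576) <| List.cons (nat_lit 1048576) <| List.cons (nat_lit 6046967) <| List.cons (nat_lit 1048576) <| List.cons (nat_lit 1048576) <| List.cons (nat_lit 1048576) <| List.cons (nat_lit 1048576) <| List.cons (nat_lit 1048576) <| List.cons (nat_lit 1048576) <| List.cons (nat_lit 1048576) <| List.nil) <|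
  List.cons (List.cons (nat_lit 131072) <| List.cons (nat_lit 1048576) <| List.cons (nat_lit 1048576) <| List.cons (nat_lit 1048576) <| List.cons (nat_lit 1048576) <| List.cons (nat_lit 1048576) <| List.cons (nat_lit 15859712) <| List.cons (nat_lit 1048576) <| List.cons (nat_lit 1048576) <| List.cons (nat_lit 1048576) <| List.cons (nat_lit 1048576) <| List.cons (nat_lit 1048576) <| List.cons (nat_lit 1048576) <| List.cons (nat_lit 1048576) <| List.cons (nat_lit 1048576) <| List.cons (nat_lit 18271973) <| List.cons (nat_lit 1048576) <| List.cons (nat_lit 1048576) <| List.cons (nat_lit 1048576) <| List.cons (nat_lit 1048576) <| List.cons (nat_lit 1048576) <| List.cons (nat_lit 1048576) <| List.cons (nat_lit 1048576) <| List.nil) <|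
  List.cons (List.cons (nat_lit 131072) <| List.cons (nat_lit 1048576) <| List.cons (nat_lit 1048576) <| List.cons (nat_lit 1048576) <| List.cons (nat_lit 1048576) <| List.cons (nat_lit 1048576) <| List.cons (nat_lit 47710208) <| List.cons (nat_lit 1048576) <| List.cons (nat_lit 1048576) <| List.cons (nat_lit 1048576) <| List.cons (nat_lit 1048576) <| List.cons (nat_lit 1048576) <| List.cons (nat_lit 1048576) <| List.cons (nat_lit 1048576) <| List.cons (nat_lit 1048576) <| List.cons (nat_lit 54946991) <| List.cons (nat_lit 1048576) <| List.cons (nat_lit 1048576) <| List.cons (nat_lit 1048576) <| List.cons (nat_lit 1048576) <| List.cons (nat_lit 1048576) <| List.cons (nat_lit 1048576) <| List.cons (nat_lit 1048576) <| List.nil) <|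
  List.cons (List.cons (nat_lit 131072) <| List.cons (nat_lit 1048576) <| List.cons (nat_lit 1048576) <| List.cons (nat_lit 1048576) <| List.cons (nat_lit 1048576) <| List.cons (nat_lit 1048576) <| List.cons (nat_lit 143261696) <| List.cons (nat_lit 1048576) <| List.cons (nat_lit 1048576) <| List.cons (nat_lit 1048576) <| List.cons (nat_lit 1048576) <| List.cons (nat_lit 1048576) <| List.cons (nat_lit 1048576) <| List.cons (nat_lit 1048576) <| List.cons (nat_lit 1048576) <| List.cons (nat_lit 164972045) <| List.cons (nat_lit 1048576) <| List.cons (nat_lit 1048576) <| List.cons (nat_lit 1048576) <| List.cons (nat_lit 1048576) <| List.cons (nat_lit 1048576) <| List.cons (nat_lit 1048576) <| List.cons (nat_lit 1048576) <| List.nil) <|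
  List.cons (List.cons (nat_lit 131072) <| List.cons (nat_lit 1048576) <| List.cons (nat_lit 1048576) <| List.cons (nat_lit 1048576) <| List.cons (nat_lit 1048576) <| List.cons (nat_lit 1048576) <| List.cons (nat_lit 429916160) <| List.cons (nat_lit 1048576) <| List.cons (nat_lit 1048576) <| List.cons (nat_lit 1048576) <| List.cons (nat_lit 1048576) <| List.cons (nat_lit 1048576) <| List.cons (nat_lit 1048576) <| List.cons (nat_lit 1048576) <| List.cons (nat_lit 1048576) <| List.cons (nat_lit 495047207) <| List.cons (nat_lit 1048576) <| List.cons (nat_lit 1048576) <| List.cons (nat_lit 1048576) <| List.cons (nat_lit 1048576) <| List.cons (nat_lit 1048576) <| List.cons (nat_lit 1048576) <| List.cons (nat_lit 1048576) <| List.nil) <|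
  List.cons (List.cons (nat_lit 131072) <| List.cons (nat_lit 1048576) <| List.cons (nat_lit 1048576) <| List.cons (nat_lit 1048576) <| List.cons (nat_lit 1048576) <| List.cons (nat_lit 1048576) <| List.cons (nat_lit 1289879552) <| List.cons (nat_lit 1048576) <| List.cons (nat_lit 1048576) <| List.cons (nat_lit 1048576) <| List.cons (nat_lit 1048576) <| List.cons (nat_lit 1048576) <| List.cons (nat_lit 1048576) <| List.cons (nat_lit 1048576) <| List.cons (nat_lit 1048576) <| List.cons (nat_lit 1485272693) <| List.cons (nat_lit 1048576) <| List.cons (nat_lit 1048576) <| List.cons (nat_lit 1048576) <| List.cons (nat_lit 1048576) <| List.cons (nat_lit 1048576) <| List.cons (nat_lit 1048576) <| List.cons (nat_lit 1048576) <| List.nil) <|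
  List.cons (List.cons (nat_lit 0) <| List.cons (nat_lit 0) <| List.cons (nat_lit 0) <| List.cons (nat_lit 0) <| List.cons (nat_lit 0) <| List.cons (nat_lit 0) <| List.cons (nat_lit 2579890176) <| List.cons (nat_lit 0) <| List.cons (nat_lit 0) <| List.cons (nat_lit 0) <| List.cons (nat_lit 0) <| List.cons (nat_lit 0) <| List.cons (nat_lit 0) <| List.cons (nat_lit 0) <| List.cons (nat_lit 0) <| List.cons (nat_lit 2970676458) <| List.cons (nat_lit 0) <| List.cons (nat_lit 0) <| List.cons (nat_lit 0) <| List.cons (nat_lit 0) <| List.cons (nat_lit 0) <| List.cons (nat_lit 0) <| List.cons (nat_lit 0) <| List.nil) <|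
  List.nil) <|
  List.cons (List.cons (List.cons (nat_lit 131072) <| List.cons (nat_lit 0) <| List.cons (nat_lit 0) <| List.cons (nat_lit 0) <| List.cons (nat_lit 0) <| List.cons (nat_lit 0) <| List.cons (nat_lit 0) <| List.cons (nat_lit 95248) <| List.cons (nat_lit 0) <| List.cons (nat_lit 0) <| List.cons (nat_lit 0) <| List.cons (nat_lit 0) <| List.cons (nat_lit 25888) <| List.cons (nat_lit 0) <| List.cons (nat_lit 0) <| List.cons (nat_lit 1618) <| List.cons (nat_lit 0) <| List.cons (nat_lit 0) <| List.cons (nat_lit 0) <| List.cons (nat_lit 0) <| List.cons (nat_lit 0) <| List.cons (nat_lit 0) <| List.cons (nat_lit 0) <| List.nil) <|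
  List.cons (List.cons (nat_lit 131072) <| List.cons (nat_lit 1048576) <| List.cons (nat_lit 0) <| List.cons (nat_lit 0) <| List.cons (nat_lit 0) <| List.cons (nat_lit 0) <| List.cons (nat_lit 131072) <| List.cons (nat_lit 1048576) <| List.cons (nat_lit 95248) <| List.cons (nat_lit 0) <| List.cons (nat_lit 0) <| List.cons (nat_lit 0) <| List.cons (nat_lit 1048576) <| List.cons (nat_lit 25888) <| List.cons (nat_lit 0) <| List.cons (nat_lit 135926) <| List.cons (nat_lit 1048576) <| List.cons (nat_lit 0) <| List.cons (nat_lit 0) <| List.cons (nat_lit 0) <| List.cons (nat_lit 1048576) <| List.cons (nat_lit 0) <| List.cons (nat_lit 0) <| List.nil) <|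
  List.cons (List.cons (nat_lit 131072) <| List.cons (nat_lit 1048576) <| List.cons (nat_lit 1048576) <| List.cons (nat_lit 0) <| List.cons (nat_lit 0) <| List.cons (nat_lit 0) <| List.cons (nat_lit 524288) <| List.cons (nat_lit 1048576) <| List.cons (nat_lit 1048576) <| List.cons (nat_lit 95248) <| List.cons (nat_lit 0) <| List.cons (nat_lit 0) <| List.cons (nat_lit 1048576) <| List.cons (nat_lit 1048576) <| List.cons (nat_lit 25888) <| List.cons (nat_lit 538850) <| List.cons (nat_lit 1048576) <| List.cons (nat_lit 1048576) <| List.cons (nat_lit 0) <| List.cons (nat_lit 0) <| List.cons (nat_lit 1048576) <| List.cons (nat_lit 1048576) <| List.cons (nat_lit 0) <| List.nil) <|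
  List.cons (List.cons (nat_lit 131072) <| List.cons (nat_lit 1048576) <| List.cons (nat_lit 1048576) <| List.cons (nat_lit 1048576) <| List.cons (nat_lit 0) <| List.cons (nat_lit 0) <| List.cons (nat_lit 1703936) <| List.cons (nat_lit 1048576) <| List.cons (nat_lit 1048576) <| List.cons (nat_lit 1048576) <| List.cons (nat_lit 95248) <| List.cons (nat_lit 0) <| List.cons (nat_lit 1048576) <| List.cons (nat_lit 1048576) <| List.cons (nat_lit 1048576) <| List.cons (nat_lit 1747622) <| List.cons (nat_lit 1048576) <| List.cons (nat_lit 1048576) <| List.cons (nat_lit 1048576) <| List.cons (nat_lit 0) <| List.cons (nat_lit 1048576) <| List.cons (nat_lit 1048576) <| List.cons (nat_lit 1048576) <| List.nil) <|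
  List.cons (List.cons (nat_lit 131072) <| List.cons (nat_lit 1048576) <| List.cons (nat_lit 1048576) <| List.cons (nat_lit 1048576) <| List.cons (nat_lit 1048576) <| List.cons (nat_lit 0) <| List.cons (nat_lit 5242880) <| List.cons (nat_lit 1048576) <| List.cons (nat_lit 1048576) <| List.cons (nat_lit 1048576) <| List.cons (nat_lit 1048576) <| List.cons (nat_lit 95248) <| List.cons (nat_lit 1048576) <| List.cons (nat_lit 1048576) <| List.cons (nat_lit 1048576) <| List.cons (nat_lit 5373938) <| List.cons (nat_lit 1048576) <| List.cons (nat_lit 1048576) <| List.cons (nat_lit 1048576) <| List.cons (nat_lit 1048576) <| List.cons (nat_lit 1048576) <| List.cons (nat_lit 1048576) <| List.cons (nat_lit 1048576) <| List.nil) <|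
  List.cons (List.cons (nat_lit 131072) <| List.cons (nat_lit 1048576) <| List.cons (nat_lit 1048576) <| List.cons (nat_lit 1048576) <| List.cons (nat_lit 1048576) <| List.cons (nat_lit 1048576) <| List.cons (nat_lit 15859712) <| List.cons (nat_lit 1048576) <| List.cons (nat_lit 1048576) <| List.cons (nat_lit 1048576) <| List.cons (nat_lit 1048576) <| List.cons (nat_lit 1048576) <| List.cons (nat_lit 1048576) <| List.cons (nat_lit 1048576) <| List.cons (nat_lit 1048576) <| List.cons (nat_lit 16252886) <| List.cons (nat_lit 1048576) <| List.cons (nat_lit 1048576) <| List.cons (nat_lit 1048576) <| List.cons (nat_lit 1048576) <| List.cons (nat_lit 1048576) <| List.cons (nat_lit 1048576) <| List.cons (nat_lit 1048576) <| List.nil) <|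
  List.cons (List.cons (nat_lit 131072) <| List.cons (nat_lit 1048576) <| List.cons (nat_lit 1048576) <| List.cons (nat_lit 1048576) <| List.cons (nat_lit 1048576) <| List.cons (nat_lit 1048576) <| List.cons (nat_lit 47710208) <| List.cons (nat_lit 1048576) <| List.cons (nat_lit 1048576) <| List.cons (nat_lit 1048576) <| List.cons (nat_lit 1048576) <| List.cons (nat_lit 1048576) <| List.cons (nat_lit 1048576) <| List.cons (nat_lit 1048576) <| List.cons (nat_lit 1048576) <| List.cons (nat_lit 48889730) <| List.cons (nat_lit 1048576) <| List.cons (nat_lit 1048576) <| List.cons (nat_lit 1048576) <| List.cons (nat_lit 1048576) <| List.cons (nat_lit 1048576) <| List.cons (nat_lit 1048576) <| List.cons (nat_lit 1048576) <| List.nil) <|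
  List.cons (List.cons (nat_lit 131072) <| List.cons (nat_lit 1048576) <| List.cons (nat_lit 1048576) <| List.cons (nat_lit 1048576) <| List.cons (nat_lit 1048576) <| List.cons (nat_lit 1048576) <| List.cons (nat_lit 143261696) <| List.cons (nat_lit 1048576) <| List.cons (nat_lit 1048576) <| List.cons (nat_lit 1048576) <| List.cons (nat_lit 1048576) <| List.cons (nat_lit 1048576) <| List.cons (nat_lit 1048576) <| List.cons (nat_lit 1048576) <| List.cons (nat_lit 1048576) <| List.cons (nat_lit 146800262) <| List.cons (nat_lit 1048576) <| List.cons (nat_lit 1048576) <| List.cons (nat_lit 1048576) <| List.cons (nat_lit 1048576) <| List.cons (nat_lit 1048576) <| List.cons (nat_lit 1048576) <| List.cons (nat_lit 1048576) <| List.nil) <|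
  List.cons (List.cons (nat_lit 131072) <| List.cons (nat_lit 1048576) <| List.cons (nat_lit 1048576) <| List.cons (nat_lit 1048576) <| List.cons (nat_lit 1048576) <| List.cons (nat_lit 1048576) <| List.cons (nat_lit 429916160) <| List.cons (nat_lit 1048576) <| List.cons (nat_lit 1048576) <| List.cons (nat_lit 1048576) <| List.cons (nat_lit 1048576) <| List.cons (nat_lit 1048576) <| List.cons (nat_lit 1048576) <| List.cons (nat_lit 1048576) <| List.cons (nat_lit 1048576) <| List.cons (nat_lit 440531858) <| List.cons (nat_lit 1048576) <| List.cons (nat_lit 1048576) <| List.cons (nat_lit 1048576) <| List.cons (nat_lit 1048576) <| List.cons (nat_lit 1048576) <| List.cons (nat_lit 1048576) <| List.cons (nat_lit 1048576) <| List.nil) <|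
  List.cons (List.cons (nat_lit 131072) <| List.cons (nat_lit 1048576) <| List.cons (nat_lit 1048576) <| List.cons (nat_lit 1048576) <| List.cons (nat_lit 1048576) <| List.cons (nat_lit 1048576) <| List.cons (nat_lit 1289879552) <| List.cons (nat_lit 1048576) <| List.cons (nat_lit 1048576) <| List.cons (nat_lit 1048576) <| List.cons (nat_lit 1048576) <| List.cons (nat_lit 1048576) <| List.cons (nat_lit 1048576) <| List.cons (nat_lit 1048576) <| List.cons (nat_lit 1048576) <| List.cons (nat_lit 1321726646) <| List.cons (nat_lit 1048576) <| List.cons (nat_lit 1048576) <| List.cons (nat_lit 1048576) <| List.cons (nat_lit 1048576) <| List.cons (nat_lit 1048576) <| List.cons (nat_lit 1048576) <| List.cons (nat_lit 1048576) <| List.nil) <|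
  List.cons (List.cons (nat_lit 0) <| List.cons (nat_lit 0) <| List.cons (nat_lit 0) <| List.cons (nat_lit 0) <| List.cons (nat_lit 0) <| List.cons (nat_lit 0) <| List.cons (nat_lit 2579890176) <| List.cons (nat_lit 0) <| List.cons (nat_lit 0) <| List.cons (nat_lit 0) <| List.cons (nat_lit 0) <| List.cons (nat_lit 0) <| List.cons (nat_lit 0) <| List.cons (nat_lit 0) <| List.cons (nat_lit 0) <| List.cons (nat_lit 2643584364) <| List.cons (nat_lit 0) <| List.cons (nat_lit 0) <| List.cons (nat_lit 0) <| List.cons (nat_lit 0) <| List.cons (nat_lit 0) <| List.cons (nat_lit 0) <| List.cons (nat_lit 0) <| List.nil) <|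
  List.nil) <|
  List.cons (List.cons (List.cons (nat_lit 131072) <| List.cons (nat_lit 0) <| List.cons (nat_lit 0) <| List.cons (nat_lit 0) <| List.cons (nat_lit 0) <| List.cons (nat_lit 0) <| List.cons (nat_lit 0) <| List.cons (nat_lit 34128) <| List.cons (nat_lit 0) <| List.cons (nat_lit 0) <| List.cons (nat_lit 0) <| List.cons (nat_lit 0) <| List.cons (nat_lit 3328) <| List.cons (nat_lit 0) <| List.cons (nat_lit 0) <| List.cons (nat_lit 208) <| List.cons (nat_lit 0) <| List.cons (nat_lit 0) <| List.cons (nat_lit 0) <| List.cons (nat_lit 0) <| List.cons (nat_lit 0) <| List.cons (nat_lit 0) <| List.cons (nat_lit 0) <| List.nil) <|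
  List.cons (List.cons (nat_lit 131072) <| List.cons (nat_lit 1048576) <| List.cons (nat_lit 0) <| List.cons (nat_lit 0) <| List.cons (nat_lit 0) <| List.cons (nat_lit 0) <| List.cons (nat_lit 131072) <| List.cons (nat_lit 1048576) <| List.cons (nat_lit 34128) <| List.cons (nat_lit 0) <| List.cons (nat_lit 0) <| List.cons (nat_lit 0) <| List.cons (nat_lit 1048576) <| List.cons (nat_lit 3328) <| List.cons (nat_lit 0) <| List.cons (nat_lit 131696) <| List.cons (nat_lit 1048576) <| List.cons (nat_lit 0) <| List.cons (nat_lit 0) <| List.cons (nat_lit 0) <| List.cons (nat_lit 1048576) <| List.cons (nat_lit 0) <| List.cons (nat_lit 0) <| List.nil) <|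
  List.cons (List.cons (nat_lit 131072) <| List.cons (nat_lit 1048576) <| List.cons (nat_lit 1048576) <| List.cons (nat_lit 0) <| List.cons (nat_lit 0) <| List.cons (nat_lit 0) <| List.cons (nat_lit 524288) <| List.cons (nat_lit 1048576) <| List.cons (nat_lit 1048576) <| List.cons (nat_lit 34128) <| List.cons (nat_lit 0) <| List.cons (nat_lit 0) <| List.cons (nat_lit 1048576) <| List.cons (nat_lit 1048576) <| List.cons (nat_lit 3328) <| List.cons (nat_lit 526160) <| List.cons (nat_lit 1048576) <| List.cons (nat_lit 1048576) <| List.cons (nat_lit 0) <| List.cons (nat_lit 0) <| List.cons (nat_lit 1048576) <| List.cons (nat_lit 1048576) <| List.cons (nat_lit 0) <| List.nil) <|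
  List.cons (List.cons (nat_lit 131072) <| List.cons (nat_lit 1048576) <| List.cons (nat_lit 1048576) <| List.cons (nat_lit 1048576) <| List.cons (nat_lit 0) <| List.cons (nat_lit 0) <| List.cons (nat_lit 1703936) <| List.cons (nat_lit 1048576) <| List.cons (nat_lit 1048576) <| List.cons (nat_lit 1048576) <| List.cons (nat_lit 34128) <| List.cons (nat_lit 0) <| List.cons (nat_lit 1048576) <| List.cons (nat_lit 1048576) <| List.cons (nat_lit 1048576) <| List.cons (nat_lit 1709552) <| List.cons (nat_lit 1048576) <| List.cons (nat_lit 1048576) <| List.cons (nat_lit 1048576) <| List.cons (nat_lit 0) <| List.cons (nat_lit 1048576) <| List.cons (nat_lit 1048576) <| List.cons (nat_lit 1048576) <| List.nil) <|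
  List.cons (List.cons (nat_lit 131072) <| List.cons (nat_lit 1048576) <| List.cons (nat_lit 1048576) <| List.cons (nat_lit 1048576) <| List.cons (nat_lit 1048576) <| List.cons (nat_lit 0) <| List.cons (nat_lit 5242880) <| List.cons (nat_lit 1048576) <| List.cons (nat_lit 1048576) <| List.cons (nat_lit 1048576) <| List.cons (nat_lit 1048576) <| List.cons (nat_lit 34128) <| List.cons (nat_lit 1048576) <| List.cons (nat_lit 1048576) <| List.cons (nat_lit 1048576) <| List.cons (nat_lit 5259728) <| List.cons (nat_lit 1048576) <| List.cons (nat_lit 1048576) <| List.cons (nat_lit 1048576) <| List.cons (nat_lit 1048576) <| List.cons (nat_lit 1048576) <| List.cons (nat_lit 1048576) <| List.cons (nat_lit 1048576) <| List.nil) <|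
  List.cons (List.cons (nat_lit 131072) <| List.cons (nat_lit 1048576) <| List.cons (nat_lit 1048576) <| List.cons (nat_lit 1048576) <| List.cons (nat_lit 1048576) <| List.cons (nat_lit 1048576) <| List.cons (nat_lit 15859712) <| List.cons (nat_lit 1048576) <| List.cons (nat_lit 1048576) <| List.cons (nat_lit 1048576) <| List.cons (nat_lit 1048576) <| List.cons (nat_lit 1048576) <| List.cons (nat_lit 1048576) <| List.cons (nat_lit 1048576) <| List.cons (nat_lit 1048576) <| List.cons (nat_lit 15910256) <| List.cons (nat_lit 1048576) <| List.cons (nat_lit 1048576) <| List.cons (nat_lit 1048576) <| List.cons (nat_lit 1048576) <| List.cons (nat_lit 1048576) <| List.cons (nat_lit 1048576) <| List.cons (nat_lit 1048576) <| List.nil) <|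
  List.cons (List.cons (nat_lit 131072) <| List.cons (nat_lit 1048576) <| List.cons (nat_lit 1048576) <| List.cons (nat_lit 1048576) <| List.cons (nat_lit 1048576) <| List.cons (nat_lit 1048576) <| List.cons (nat_lit 47710208) <| List.cons (nat_lit 1048576) <| List.cons (nat_lit 1048576) <| List.cons (nat_lit 1048576) <| List.cons (nat_lit 1048576) <| List.cons (nat_lit 1048576) <| List.cons (nat_lit 1048576) <| List.cons (nat_lit 1048576) <| List.cons (nat_lit 1048576) <| List.cons (nat_lit 47861840) <| List.cons (nat_lit 1048576) <| List.cons (nat_lit 1048576) <| List.cons (nat_lit 1048576) <| List.cons (nat_lit 1048576) <| List.cons (nat_lit 1048576) <| List.cons (nat_lit 1048576) <| List.cons (nat_lit 1048576) <| List.nil) <|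
  List.cons (List.cons (nat_lit 131072) <| List.cons (nat_lit 1048576) <| List.cons (nat_lit 1048576) <| List.cons (nat_lit 1048576) <| List.cons (nat_lit 1048576) <| List.cons (nat_lit 1048576) <| List.cons (nat_lit 143261696) <| List.cons (nat_lit 1048576) <| List.cons (nat_lit 1048576) <| List.cons (nat_lit 1048576) <| List.cons (nat_lit 1048576) <| List.cons (nat_lit 1048576) <| List.cons (nat_lit 1048576) <| List.cons (nat_lit 1048576) <| List.cons (nat_lit 1048576) <| List.cons (nat_lit 143716592) <| List.cons (nat_lit 1048576) <| List.cons (nat_lit 1048576) <| List.cons (nat_lit 1048576) <| List.cons (nat_lit 1048576) <| List.cons (nat_lit 1048576) <| List.cons (nat_lit 1048576) <| List.cons (nat_lit 1048576) <| List.nil) <|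
  List.cons (List.cons (nat_lit 131072) <| List.cons (nat_lit 1048576) <| List.cons (nat_lit 1048576) <| List.cons (nat_lit 1048576) <| List.cons (nat_lit 1048576) <| List.cons (nat_lit 1048576) <| List.cons (nat_lit 429916160) <| List.cons (nat_lit 1048576) <| List.cons (nat_lit 1048576) <| List.cons (nat_lit 1048576) <| List.cons (nat_lit 1048576) <| List.cons (nat_lit 1048576) <| List.cons (nat_lit 1048576) <| List.cons (nat_lit 1048576) <| List.cons (nat_lit 1048576) <| List.cons (nat_lit 431280848) <| List.cons (nat_lit 1048576) <| List.cons (nat_lit 1048576) <| List.cons (nat_lit 1048576) <| List.cons (nat_lit 1048576) <| List.cons (nat_lit 1048576) <| List.cons (nat_lit 1048576) <| List.cons (nat_lit 1048576) <| List.nil) <|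
  List.cons (List.cons (nat_lit 131072) <| List.cons (nat_lit 1048576) <| List.cons (nat_lit 1048576) <| List.cons (nat_lit 1048576) <| List.cons (nat_lit 1048576) <| List.cons (nat_lit 1048576) <| List.cons (nat_lit 1289879552) <| List.cons (nat_lit 1048576) <| List.cons (nat_lit 1048576) <| List.cons (nat_lit 1048576) <| List.cons (nat_lit 1048576) <| List.cons (nat_lit 1048576) <| List.cons (nat_lit 1048576) <| List.cons (nat_lit 1048576) <| List.cons (nat_lit 1048576) <| List.cons (nat_lit 1293973616) <| List.cons (nat_lit 1048576) <| List.cons (nat_lit 1048576) <| List.cons (nat_lit 1048576) <| List.cons (nat_lit 1048576) <| List.cons (nat_lit 1048576) <| List.cons (nat_lit 1048576) <| List.cons (nat_lit 1048576) <| List.nil) <|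
  List.cons (List.cons (nat_lit 0) <| List.cons (nat_lit 0) <| List.cons (nat_lit 0) <| List.cons (nat_lit 0) <| List.cons (nat_lit 0) <| List.cons (nat_lit 0) <| List.cons (nat_lit 2579890176) <| List.cons (nat_lit 0) <| List.cons (nat_lit 0) <| List.cons (nat_lit 0) <| List.cons (nat_lit 0) <| List.cons (nat_lit 0) <| List.cons (nat_lit 0) <| List.cons (nat_lit 0) <| List.cons (nat_lit 0) <| List.cons (nat_lit 2588078304) <| List.cons (nat_lit 0) <| List.cons (nat_lit 0) <| List.cons (nat_lit 0) <| List.cons (nat_lit 0) <| List.cons (nat_lit 0) <| List.cons (nat_lit 0) <| List.cons (nat_lit 0) <| List.nil) <|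
  List.nil) <|
  List.cons (List.cons (List.cons (nat_lit 131072) <| List.cons (nat_lit 0) <| List.cons (nat_lit 0) <| List.cons (nat_lit 0) <| List.cons (nat_lit 0) <| List.cons (nat_lit 0) <| List.cons (nat_lit 0) <| List.cons (nat_lit 141536) <| List.cons (nat_lit 0) <| List.cons (nat_lit 0) <| List.cons (nat_lit 0) <| List.cons (nat_lit 0) <| List.cons (nat_lit 57168) <| List.cons (nat_lit 0) <| List.cons (nat_lit 0) <| List.cons (nat_lit 3573) <| List.cons (nat_lit 0) <| List.cons (nat_lit 0) <| List.cons (nat_lit 0) <| List.cons (nat_lit 0) <| List.cons (nat_lit 0) <| List.cons (nat_lit 0) <| List.cons (nat_lit 0) <| List.nil) <|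
  List.cons (List.cons (nat_lit 131072) <| List.cons (nat_lit 1048576) <| List.cons (nat_lit 0) <| List.cons (nat_lit 0) <| List.cons (nat_lit 0) <| List.cons (nat_lit 0) <| List.cons (nat_lit 131072) <| List.cons (nat_lit 1048576) <| List.cons (nat_lit 141536) <| List.cons (nat_lit 0) <| List.cons (nat_lit 0) <| List.cons (nat_lit 0) <| List.cons (nat_lit 1048576) <| List.cons (nat_lit 57168) <| List.cons (nat_lit 0) <| List.cons (nat_lit 141791) <| List.cons (nat_lit 1048576) <| List.cons (nat_lit 0) <| List.cons (nat_lit 0) <| List.cons (nat_lit 0) <| List.cons (nat_lit 1048576) <| List.cons (nat_lit 0) <| List.cons (nat_lit 0) <| List.nil) <|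
  List.cons (List.cons (nat_lit 131072) <| List.cons (nat_lit 1048576) <| List.cons (nat_lit 1048576) <| List.cons (nat_lit 0) <| List.cons (nat_lit 0) <| List.cons (nat_lit 0) <| List.cons (nat_lit 524288) <| List.cons (nat_lit 1048576) <| List.cons (nat_lit 1048576) <| List.cons (nat_lit 141536) <| List.cons (nat_lit 0) <| List.cons (nat_lit 0) <| List.cons (nat_lit 1048576) <| List.cons (nat_lit 1048576) <| List.cons (nat_lit 57168) <| List.cons (nat_lit 556445) <| List.cons (nat_lit 1048576) <| List.cons (nat_lit 1048576) <| List.cons (nat_lit 0) <| List.cons (nat_lit 0) <| List.cons (nat_lit 1048576) <| List.cons (nat_lit 1048576) <| List.cons (nat_lit 0) <| List.nil) <|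
  List.cons (List.cons (nat_lit 131072) <| List.cons (nat_lit 1048576) <| List.cons (nat_lit 1048576) <| List.cons (nat_lit 1048576) <| List.cons (nat_lit 0) <| List.cons (nat_lit 0) <| List.cons (nat_lit 1703936) <| List.cons (nat_lit 1048576) <| List.cons (nat_lit 1048576) <| List.cons (nat_lit 1048576) <| List.cons (nat_lit 141536) <| List.cons (nat_lit 0) <| List.cons (nat_lit 1048576) <| List.cons (nat_lit 1048576) <| List.cons (nat_lit 1048576) <| List.cons (nat_lit 1800407) <| List.cons (nat_lit 1048576) <| List.cons (nat_lit 1048576) <| List.cons (nat_lit 1048576) <| List.cons (nat_lit 0) <| List.cons (nat_lit 1048576) <| List.cons (nat_lit 1048576) <| List.cons (nat_lit 1048576) <| List.nil) <|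
  List.cons (List.cons (nat_lit 131072) <| List.cons (nat_lit 1048576) <| List.cons (nat_lit 1048576) <| List.cons (nat_lit 1048576) <| List.cons (nat_lit 1048576) <| List.cons (nat_lit 0) <| List.cons (nat_lit 5242880) <| List.cons (nat_lit 1048576) <| List.cons (nat_lit 1048576) <| List.cons (nat_lit 1048576) <| List.cons (nat_lit 1048576) <| List.cons (nat_lit 141536) <| List.cons (nat_lit 1048576) <| List.cons (nat_lit 1048576) <| List.cons (nat_lit 1048576) <| List.cons (nat_lit 5532293) <| List.cons (nat_lit 1048576) <| List.cons (nat_lit 1048576) <| List.cons (nat_lit 1048576) <| List.cons (nat_lit 1048576) <| List.cons (nat_lit 1048576) <| List.cons (nat_lit 1048576) <| List.cons (nat_lit 1048576) <| List.nil) <|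
  List.cons (List.cons (nat_lit 131072) <| List.cons (nat_lit 1048576) <| List.cons (nat_lit 1048576) <| List.cons (nat_lit 1048576) <| List.cons (nat_lit 1048576) <| List.cons (nat_lit 1048576) <| List.cons (nat_lit 15859712) <| List.cons (nat_lit 1048576) <| List.cons (nat_lit 1048576) <| List.cons (nat_lit 1048576) <| List.cons (nat_lit 1048576) <| List.cons (nat_lit 1048576) <| List.cons (nat_lit 1048576) <| List.cons (nat_lit 1048576) <| List.cons (nat_lit 1048576) <| List.cons (nat_lit 16727951) <| List.cons (nat_lit 1048576) <| List.cons (nat_lit 1048576) <| List.cons (nat_lit 1048576) <| List.cons (nat_lit 1048576) <| List.cons (nat_lit 1048576) <| List.cons (nat_lit 1048576) <| List.cons (nat_lit 1048576) <| List.nil) <|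
  List.cons (List.cons (nat_lit 131072) <| List.cons (nat_lit 1048576) <| List.cons (nat_lit 1048576) <| List.cons (nat_lit 1048576) <| List.cons (nat_lit 1048576) <| List.cons (nat_lit 1048576) <| List.cons (nat_lit 47710208) <| List.cons (nat_lit 1048576) <| List.cons (nat_lit 1048576) <| List.cons (nat_lit 1048576) <| List.cons (nat_lit 1048576) <| List.cons (nat_lit 1048576) <| List.cons (nat_lit 1048576) <| List.cons (nat_lit 1048576) <| List.cons (nat_lit 1048576) <| List.cons (nat_lit 50314925) <| List.cons (nat_lit 1048576) <| List.cons (nat_lit 1048576) <| List.cons (nat_lit 1048576) <| List.cons (nat_lit 1048576) <| List.cons (nat_lit 1048576) <| List.cons (nat_lit 1048576) <| List.cons (nat_lit 1048576) <| List.nil) <|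
  List.cons (List.cons (nat_lit 131072) <| List.cons (nat_lit 1048576) <| List.cons (nat_lit 1048576) <| List.cons (nat_lit 1048576) <| List.cons (nat_lit 1048576) <| List.cons (nat_lit 1048576) <| List.cons (nat_lit 143261696) <| List.cons (nat_lit 1048576) <| List.cons (nat_lit 1048576) <| List.cons (nat_lit 1048576) <| List.cons (nat_lit 1048576) <| List.cons (nat_lit 1048576) <| List.cons (nat_lit 1048576) <| List.cons (nat_lit 1048576) <| List.cons (nat_lit 1048576) <| List.cons (nat_lit 151075847) <| List.cons (nat_lit 1048576) <| List.cons (nat_lit 1048576) <| List.cons (nat_lit 1048576) <| List.cons (nat_lit 1048576) <| List.cons (nat_lit 1048576) <| List.cons (nat_lit 1048576) <| List.cons (nat_lit 1048576) <| List.nil) <|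
  List.cons (List.cons (nat_lit 131072) <| List.cons (nat_lit 1048576) <| List.cons (nat_lit 1048576) <| List.cons (nat_lit 1048576) <| List.cons (nat_lit 1048576) <| List.cons (nat_lit 1048576) <| List.cons (nat_lit 429916160) <| List.cons (nat_lit 1048576) <| List.cons (nat_lit 1048576) <| List.cons (nat_lit 1048576) <| List.cons (nat_lit 1048576) <| List.cons (nat_lit 1048576) <| List.cons (nat_lit 1048576) <| List.cons (nat_lit 1048576) <| List.cons (nat_lit 1048576) <| List.cons (nat_lit 453358613) <| List.cons (nat_lit 1048576) <| List.cons (nat_lit 1048576) <| List.cons (nat_lit 1048576) <| List.cons (nat_lit 1048576) <| List.cons (nat_lit 1048576) <| List.cons (nat_lit 1048576) <| List.cons (nat_lit 1048576) <| List.nil) <|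
  List.cons (List.cons (nat_lit 131072) <| List.cons (nat_lit 1048576) <| List.cons (nat_lit 1048576) <| List.cons (nat_lit 1048576) <| List.cons (nat_lit 1048576) <| List.cons (nat_lit 1048576) <| List.cons (nat_lit 1289879552) <| List.cons (nat_lit 1048576) <| List.cons (nat_lit 1048576) <| List.cons (nat_lit 1048576) <| List.cons (nat_lit 1048576) <| List.cons (nat_lit 1048576) <| List.cons (nat_lit 1048576) <| List.cons (nat_lit 1048576) <| List.cons (nat_lit 1048576) <| List.cons (nat_lit 1360206911) <| List.cons (nat_lit 1048576) <| List.cons (nat_lit 1048576) <| List.cons (nat_lit 1048576) <| List.cons (nat_lit 1048576) <| List.cons (nat_lit 1048576) <| List.cons (nat_lit 1048576) <| List.cons (nat_lit 1048576) <| List.nil) <|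
  List.cons (List.cons (nat_lit 0) <| List.cons (nat_lit 0) <| List.cons (nat_lit 0) <| List.cons (nat_lit 0) <| List.cons (nat_lit 0) <| List.cons (nat_lit 0) <| List.cons (nat_lit 2579890176) <| List.cons (nat_lit 0) <| List.cons (nat_lit 0) <| List.cons (nat_lit 0) <| List.cons (nat_lit 0) <| List.cons (nat_lit 0) <| List.cons (nat_lit 0) <| List.cons (nat_lit 0) <| List.cons (nat_lit 0) <| List.cons (nat_lit 2720544894) <| List.cons (nat_lit 0) <| List.cons (nat_lit 0) <| List.cons (nat_lit 0) <| List.cons (nat_lit 0) <| List.cons (nat_lit 0) <| List.cons (nat_lit 0) <| List.cons (nat_lit 0) <| List.nil) <|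
  List.nil) <|
  List.cons (List.cons (List.cons (nat_lit 131072) <| List.cons (nat_lit 0) <| List.cons (nat_lit 0) <| List.cons (nat_lit 0) <| List.cons (nat_lit 0) <| List.cons (nat_lit 0) <| List.cons (nat_lit 0) <| List.cons (nat_lit 63888) <| List.cons (nat_lit 0) <| List.cons (nat_lit 0) <| List.cons (nat_lit 0) <| List.cons (nat_lit 0) <| List.cons (nat_lit 11648) <| List.cons (nat_lit 0) <| List.cons (nat_lit 0) <| List.cons (nat_lit 728) <| List.cons (nat_lit 0) <| List.cons (nat_lit 0) <| List.cons (nat_lit 0) <| List.cons (nat_lit 0) <| List.cons (nat_lit 0) <| List.cons (nat_lit 0) <| List.cons (nat_lit 0) <| List.nil) <|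
  List.cons (List.cons (nat_lit 131072) <| List.cons (nat_lit 1048576) <| List.cons (nat_lit 0) <| List.cons (nat_lit 0) <| List.cons (nat_lit 0) <| List.cons (nat_lit 0) <| List.cons (nat_lit 131072) <| List.cons (nat_lit 1048576) <| List.cons (nat_lit 63888) <| List.cons (nat_lit 0) <| List.cons (nat_lit 0) <| List.cons (nat_lit 0) <| List.cons (nat_lit 1048576) <| List.cons (nat_lit 11648) <| List.cons (nat_lit 0) <| List.cons (nat_lit 133256) <| List.cons (nat_lit 1048576) <| List.cons (nat_lit 0) <| List.cons (nat_lit 0) <| List.cons (nat_lit 0) <| List.cons (nat_lit 1048576) <| List.cons (nat_lit 0) <| List.cons (nat_lit 0) <| List.nil) <|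
  List.cons (List.cons (nat_lit 131072) <| List.cons (nat_lit 1048576) <| List.cons (nat_lit 1048576) <| List.cons (nat_lit 0) <| List.cons (nat_lit 0) <| List.cons (nat_lit 0) <| List.cons (nat_lit 524288) <| List.cons (nat_lit 1048576) <| List.cons (nat_lit 1048576) <| List.cons (nat_lit 63888) <| List.cons (nat_lit 0) <| List.cons (nat_lit 0) <| List.cons (nat_lit 1048576) <| List.cons (nat_lit 1048576) <| List.cons (nat_lit 11648) <| List.cons (nat_lit 530840) <| List.cons (nat_lit 1048576) <| List.cons (nat_lit 1048576) <| List.cons (nat_lit 0) <| List.cons (nat_lit 0) <| List.cons (nat_lit 1048576) <| List.cons (nat_lit 1048576) <| List.cons (nat_lit 0) <| List.nil) <|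
  List.cons (List.cons (nat_lit 131072) <| List.cons (nat_lit 1048576) <| List.cons (nat_lit 1048576) <| List.cons (nat_lit 1048576) <| List.cons (nat_lit 0) <| List.cons (nat_lit 0) <| List.cons (nat_lit 1703936) <| List.cons (nat_lit 1048576) <| List.cons (nat_lit 1048576) <| List.cons (nat_lit 1048576) <| List.cons (nat_lit 63888) <| List.cons (nat_lit 0) <| List.cons (nat_lit 1048576) <| List.cons (nat_lit 1048576) <| List.cons (nat_lit 1048576) <| List.cons (nat_lit 1723592) <| List.cons (nat_lit 1048576) <| List.cons (nat_lit 1048576) <| List.cons (nat_lit 1048576) <| List.cons (nat_lit 0) <| List.cons (nat_lit 1048576) <| List.cons (nat_lit 1048576) <| List.cons (nat_lit 1048576) <| List.nil) <|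
  List.cons (List.cons (nat_lit 131072) <| List.cons (nat_lit 1048576) <| List.cons (nat_lit 1048576) <| List.cons (nat_lit 1048576) <| List.cons (nat_lit 1048576) <| List.cons (nat_lit 0) <| List.cons (nat_lit 5242880) <| List.cons (nat_lit 1048576) <| List.cons (nat_lit 1048576) <| List.cons (nat_lit 1048576) <| List.cons (nat_lit 1048576) <| List.cons (nat_lit 63888) <| List.cons (nat_lit 1048576) <| List.cons (nat_lit 1048576) <| List.cons (nat_lit 1048576) <| List.cons (nat_lit 5301848) <| List.cons (nat_lit 1048576) <| List.cons (nat_lit 1048576) <| List.cons (nat_lit 1048576) <| List.cons (nat_lit 1048576) <| List.cons (nat_lit 1048576) <| List.cons (nat_lit 1048576) <| List.cons (nat_lit 1048576) <| List.nil) <|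
  List.cons (List.cons (nat_lit 131072) <| List.cons (nat_lit 1048576) <| List.cons (nat_lit 1048576) <| List.cons (nat_lit 1048576) <| List.cons (nat_lit 1048576) <| List.cons (nat_lit 1048576) <| List.cons (nat_lit 15859712) <| List.cons (nat_lit 1048576) <| List.cons (nat_lit 1048576) <| List.cons (nat_lit 1048576) <| List.cons (nat_lit 1048576) <| List.cons (nat_lit 1048576) <| List.cons (nat_lit 1048576) <| List.cons (nat_lit 1048576) <| List.cons (nat_lit 1048576) <| List.cons (nat_lit 16036616) <| List.cons (nat_lit 1048576) <| List.cons (nat_lit 1048576) <| List.cons (nat_lit 1048576) <| List.cons (nat_lit 1048576) <| List.cons (nat_lit 1048576) <| List.cons (nat_lit 1048576) <| List.cons (nat_lit 1048576) <| List.nil) <|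
  List.cons (List.cons (nat_lit 131072) <| List.cons (nat_lit 1048576) <| List.cons (nat_lit 1048576) <| List.cons (nat_lit 1048576) <| List.cons (nat_lit 1048576) <| List.cons (nat_lit 1048576) <| List.cons (nat_lit 47710208) <| List.cons (nat_lit 1048576) <| List.cons (nat_lit 1048576) <| List.cons (nat_lit 1048576) <| List.cons (nat_lit 1048576) <| List.cons (nat_lit 1048576) <| List.cons (nat_lit 1048576) <| List.cons (nat_lit 1048576) <| List.cons (nat_lit 1048576) <| List.cons (nat_lit 48240920) <| List.cons (nat_lit 1048576) <| List.cons (nat_lit 1048576) <| List.cons (nat_lit 1048576) <| List.cons (nat_lit 1048576) <| List.cons (nat_lit 1048576) <| List.cons (nat_lit 1048576) <| List.cons (nat_lit 1048576) <| List.nil) <|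
  List.cons (List.cons (nat_lit 131072) <| List.cons (nat_lit 1048576) <| List.cons (nat_lit 1048576) <| List.cons (nat_lit 1048576) <| List.cons (nat_lit 1048576) <| List.cons (nat_lit 1048576) <| List.cons (nat_lit 143261696) <| List.cons (nat_lit 1048576) <| List.cons (nat_lit 1048576) <| List.cons (nat_lit 1048576) <| List.cons (nat_lit 1048576) <| List.cons (nat_lit 1048576) <| List.cons (nat_lit 1048576) <| List.cons (nat_lit 1048576) <| List.cons (nat_lit 1048576) <| List.cons (nat_lit 144853832) <| List.cons (nat_lit 1048576) <| List.cons (nat_lit 1048576) <| List.cons (nat_lit 1048576) <| List.cons (nat_lit 1048576) <| List.cons (nat_lit 1048576) <| List.cons (nat_lit 1048576) <| List.cons (nat_lit 1048576) <| List.nil) <|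
  List.cons (List.cons (nat_lit 131072) <| List.cons (nat_lit 1048576) <| List.cons (nat_lit 1048576) <| List.cons (nat_lit 1048576) <| List.cons (nat_lit 1048576) <| List.cons (nat_lit 1048576) <| List.cons (nat_lit 429916160) <| List.cons (nat_lit 1048576) <| List.cons (nat_lit 1048576) <| List.cons (nat_lit 1048576) <| List.cons (nat_lit 1048576) <| List.cons (nat_lit 1048576) <| List.cons (nat_lit 1048576) <| List.cons (nat_lit 1048576) <| List.cons (nat_lit 1048576) <| List.cons (nat_lit 434692568) <| List.cons (nat_lit 1048576) <| List.cons (nat_lit 1048576) <| List.cons (nat_lit 1048576) <| List.cons (nat_lit 1048576) <| List.cons (nat_lit 1048576) <| List.cons (nat_lit 1048576) <| List.cons (nat_lit 1048576) <| List.nil) <|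
  List.cons (List.cons (nat_lit 131072) <| List.cons (nat_lit 1048576) <| List.cons (nat_lit 1048576) <| List.cons (nat_lit 1048576) <| List.cons (nat_lit 1048576) <| List.cons (nat_lit 1048576) <| List.cons (nat_lit 1289879552) <| List.cons (nat_lit 1048576) <| List.cons (nat_lit 1048576) <| List.cons (nat_lit 1048576) <| List.cons (nat_lit 1048576) <| List.cons (nat_lit 1048576) <| List.cons (nat_lit 1048576) <| List.cons (nat_lit 1048576) <| List.cons (nat_lit 1048576) <| List.cons (nat_lit 1304208776) <| List.cons (nat_lit 1048576) <| List.cons (nat_lit 1048576) <| List.cons (nat_lit 1048576) <| List.cons (nat_lit 1048576) <| List.cons (nat_lit 1048576) <| List.cons (nat_lit 1048576) <| List.cons (nat_lit 1048576) <| List.nil) <|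
  List.cons (List.cons (nat_lit 0) <| List.cons (nat_lit 0) <| List.cons (nat_lit 0) <| List.cons (nat_lit 0) <| List.cons (nat_lit 0) <| List.cons (nat_lit 0) <| List.cons (nat_lit 2579890176) <| List.cons (nat_lit 0) <| List.cons (nat_lit 0) <| List.cons (nat_lit 0) <| List.cons (nat_lit 0) <| List.cons (nat_lit 0) <| List.cons (nat_lit 0) <| List.cons (nat_lit 0) <| List.cons (nat_lit 0) <| List.cons (nat_lit 2608548624) <| List.cons (nat_lit 0) <| List.cons (nat_lit 0) <| List.cons (nat_lit 0) <| List.cons (nat_lit 0) <| List.cons (nat_lit 0) <| List.cons (nat_lit 0) <| List.cons (nat_lit 0) <| List.nil) <|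
  List.nil) <|
  List.cons (List.cons (List.cons (nat_lit 131072) <| List.cons (nat_lit 0) <| List.cons (nat_lit 0) <| List.cons (nat_lit 0) <| List.cons (nat_lit 0) <| List.cons (nat_lit 0) <| List.cons (nat_lit 0) <| List.cons (nat_lit 0) <| List.cons (nat_lit 0) <| List.cons (nat_lit 0) <| List.cons (nat_lit 0) <| List.cons (nat_lit 0) <| List.cons (nat_lit 0) <| List.cons (nat_lit 0) <| List.cons (nat_lit 0) <| List.cons (nat_lit 0) <| List.cons (nat_lit 0) <| List.cons (nat_lit 0) <| List.cons (nat_lit 0) <| List.cons (nat_lit 0) <| List.cons (nat_lit 0) <| List.cons (nat_lit 0) <| List.cons (nat_lit 0) <| List.nil) <|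
  List.cons (List.cons (nat_lit 131072) <| List.cons (nat_lit 1048576) <| List.cons (nat_lit 0) <| List.cons (nat_lit 0) <| List.cons (nat_lit 0) <| List.cons (nat_lit 0) <| List.cons (nat_lit 131072) <| List.cons (nat_lit 1048576) <| List.cons (nat_lit 0) <| List.cons (nat_lit 0) <| List.cons (nat_lit 0) <| List.cons (nat_lit 0) <| List.cons (nat_lit 1048576) <| List.cons (nat_lit 0) <| List.cons (nat_lit 0) <| List.cons (nat_lit 131072) <| List.cons (nat_lit 1048576) <| List.cons (nat_lit 0) <| List.cons (nat_lit 0) <| List.cons (nat_lit 0) <| List.cons (nat_lit 1048576) <| List.cons (nat_lit 0) <| List.cons (nat_lit 0) <| List.nil) <|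
  List.cons (List.cons (nat_lit 131072) <| List.cons (nat_lit 1048576) <| List.cons (nat_lit 1048576) <| List.cons (nat_lit 0) <| List.cons (nat_lit 0) <| List.cons (nat_lit 0) <| List.cons (nat_lit 524288) <| List.cons (nat_lit 1048576) <| List.cons (nat_lit 1048576) <| List.cons (nat_lit 0) <| List.cons (nat_lit 0) <| List.cons (nat_lit 0) <| List.cons (nat_lit 1048576) <| List.cons (nat_lit 1048576) <| List.cons (nat_lit 0) <| List.cons (nat_lit 524288) <| List.cons (nat_lit 1048576) <| List.cons (nat_lit 1048576) <| List.cons (nat_lit 0) <| List.cons (nat_lit 0) <| List.cons (nat_lit 1048576) <| List.cons (nat_lit 1048576) <| List.cons (nat_lit 0) <| List.nil) <|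
  List.cons (List.cons (nat_lit 131072) <| List.cons (nat_lit 1048576) <| List.cons (nat_lit 1048576) <| List.cons (nat_lit 1048576) <| List.cons (nat_lit 0) <| List.cons (nat_lit 0) <| List.cons (nat_lit 1703936) <| List.cons (nat_lit 1048576) <| List.cons (nat_lit 1048576) <| List.cons (nat_lit 1048576) <| List.cons (nat_lit 0) <| List.cons (nat_lit 0) <| List.cons (nat_lit 1048576) <| List.cons (nat_lit 1048576) <| List.cons (nat_lit 1048576) <| List.cons (nat_lit 1703936) <| List.cons (nat_lit 1048576) <| List.cons (nat_lit 1048576) <| List.cons (nat_lit 1048576) <| List.cons (nat_lit 0) <| List.cons (nat_lit 1048576) <| List.cons (nat_lit 1048576) <| List.cons (nat_lit 1048576) <| List.nil) <|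
  List.cons (List.cons (nat_lit 131072) <| List.cons (nat_lit 1048576) <| List.cons (nat_lit 1048576) <| List.cons (nat_lit 1048576) <| List.cons (nat_lit 1048576) <| List.cons (nat_lit 0) <| List.cons (nat_lit 5242880) <| List.cons (nat_lit 1048576) <| List.cons (nat_lit 1048576) <| List.cons (nat_lit 1048576) <| List.cons (nat_lit 1048576) <| List.cons (nat_lit 0) <| List.cons (nat_lit 1048576) <| List.cons (nat_lit 1048576) <| List.cons (nat_lit 1048576) <| List.cons (nat_lit 5242880) <| List.cons (nat_lit 1048576) <| List.cons (nat_lit 1048576) <| List.cons (nat_lit 1048576) <| List.cons (nat_lit 1048576) <| List.cons (nat_lit 1048576) <| List.cons (nat_lit 1048576) <| List.cons (nat_lit 1048576) <| List.nil) <|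
  List.cons (List.cons (nat_lit 131072) <| List.cons (nat_lit 1048576) <| List.cons (nat_lit 1048576) <| List.cons (nat_lit 1048576) <| List.cons (nat_lit 1048576) <| List.cons (nat_lit 1048576) <| List.cons (nat_lit 15859712) <| List.cons (nat_lit 1048576) <| List.cons (nat_lit 1048576) <| List.cons (nat_lit 1048576) <| List.cons (nat_lit 1048576) <| List.cons (nat_lit 1048576) <| List.cons (nat_lit 1048576) <| List.cons (nat_lit 1048576) <| List.cons (nat_lit 1048576) <| List.cons (nat_lit 15859712) <| List.cons (nat_lit 1048576) <| List.cons (nat_lit 1048576) <| List.cons (nat_lit 1048576) <| List.cons (nat_lit 1048576) <| List.cons (nat_lit 1048576) <| List.cons (nat_lit 1048576) <| List.cons (nat_lit 1048576) <| List.nil) <|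
  List.cons (List.cons (nat_lit 131072) <| List.cons (nat_lit 1048576) <| List.cons (nat_lit 1048576) <| List.cons (nat_lit 1048576) <| List.cons (nat_lit 1048576) <| List.cons (nat_lit 1048576) <| List.cons (nat_lit 47710208) <| List.cons (nat_lit 1048576) <| List.cons (nat_lit 1048576) <| List.cons (nat_lit 1048576) <| List.cons (nat_lit 1048576) <| List.cons (nat_lit 1048576) <| List.cons (nat_lit 1048576) <| List.cons (nat_lit 1048576) <| List.cons (nat_lit 1048576) <| List.cons (nat_lit 47710208) <| List.cons (nat_lit 1048576) <| List.cons (nat_lit 1048576) <| List.cons (nat_lit 1048576) <| List.cons (nat_lit 1048576) <| List.cons (nat_lit 1048576) <| List.cons (nat_lit 1048576) <| List.cons (nat_lit 1048576) <| List.nil) <|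
  List.cons (List.cons (nat_lit 131072) <| List.cons (nat_lit 1048576) <| List.cons (nat_lit 1048576) <| List.cons (nat_lit 1048576) <| List.cons (nat_lit 1048576) <| List.cons (nat_lit 1048576) <| List.cons (nat_lit 143261696) <| List.cons (nat_lit 1048576) <| List.cons (nat_lit 1048576) <| List.cons (nat_lit 1048576) <| List.cons (nat_lit 1048576) <| List.cons (nat_lit 1048576) <| List.cons (nat_lit 1048576) <| List.cons (nat_lit 1048576) <| List.cons (nat_lit 1048576) <| List.cons (nat_lit 143261696) <| List.cons (nat_lit 1048576) <| List.cons (nat_lit 1048576) <| List.cons (nat_lit 1048576) <| List.cons (nat_lit 1048576) <| List.cons (nat_lit 1048576) <| List.cons (nat_lit 1048576) <| List.cons (nat_lit 1048576) <| List.nil) <|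
  List.cons (List.cons (nat_lit 131072) <| List.cons (nat_lit 1048576) <| List.cons (nat_lit 1048576) <| List.cons (nat_lit 1048576) <| List.cons (nat_lit 1048576) <| List.cons (nat_lit 1048576) <| List.cons (nat_lit 429916160) <| List.cons (nat_lit 1048576) <| List.cons (nat_lit 1048576) <| List.cons (nat_lit 1048576) <| List.cons (nat_lit 1048576) <| List.cons (nat_lit 1048576) <| List.cons (nat_lit 1048576) <| List.cons (nat_lit 1048576) <| List.cons (nat_lit 1048576) <| List.cons (nat_lit 429916160) <| List.cons (nat_lit 1048576) <| List.cons (nat_lit 1048576) <| List.cons (nat_lit 1048576) <| List.cons (nat_lit 1048576) <| List.cons (nat_lit 1048576) <| List.cons (nat_lit 1048576) <| List.cons (nat_lit 1048576) <| List.nil) <|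
  List.cons (List.cons (nat_lit 131072) <| List.cons (nat_lit 1048576) <| List.cons (nat_lit 1048576) <| List.cons (nat_lit 1048576) <| List.cons (nat_lit 1048576) <| List.cons (nat_lit 1048576) <| List.cons (nat_lit 1289879552) <| List.cons (nat_lit 1048576) <| List.cons (nat_lit 1048576) <| List.cons (nat_lit 1048576) <| List.cons (nat_lit 1048576) <| List.cons (nat_lit 1048576) <| List.cons (nat_lit 1048576) <| List.cons (nat_lit 1048576) <| List.cons (nat_lit 1048576) <| List.cons (nat_lit 1289879552) <| List.cons (nat_lit 1048576) <| List.cons (nat_lit 1048576) <| List.cons (nat_lit 1048576) <| List.cons (nat_lit 1048576) <| List.cons (nat_lit 1048576) <| List.cons (nat_lit 1048576) <| List.cons (nat_lit 1048576) <| List.nil) <|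
  List.cons (List.cons (nat_lit 0) <| List.cons (nat_lit 0) <| List.cons (nat_lit 0) <| List.cons (nat_lit 0) <| List.cons (nat_lit 0) <| List.cons (nat_lit 0) <| List.cons (nat_lit 2579890176) <| List.cons (nat_lit 0) <| List.cons (nat_lit 0) <| List.cons (nat_lit 0) <| List.cons (nat_lit 0) <| List.cons (nat_lit 0) <| List.cons (nat_lit 0) <| List.cons (nat_lit 0) <| List.cons (nat_lit 0) <| List.cons (nat_lit 2579890176) <| List.cons (nat_lit 0) <| List.cons (nat_lit 0) <| List.cons (nat_lit 0) <| List.cons (nat_lit 0) <| List.cons (nat_lit 0) <| List.cons (nat_lit 0) <| List.cons (nat_lit 0) <| List.nil) <|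
  List.nil) <|
  List.nil


end Pool.Agent.H92.Frog.K
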